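import Pool.Agent.X156.SD.CSign
import Mathlib.NumberTheory.RamificationInertia.Galois

/-!
# Complex conjugation on the places and on the Galois group
-/

set_option autoImplicit false
set_option linter.unusedSectionVars false
set_option maxHeartbeats 1000000

open IsDedekindDomain NumberField Module
open scoped Pointwise

namespace Pool.Agent.X156.SD

open Pool.Agent.X298.ST Pool.Agent.X298.EC

variable {K F : Type} [Field K] [NumberField K] [Field F] [NumberField F] [Algebra K F]

/-- the automorphism `t` of `F` induces `κ` on `K` -/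
def Induces (t : F ≃+* F) (κ : K ≃+* K) : Prop :=
  ∀ x : K, t (algebraMap K F x) = algebraMap K F (κ x)

theorem Induces.symm {t : F ≃+* F} {κ : K ≃+* K} (h : Induces t κ) (x : K) :
    t.symm (algebraMap K F x) = algebraMap K F (κ.symm x) := by
  rw [RingEquiv.symm_apply_eq, h, RingEquiv.apply_symm_apply]

/-- the conjugation `g ↦ t g t⁻¹` of the Galois group -/
noncomputable def conjGal {t : F ≃+* F} {κ : K ≃+* K} (h : Induces t κ) :
    (F ≃ₐ[K] F) ≃* (F ≃ₐ[K] F) where
  toFun g := AlgEquiv.ofRingEquiv (f := (t.symm.trans g.toRingEquiv).trans t) (fun x => by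
    change t (g (t.symm (algebraMap K F x))) = _
    rw [h.symm, g.commutes, h, RingEquiv.apply_symm_apply])
  invFun g := AlgEquiv.ofRingEquiv (f := (t.trans g.toRingEquiv).trans t.symm) (fun x => by
    change t.symm (g (t (algebraMap K F x))) = _
    rw [h, g.commutes, h.symm, RingEquiv.symm_apply_apply])
  left_inv g := by
    apply AlgEquiv.ext
    intro x
    change t.symm (t (g (t.symm (t x)))) = g x
    rw [RingEquiv.symm_apply_apply, RingEquiv.symm_apply_apply]
  right_inv g := by
    apply AlgEquiv.ext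
    intro x
    change t (t.symm (g (t (t.symm x)))) = g x
    rw [RingEquiv.apply_symm_apply, RingEquiv.apply_symm_apply]
  map_mul' a b := by
    apply AlgEquiv.ext
    intro x
    change t (a (b (t.symm x))) = t (a (t.symm (t (b (t.symm x)))))
    rw [RingEquiv.symm_apply_apply]

theorem conjGal_apply {t : F ≃+* F} {κ : K ≃+* K} (h : Induces t κ) (g : F ≃ₐ[K] F) (x : F) :
    conjGal h g x = t (g (t.symm x)) := rfl

/-- the permutation of the places -/
noncomputable def conjPlace (κ : K ≃+* K) :
    HeightOneSpectrum (𝓞 K) ≃ HeightOneSpectrum (𝓞 K) :=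
  HeightOneSpectrum.equivOfRingEquiv (RingOfIntegers.mapRingEquiv κ)

/-- the permutation of the places outside of `S` -/
noncomputable def conjPlaces (κ : K ≃+* K) {S : Set (HeightOneSpectrum (𝓞 K))}
    (hS : ∀ v, v ∈ S ↔ conjPlace κ v ∈ S) : Places S ≃ Places S :=
  (conjPlace κ).subtypeEquiv fun v => not_congr (hS v)

theorem mem_conjPlace (κ : K ≃+* K) (v : HeightOneSpectrum (𝓞 K)) (x : 𝓞 K) :
    x ∈ (conjPlace κ v).asIdeal ↔ (RingOfIntegers.mapRingEquiv κ).symm x ∈ v.asIdeal := Iff.rfl

theorem norm_conjPlace (κ : K ≃+* K) (v : HeightOneSpectrum (𝓞 K)) :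
    Ideal.absNorm (conjPlace κ v).asIdeal = Ideal.absNorm v.asIdeal := by
  rw [Ideal.absNorm_apply, Ideal.absNorm_apply, Submodule.cardQuot_apply, Submodule.cardQuot_apply]
  refine (Nat.card_congr (Ideal.quotientEquiv v.asIdeal (conjPlace κ v).asIdeal
    (RingOfIntegers.mapRingEquiv κ) ?_).toEquiv).symm
  rw [Ideal.map_comap_of_equiv]
  rfl

theorem smul_coe (g : F ≃ₐ[K] F) (x : 𝓞 F) : ((g • x : 𝓞 F) : F) = g (x : F) := rfl

variable {S : Set (HeightOneSpectrum (𝓞 K))} {P : Places S → Ideal (𝓞 F)}

theorem exists_transport [IsGalois K F] (hP : IsAbove P) {t : F ≃+* F} {κ : K ≃+* K}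
    (h : Induces t κ) (hS : ∀ v, v ∈ S ↔ conjPlace κ v ∈ S) (v : Places S) :
    ∃ a : F ≃ₐ[K] F, a • ((P v).comap (RingOfIntegers.mapRingEquiv t).symm) =
      P (conjPlaces κ hS v) := by
  have hfd : FiniteDimensional K F := Module.Finite.of_restrictScalars_finite ℚ K F
  have hfin := fin_gal (K := K) (L := F)
  have hG : IsGaloisGroup (F ≃ₐ[K] F) (𝓞 K) (𝓞 F) := IsGaloisGroup.of_isFractionRing _ _ _ K F
  have h1 := (hP v).1
  have h2 := (hP (conjPlaces κ hS v)).1
  have h3 : ((P v).comap (RingOfIntegers.mapRingEquiv t).symm).IsPrime := Ideal.comap_isPrime _ _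
  have e1 : ((P v).comap (RingOfIntegers.mapRingEquiv t).symm).LiesOver
      (conjPlaces κ hS v).1.asIdeal := by
    constructor
    ext x
    rw [Ideal.under_def, Ideal.mem_comap, Ideal.mem_comap]
    have h4 : (RingOfIntegers.mapRingEquiv t).symm (algebraMap (𝓞 K) (𝓞 F) x) =
        algebraMap (𝓞 K) (𝓞 F) ((RingOfIntegers.mapRingEquiv κ).symm x) := by
      apply RingOfIntegers.ext
      exact h.symm (x : K)
    rw [h4, ← Ideal.mem_comap, (hP v).2]
    exact mem_conjPlace κ v.1 x
  have e2 : (P (conjPlaces κ hS v)).LiesOver (conjPlaces κ hS v).1.asIdeal :=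
    ⟨(hP (conjPlaces κ hS v)).2.symm⟩
  have h5 := (conjPlaces κ hS v).1.isPrime
  exact Ideal.exists_smul_eq_of_isGaloisGroup (conjPlaces κ hS v).1.asIdeal _ _ _

/-- **Complex conjugation.** -/
theorem isConjugation [IsGalois K F] (hP : IsAbove P) {t : F ≃+* F} {κ : K ≃+* K}
    (h : Induces t κ) (ht : ∀ x, t (t x) = x) (hS : ∀ v, v ∈ S ↔ conjPlace κ v ∈ S) :
    IsConjugation P (conjPlaces κ hS) (conjGal h) where
  invol g := by
    have hts : ∀ x, t.symm x = t x := fun x => by
      rw [RingEquiv.symm_apply_eq, ht]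
    apply AlgEquiv.ext
    intro x
    rw [conjGal_apply, conjGal_apply, hts, hts, ht, ht]
  norm v := norm_conjPlace κ v.1
  frob f hf v k := by
    obtain ⟨a, ha⟩ := exists_transport hP h hS v
    have hnorm : nrm (conjPlaces κ hS v) = nrm v := norm_conjPlace κ v.1
    have key : ∀ g : F ≃ₐ[K] F, a * conjGal h g * a⁻¹ ∈ frob P (conjPlaces κ hS v) k ↔
        g ∈ frob P v k := by
      intro g
      unfold frob
      rw [Set.mem_setOf_eq, Set.mem_setOf_eq, ← ha, hnorm]
      have h1 : ∀ z : 𝓞 F, (RingOfIntegers.mapRingEquiv t).symm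
          (conjGal h g • (RingOfIntegers.mapRingEquiv t) z) = g • z := by
        intro z
        apply RingOfIntegers.ext
        change t.symm (t (g (t.symm (t (z : F))))) = g (z : F)
        rw [RingEquiv.symm_apply_apply, RingEquiv.symm_apply_apply]
      constructor
      · intro h2 z
        have h3 := h2 (a • (RingOfIntegers.mapRingEquiv t) z)
        rw [Ideal.mem_pointwise_smul_iff_inv_smul_mem, smul_sub, smul_pow', inv_smul_smul,
          mul_smul, mul_smul, inv_smul_smul, inv_smul_smul, Ideal.mem_comap, _root_.map_sub, map_pow, h1,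
          RingEquiv.symm_apply_apply] at h3
        exact h3
      · intro h2 x
        have h3 := h2 ((RingOfIntegers.mapRingEquiv t).symm (a⁻¹ • x))
        rw [Ideal.mem_pointwise_smul_iff_inv_smul_mem, smul_sub, smul_pow', mul_smul, mul_smul,
          inv_smul_smul, Ideal.mem_comap, _root_.map_sub, map_pow]
        rw [← h1, RingEquiv.apply_symm_apply] at h3
        exact h3
    have hinj : Function.Injective fun g => a * conjGal h g * a⁻¹ := by
      intro g g' hg
      exact (conjGal h).injective (mul_left_cancel (mul_right_cancel hg))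
    have himg : frob P (conjPlaces κ hS v) k = (fun g => a * conjGal h g * a⁻¹) '' frob P v k := by
      ext g
      constructor
      · intro hg
        refine ⟨(conjGal h).symm (a⁻¹ * g * a), ?_, ?_⟩
        · rw [← key, MulEquiv.apply_symm_apply]
          have h2 : a * (a⁻¹ * g * a) * a⁻¹ = g := by group
          rwa [h2]
        · change a * conjGal h ((conjGal h).symm (a⁻¹ * g * a)) * a⁻¹ = g
          rw [MulEquiv.apply_symm_apply]
          group
      · rintro ⟨g', hg', rfl⟩
        exact (key g').2 hg'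
    unfold value
    rw [himg, finsum_mem_image hinj.injOn, Set.ncard_image_of_injective _ hinj]
    congr 1
    refine finsum_mem_congr rfl fun g _ => ?_
    exact hf _ _

end Pool.Agent.X156.SD
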