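import Pool.Agent.X156.SD.Layers

/-!
# Selmer groups of elliptic curves and the `p`-infinity Selmer rank

The `m`-Selmer group of an elliptic curve over a number field `F` is the group of classes of
continuous crossed homomorphisms from the absolute Galois group of `F` to the `m`-torsion points
over the algebraic closure, which become principal over all completions. The `p`-infinity Selmer
rank is the rate of growth of the Selmer groups for the powers of `p`.
-/

set_option autoImplicit false
set_option linter.unusedSectionVars false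

namespace Pool.Agent.X156.SD

open WeierstrassCurve NumberField Module IsDedekindDomain Pool.Agent.X156.PR

/-- continuous crossed homomorphisms from the absolute Galois group to the `m`-torsion points -/
structure Cocycle {F : Type} [Field F] (W : WeierstrassCurve F) (m : ℕ) : Type where
  /-- the values -/
  val : (AlgebraicClosure F ≃ₐ[F] AlgebraicClosure F) → Grp (W.baseChange (AlgebraicClosure F))
  /-- the values are `m`-torsion points -/
  torsion : ∀ σ, m • val σ = 0
  /-- the rule for products -/
  rule : ∀ σ τ, val (σ * τ) =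
    val σ + mp W (σ : AlgebraicClosure F →ₐ[F] AlgebraicClosure F) (val τ)
  /-- continuity -/
  continuity : ∃ E : IntermediateField F (AlgebraicClosure F), FiniteDimensional F E ∧
    ∀ τ : AlgebraicClosure F ≃ₐ[F] AlgebraicClosure F, (∀ x ∈ E, τ x = x) → val τ = 0

section

variable {F : Type} [Field F] {W : WeierstrassCurve F} {m : ℕ}

/-- the restriction of the crossed homomorphism to the Galois group of `R` is principal, as a
crossed homomorphism with values in all points -/
def Cocycle.TrivialOver (c : Cocycle W m) (R : Type) [Field R] [Algebra F R] : Prop :=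
  ∀ ι : AlgebraicClosure F →ₐ[F] AlgebraicClosure R,
    ∃ P : Grp (W.baseChange (AlgebraicClosure R)),
      ∀ (τ : AlgebraicClosure R ≃ₐ[R] AlgebraicClosure R)
        (σ : AlgebraicClosure F ≃ₐ[F] AlgebraicClosure F), (∀ x, ι (σ x) = τ (ι x)) →
        mp W ι (c.val σ) = mp W
          ((τ : AlgebraicClosure R →ₐ[R] AlgebraicClosure R).restrictScalars F) P - P

/-- two crossed homomorphisms have the same class -/
def Cocycle.Same (c c' : Cocycle W m) : Prop :=
  ∃ T : Grp (W.baseChange (AlgebraicClosure F)), m • T = 0 ∧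
    ∀ σ : AlgebraicClosure F ≃ₐ[F] AlgebraicClosure F,
      c.val σ - c'.val σ = mp W (σ : AlgebraicClosure F →ₐ[F] AlgebraicClosure F) T - T

end

section

variable {F : Type} [Field F] [NumberField F] (W : WeierstrassCurve F)

/-- the crossed homomorphisms which are principal over all completions -/
def Everywhere (m : ℕ) : Type :=
  {c : Cocycle W m // (∀ v : HeightOneSpectrum (𝓞 F), c.TrivialOver (v.adicCompletion F)) ∧
    ∀ v : InfinitePlace F, c.TrivialOver v.Completion}

/-- the order of the `m`-Selmer group -/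
noncomputable def selmerCard (m : ℕ) : ℕ :=
  Nat.card (Quot fun c c' : Everywhere W m => c.1.Same c'.1)

/-- `r` is the `p`-infinity Selmer rank: the order of the Selmer group for `p ^ n` is `p ^ (r n)`
up to a bounded factor -/
def IsSelmerRank (p r : ℕ) : Prop :=
  ∃ C : ℕ, ∀ n : ℕ, p ^ (r * n) ≤ selmerCard W (p ^ n) ∧
    selmerCard W (p ^ n) ≤ p ^ (r * n + C)

/-- the `p`-infinity Selmer rank -/
noncomputable def selmerRank (p : ℕ) : ℕ := sInf {r : ℕ | IsSelmerRank W p r}

/-- the product of the two signs of the `p`-parity conjecture -/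
noncomputable def pDefect (p : ℕ) : ℤ := (-1) ^ (selmerRank W p) * rootNumber W

variable {W}

theorem IsSelmerRank.unique {p r s : ℕ} (hp : 2 ≤ p) (hr : IsSelmerRank W p r)
    (hs : IsSelmerRank W p s) : r ≤ s := by
  obtain ⟨_, h1⟩ := hr
  obtain ⟨C, h2⟩ := hs
  have h3 := ((h1 (C + 1)).1).trans (h2 (C + 1)).2
  have h4 := (Nat.pow_le_pow_iff_right (by omega : 1 < p)).1 h3
  by_contra h5
  push Not at h5
  have h6 : (s + 1) * (C + 1) ≤ r * (C + 1) := Nat.mul_le_mul_right _ h5
  nlinarith

theorem selmerRank_eq {p r : ℕ} (hp : 2 ≤ p) (hr : IsSelmerRank W p r) : selmerRank W p = r := by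
  have h1 : IsSelmerRank W p (selmerRank W p) :=
    Nat.sInf_mem (s := {r : ℕ | IsSelmerRank W p r}) ⟨r, hr⟩
  exact le_antisymm (h1.unique hp hr) (hr.unique hp h1)

end

section

variable {k : Type} [Field k] [NumberField k]

/-- the representation `ρ` has a nondegenerate invariant bilinear form, and the dimensions of its
invariants are the `p`-infinity Selmer ranks over the intermediate fields -/
structure SelmerModule (W : WeierstrassCurve k) (L : Type) [Field L] [NumberField L] [Algebra k L]
    (p : ℕ) [Fact p.Prime] (V : Type) [AddCommGroup V] [Module ℚ_[p] V]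
    (ρ : (L ≃ₐ[k] L) →* (V →ₗ[ℚ_[p]] V)) : Prop where
  /-- self-duality -/
  selfDual : SelfDual ρ
  /-- the Selmer rank over `L` -/
  top : IsSelmerRank (W.baseChange L) p (finrank ℚ_[p] V)
  /-- the Selmer ranks over the intermediate fields -/
  layers : ∀ H : Subgroup (L ≃ₐ[k] L),
    IsSelmerRank (W.baseChange (IntermediateField.fixedField H)) p (finrank ℚ_[p] (fixS ρ H))

variable {L : Type} [Field L] [NumberField L] [Algebra k L] [IsGalois k L] {p : ℕ}
  [hp : Fact p.Prime] {V : Type} [AddCommGroup V] [Module ℚ_[p] V]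
  [FiniteDimensional ℚ_[p] V] {ρ : (L ≃ₐ[k] L) →* (V →ₗ[ℚ_[p]] V)}

theorem pDefect_eq {F : Type} [Field F] [NumberField F] {W : WeierstrassCurve F} {r : ℕ}
    (h : IsSelmerRank W p r) : pDefect W p = (-1) ^ (r + rexp W) := by
  unfold pDefect rootNumber rexp
  rw [selmerRank_eq hp.out.two_le h, ← pow_add]

omit hp in
theorem rootNumber_eq {F : Type} [Field F] [NumberField F] (W : WeierstrassCurve F) :
    rootNumber W = (-1) ^ (rexp W) := rfl

omit hp in
theorem root_prod (W : WeierstrassCurve k) (hW : W.Δ ≠ 0) (hs : Semistable W)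
    (H N : Subgroup (L ≃ₐ[k] L)) (hNH : N ≤ H)
    (hn : (N.subgroupOf H).Normal) (hN : Odd (Nat.card N)) (n : ℕ)
    (hi : N.relIndex H = 2 ^ (n + 1)) :
    rootNumber (W.baseChange L) =
      ∏ K ∈ halves H, rootNumber (W.baseChange (IntermediateField.fixedField K)) := by
  have hfd : FiniteDimensional k L := Module.Finite.of_restrictScalars_finite ℚ k L
  rw [rootNumber_eq, Finset.prod_congr rfl fun K _ => rootNumber_eq _,
    Finset.prod_pow_eq_pow_sum]
  apply neg_one_cast
  rw [root_sub W hW hs H N hNH hn hN hi]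
  push_cast
  rfl

theorem pDefect_sub (W : WeierstrassCurve k) (hW : W.Δ ≠ 0) (hs : Semistable W)
    (hV : SelmerModule W L p V ρ) (H N : Subgroup (L ≃ₐ[k] L)) (hNH : N ≤ H)
    (hn : (N.subgroupOf H).Normal) (hN : Odd (Nat.card N)) (n : ℕ)
    (hi : N.relIndex H = 2 ^ (n + 1)) :
    pDefect (W.baseChange L) p =
      ∏ K ∈ halves H, pDefect (W.baseChange (IntermediateField.fixedField K)) p := by
  have hfd : FiniteDimensional k L := Module.Finite.of_restrictScalars_finite ℚ k L
  rw [pDefect_eq hV.top, Finset.prod_congr rfl fun K _ => pDefect_eq (hV.layers K),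
    Finset.prod_pow_eq_pow_sum]
  apply neg_one_cast
  rw [Nat.cast_add, parity_sub hV.selfDual H N hNH hn hN hi, root_sub W hW hs H N hNH hn hN hi,
    ← Finset.sum_add_distrib]
  push_cast
  rfl

theorem pDefect_invol (W : WeierstrassCurve k) (hW : W.Δ ≠ 0) (hs : Semistable W)
    (hV : SelmerModule W L p V ρ) (z : L ≃ₐ[k] L) (hz : z * z = 1)
    (hsq : z ∈ Subgroup.closure (Set.range fun g : L ≃ₐ[k] L => g ^ 2)) :
    pDefect (W.baseChange L) p =
      pDefect (W.baseChange (IntermediateField.fixedField (Subgroup.zpowers z))) p := by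
  have hfd : FiniteDimensional k L := Module.Finite.of_restrictScalars_finite ℚ k L
  rw [pDefect_eq hV.top, pDefect_eq (hV.layers _)]
  apply neg_one_cast
  rw [Nat.cast_add, Nat.cast_add, invol_parity hV.selfDual hz hsq, root_invol W hW hs hz hsq]

/-- the Sylow case -/
theorem sylow_halves (he : Even (finrank k L)) (P : Sylow 2 (L ≃ₐ[k] L)) :
    ∃ n, (⊥ : Subgroup (L ≃ₐ[k] L)).relIndex P = 2 ^ (n + 1) := by
  have hfd : FiniteDimensional k L := Module.Finite.of_restrictScalars_finite ℚ k L
  obtain ⟨n, hn⟩ := (IsPGroup.iff_card).1 P.isPGroup'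
  have hn0 : n ≠ 0 := by
    rintro rfl
    have h2 : 2 ∣ Nat.card (L ≃ₐ[k] L) := by
      rw [IsGalois.card_aut_eq_finrank]
      exact he.two_dvd
    have h3 := P.dvd_card_of_dvd_card h2
    rw [hn, pow_zero] at h3
    omega
  obtain ⟨m, rfl⟩ := Nat.exists_eq_succ_of_ne_zero hn0
  exact ⟨m, by rw [Subgroup.relIndex_bot_left, hn]⟩

end

end Pool.Agent.X156.SD
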