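import Pool.Agent.X156.SD.Rank
import Pool.Agent.X156.SD.Sel

/-!
# Birch and Swinnerton-Dyer modulo 2 over Galois extensions
-/

set_option autoImplicit false
set_option linter.unusedSectionVars false

open IsDedekindDomain NumberField Module
open Pool.Agent.X298.ST Pool.Agent.X298.EC

namespace Pool.Agent.X156.SD

open Pool.Agent.X156.PR (rank base_ne)

theorem fixS_bot {G : Type} [Group G] {F : Type} [Field F] [CharZero F] {V : Type}
    [AddCommGroup V] [Module F V] (ρ : G →* (V →ₗ[F] V)) :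
    finrank F (fixS ρ (⊥ : Subgroup G)) = finrank F V := by
  have : fixS ρ (⊥ : Subgroup G) = ⊤ := by
    rw [Submodule.eq_top_iff']
    intro v h hh
    rw [Subgroup.mem_bot] at hh
    rw [hh, map_one]
    rfl
  rw [this, finrank_top]

theorem even_of_cast {a : ℤ} (h : (a : ZMod 2) = 0) : Even a := by
  rw [even_iff_two_dvd]
  exact (ZMod.intCast_zmod_eq_zero_iff_dvd a 2).1 h

theorem cast_of_even {a : ℤ} (h : Even a) : (a : ZMod 2) = 0 := by
  rw [even_iff_two_dvd] at h
  exact (ZMod.intCast_zmod_eq_zero_iff_dvd a 2).2 h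

/-- the elliptic curve `y² = x³ + A x + B` -/
def curve {K : Type} [Field K] (A B : 𝓞 K) : WeierstrassCurve K where
  a₁ := 0
  a₂ := 0
  a₃ := 0
  a₄ := (A : K)
  a₆ := (B : K)

/-- the rank of the curve over the field fixed by the subgroup `J` -/
noncomputable def rk {K F : Type} [Field K] [Field F] [Algebra K F] (E : WeierstrassCurve K)
    (J : Subgroup (F ≃ₐ[K] F)) : ℕ :=
  rank (E.baseChange (IntermediateField.fixedField J))

section

variable {K F : Type} [Field K] [NumberField K] [Field F] [NumberField F] [Algebra K F]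
  [IsGalois K F]

/-- all the statements for given orders of vanishing -/
theorem main (E : WeierstrassCurve K) (hE : E.Δ ≠ 0) (o : Subgroup (F ≃ₐ[K] F) → ℤ) {V : Type}
    [AddCommGroup V] [Module ℂ V] [FiniteDimensional ℂ V] {σ : (F ≃ₐ[K] F) →* (V →ₗ[ℂ] V)}
    (hσ : SelfDual σ)
    (ho : ∀ H, (o H : ZMod 2) = (finrank ℂ (fixS σ H) : ZMod 2)) :
    (∀ H N : Subgroup (F ≃ₐ[K] F), N ≤ H → (N.subgroupOf H).Normal → Odd (Nat.card N) →
      ∀ n : ℕ, N.relIndex H = 2 ^ (n + 1) →
        Even (o ⊥ - ∑ J ∈ halves H, o J) ∧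
        Even ((rank (E.baseChange F) : ℤ) - ∑ J ∈ halves H, (rk E J : ℤ)) ∧
        ((∀ J ∈ halves H, Even (o J - rk E J)) → Even (o ⊥ - rank (E.baseChange F)))) ∧
    (∀ z : F ≃ₐ[K] F, z * z = 1 →
      z ∈ Subgroup.closure (Set.range fun g : F ≃ₐ[K] F => g ^ 2) →
        Even (o ⊥ - o (Subgroup.zpowers z)) ∧
        Even ((rank (E.baseChange F) : ℤ) - rk E (Subgroup.zpowers z))) := by
  have hfd : FiniteDimensional K F := Module.Finite.of_restrictScalars_finite ℚ K F
  have hbot : (o ⊥ : ZMod 2) = (finrank ℂ V : ZMod 2) := by rw [ho, fixS_bot]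
  constructor
  · intro H N h1 h2 h3 n h4
    have e1 : Even (o ⊥ - ∑ J ∈ halves H, o J) := by
      apply even_of_cast
      push_cast
      rw [hbot, Finset.sum_congr rfl fun J _ => ho J, parity_sub hσ H N h1 h2 h3 h4, sub_self]
    have e2 : Even ((rank (E.baseChange F) : ℤ) - ∑ J ∈ halves H, (rk E J : ℤ)) := by
      apply even_of_cast
      push_cast
      rw [rank_sub E hE H N h1 h2 h3 h4]
      exact sub_self _
    refine ⟨e1, e2, fun h => ?_⟩
    have e3 : Even (∑ J ∈ halves H, (o J - rk E J)) := Finset.even_sum _ h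
    rw [Finset.sum_sub_distrib] at e3
    have e4 := (e1.sub e2).add e3
    have e5 : o ⊥ - ∑ J ∈ halves H, o J - ((rank (E.baseChange F) : ℤ) -
        ∑ J ∈ halves H, (rk E J : ℤ)) + (∑ J ∈ halves H, o J - ∑ J ∈ halves H, (rk E J : ℤ)) =
        o ⊥ - rank (E.baseChange F) := by ring
    rwa [e5] at e4
  · intro z h1 h2
    constructor
    · apply even_of_cast
      rw [Int.cast_sub, hbot, ho, invol_parity hσ h1 h2, sub_self]
    · apply even_of_cast
      push_cast
      rw [rank_invol E hE h1 h2]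
      exact sub_self _

end

end Pool.Agent.X156.SD
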