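import Pool.Agent.X156.SD.Ord2
import Pool.Agent.X156.SD.Bsd

/-!
# Parity statements for motives over Galois extensions
-/

set_option autoImplicit false
set_option linter.unusedSectionVars false

open IsDedekindDomain NumberField Module
open Pool.Agent.X298.ST Pool.Agent.X298.EC

namespace Pool.Agent.X156.SD

/-- the dimension of the invariants of the subgroup `H` -/
noncomputable def sel {G : Type} [Group G] {E : Type} [Field E] [CharZero E] {R : Type}
    [AddCommGroup R] [Module E R] (r : G →* (R →ₗ[E] R)) (H : Subgroup G) : ℕ :=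
  finrank E (fixS r H)

theorem sel_bot {G : Type} [Group G] {E : Type} [Field E] [CharZero E] {R : Type}
    [AddCommGroup R] [Module E R] (r : G →* (R →ₗ[E] R)) : sel r ⊥ = finrank E R :=
  fixS_bot r

section

variable {G : Type} [Group G] [Finite G] {E : Type} [Field E] [CharZero E] {R : Type}
  [AddCommGroup R] [Module E R] [FiniteDimensional E R]

/-- the parity statements for orders and Selmer dimensions -/
theorem parity_pair (o : Subgroup G → ℤ) {V : Type} [AddCommGroup V] [Module ℂ V]
    [FiniteDimensional ℂ V] {σ : G →* (V →ₗ[ℂ] V)} (hσ : SelfDual σ)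
    (ho : ∀ H, (o H : ZMod 2) = (finrank ℂ (fixS σ H) : ZMod 2)) {r : G →* (R →ₗ[E] R)}
    (hr : SelfDual r) :
    (∀ H N : Subgroup G, N ≤ H → (N.subgroupOf H).Normal → Odd (Nat.card N) →
      ∀ n : ℕ, N.relIndex H = 2 ^ (n + 1) →
        Even (o ⊥ - ∑ J ∈ halves H, o J) ∧
        Even ((sel r ⊥ : ℤ) - ∑ J ∈ halves H, (sel r J : ℤ)) ∧
        ((∀ J ∈ halves H, Even (o J - sel r J)) → Even (o ⊥ - sel r ⊥))) ∧
    (∀ z : G, z * z = 1 → z ∈ Subgroup.closure (Set.range fun g : G => g ^ 2) →
        Even (o ⊥ - o (Subgroup.zpowers z)) ∧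
        Even ((sel r ⊥ : ℤ) - sel r (Subgroup.zpowers z))) := by
  have hbot : (o ⊥ : ZMod 2) = (finrank ℂ V : ZMod 2) := by rw [ho, fixS_bot]
  constructor
  · intro H N h1 h2 h3 n h4
    have e1 : Even (o ⊥ - ∑ J ∈ halves H, o J) := by
      apply even_of_cast
      push_cast
      rw [hbot, Finset.sum_congr rfl fun J _ => ho J, parity_sub hσ H N h1 h2 h3 h4, sub_self]
    have e2 : Even ((sel r ⊥ : ℤ) - ∑ J ∈ halves H, (sel r J : ℤ)) := by
      apply even_of_cast
      push_cast
      rw [sel_bot, parity_sub hr H N h1 h2 h3 h4]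
      exact sub_self _
    refine ⟨e1, e2, fun h => ?_⟩
    have e3 : Even (∑ J ∈ halves H, (o J - sel r J)) := Finset.even_sum _ h
    rw [Finset.sum_sub_distrib] at e3
    have e4 := (e1.sub e2).add e3
    have e5 : o ⊥ - ∑ J ∈ halves H, o J - ((sel r ⊥ : ℤ) -
        ∑ J ∈ halves H, (sel r J : ℤ)) + (∑ J ∈ halves H, o J - ∑ J ∈ halves H, (sel r J : ℤ)) =
        o ⊥ - sel r ⊥ := by ring
    rwa [e5] at e4
  · intro z h1 h2
    constructor
    · apply even_of_cast
      rw [Int.cast_sub, hbot, ho, invol_parity hσ h1 h2, sub_self]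
    · apply even_of_cast
      push_cast
      rw [sel_bot, invol_parity hr h1 h2]
      exact sub_self _

end

/-- the local data of a Hilbert modular newform at the places outside of `S`: the eigenvalue `t_v`
is real, and `α_v, β_v` are the roots of `X² - t_v X + q_v`, of absolute value `√q_v` -/
structure IsNewform {K : Type} [Field K] [NumberField K] {S : Set (HeightOneSpectrum (𝓞 K))}
    (t : Places S → ℝ) (α β : Places S → ℂ) : Prop where
  /-- the sum of the roots -/
  add : ∀ v, α v + β v = t v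
  /-- the product of the roots -/
  mul : ∀ v, α v * β v = nrm v
  /-- the absolute value -/
  norm_left : ∀ v, ‖α v‖ = Real.sqrt (nrm v)
  /-- the absolute value -/
  norm_right : ∀ v, ‖β v‖ = Real.sqrt (nrm v)

section

variable {K : Type} [Field K] [NumberField K] {S : Set (HeightOneSpectrum (𝓞 K))}
  {t : Places S → ℝ} {α β : Places S → ℂ}

theorem IsNewform.pure (h : IsNewform t α β) : IsPure (tr α β) 1 := by
  refine ⟨2, fun v k => ?_⟩
  have hq : (0 : ℝ) ≤ nrm v := (nrm_pos v).le
  have h1 : (nrm v : ℝ) ^ (((1 : ℤ) : ℝ) / 2) = Real.sqrt (nrm v) := by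
    rw [Real.sqrt_eq_rpow]
    norm_num
  rw [h1]
  unfold tr
  refine (norm_add_le _ _).trans ?_
  rw [norm_pow, norm_pow, h.norm_left, h.norm_right]
  linarith

theorem IsNewform.real (h : IsNewform t α β) (v : Places S) (k : ℕ) :
    (starRingEnd ℂ) (tr α β v k) = tr α β v k := by
  have hq := nrm_pos v
  have h1 : (starRingEnd ℂ) (α v) = β v := by
    have h2 : α v * (starRingEnd ℂ) (α v) = (nrm v : ℂ) := by
      rw [Complex.mul_conj, Complex.normSq_eq_norm_sq, h.norm_left, Real.sq_sqrt hq.le]
      norm_cast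
    have h3 : α v ≠ 0 := by
      intro h0
      rw [h0, zero_mul] at h2
      exact nrm_ne v h2.symm
    apply mul_left_cancel₀ h3
    rw [h2, h.mul]
  have h4 : (starRingEnd ℂ) (β v) = α v := by rw [← h1, Complex.conj_conj]
  unfold tr
  rw [map_add, map_pow, map_pow, h1, h4, add_comm]

end

end Pool.Agent.X156.SD
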