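import Pool.Agent.X156.SD.Hmf

/-!
# Abelian varieties: signs of functional equations and ranks over Galois extensions
-/

set_option autoImplicit false
set_option linter.unusedSectionVars false

open IsDedekindDomain NumberField Module Filter Topology
open Pool.Agent.X298.ST Pool.Agent.X298.EC

namespace Pool.Agent.X156.SD

open Pool.Agent.X156.PR (fixA rat finrank_rat finrank_fixA neg_one_cast)

/-- the functional equation `Λ*(2 - s) = ε Λ*(s)` near `s = 1`, where `Λ* = u Λ` with a factor `u`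
which is analytic and does not vanish at `s = 1` -/
def FunctionalEq (Λ : ℂ → ℂ) (ε : ℤ) : Prop :=
  ∃ u : ℂ → ℂ, AnalyticAt ℂ u 1 ∧ u 1 ≠ 0 ∧
    ∀ᶠ s in 𝓝[≠] (1 : ℂ), u (2 - s) * Λ (2 - s) = ε * (u s * Λ s)

theorem flip_tendsto : Tendsto (fun s : ℂ => 2 - s) (𝓝 1) (𝓝 1) := by
  have h : Tendsto (fun s : ℂ => 2 - s) (𝓝 1) (𝓝 (2 - 1)) :=
    (continuous_const.sub continuous_id).tendsto 1
  have e : (2 : ℂ) - 1 = 1 := by norm_num
  rwa [e] at h

theorem flip_tendsto' : Tendsto (fun s : ℂ => 2 - s) (𝓝[≠] 1) (𝓝[≠] 1) := by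
  rw [tendsto_nhdsWithin_iff]
  refine ⟨flip_tendsto.mono_left nhdsWithin_le_nhds, ?_⟩
  filter_upwards [self_mem_nhdsWithin] with s hs h
  apply hs
  change s = 1
  have h2 : 2 - s = 1 := h
  linear_combination -h2

/-- the sign is the parity of the order -/
theorem FunctionalEq.sign {Λ : ℂ → ℂ} {ε : ℤ} (h : FunctionalEq Λ ε) {o : ℤ}
    (hm : MeromorphicAt Λ 1) (ho : meromorphicOrderAt Λ 1 = (o : WithTop ℤ)) :
    ((-1 : ℂ)) ^ o = ε := by
  obtain ⟨u, h1, h2, h3⟩ := h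
  rw [meromorphicOrderAt_eq_int_iff hm] at ho
  obtain ⟨f, h4, h5, h6⟩ := ho
  have h7 := flip_tendsto'.eventually h6
  have h8 : ∀ᶠ s in 𝓝[≠] (1 : ℂ), (-1 : ℂ) ^ o * (u (2 - s) * f (2 - s)) = ε * (u s * f s) := by
    filter_upwards [h3, h6, h7, self_mem_nhdsWithin] with s e1 e2 e3 e4
    have hs : s - 1 ≠ 0 := sub_ne_zero.2 e4
    rw [e2, e3, smul_eq_mul, smul_eq_mul] at e1
    have e5 : (2 : ℂ) - s - 1 = (-1) * (s - 1) := by ring
    rw [e5, mul_zpow] at e1
    have hz : (s - 1) ^ o ≠ 0 := zpow_ne_zero _ hs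
    apply mul_left_cancel₀ hz
    linear_combination e1
  have hl : Tendsto (fun s => (-1 : ℂ) ^ o * (u (2 - s) * f (2 - s))) (𝓝[≠] 1)
      (𝓝 ((-1 : ℂ) ^ o * (u 1 * f 1))) := by
    have hu := (h1.continuousAt.tendsto.comp flip_tendsto)
    have hf := (h4.continuousAt.tendsto.comp flip_tendsto)
    exact ((hu.mul hf).const_mul _).mono_left nhdsWithin_le_nhds
  have hr : Tendsto (fun s => (ε : ℂ) * (u s * f s)) (𝓝[≠] 1) (𝓝 ((ε : ℂ) * (u 1 * f 1))) :=
    ((h1.continuousAt.tendsto.mul h4.continuousAt.tendsto).const_mul _).mono_left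
      nhdsWithin_le_nhds
  have h9 := tendsto_nhds_unique (hl.congr' h8) hr
  exact mul_right_cancel₀ (mul_ne_zero h2 h5) h9

theorem sign_eq {o : ℤ} {d : ℕ} {ε : ℤ} (hc : (o : ZMod 2) = (d : ZMod 2))
    (h : ((-1 : ℂ)) ^ o = ε) : ε = (-1) ^ d := by
  have h1 : Even (o - d) := by
    apply even_of_cast
    rw [Int.cast_sub, hc, Int.cast_natCast, sub_self]
  obtain ⟨t, ht⟩ := h1
  have h2 : o = d + (t + t) := by omega
  rw [h2, zpow_add₀ (by norm_num), zpow_natCast, zpow_add₀ (by norm_num), ← mul_zpow] at h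
  norm_num at h
  have h3 : ((ε : ℤ) : ℂ) = (((-1) ^ d : ℤ) : ℂ) := by
    push_cast
    exact h.symm
  exact_mod_cast h3

/-- the traces of the powers of Frobenius on an abelian variety of dimension `g` -/
def IsTrace {K : Type} [Field K] [NumberField K] {S : Set (HeightOneSpectrum (𝓞 K))} (g : ℕ)
    (c : Places S → ℕ → ℤ) : Prop :=
  ∀ v k, |(c v k : ℝ)| ≤ 2 * g * Real.sqrt (nrm v) ^ k

/-- the rank of the group of the elements of `M` fixed by `H` -/
noncomputable def rkFix {G : Type} [Group G] (M : Type) [AddCommGroup M] [DistribMulAction G M]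
    (H : Subgroup G) : ℕ := finrank ℤ (fixA (A := M) H)

section

variable {K : Type} [Field K] [NumberField K] {S : Set (HeightOneSpectrum (𝓞 K))} {g : ℕ}
  {c : Places S → ℕ → ℤ}

theorem IsTrace.pure (h : IsTrace g c) : IsPure (fun v k => ((c v k : ℤ) : ℂ)) 1 := by
  refine ⟨2 * g, fun v k => ?_⟩
  have h1 : (nrm v : ℝ) ^ (((1 : ℤ) : ℝ) / 2) = Real.sqrt (nrm v) := by
    rw [Real.sqrt_eq_rpow]
    norm_num
  rw [h1, Complex.norm_intCast]
  exact h v k

theorem int_real (v : Places S) (k : ℕ) :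
    (starRingEnd ℂ) (((c v k : ℤ) : ℂ)) = ((c v k : ℤ) : ℂ) := by
  rw [map_intCast]

end

section

variable {G : Type} [Group G] [Finite G]

theorem fixA_sub {M : Type} [AddCommGroup M] [Module.Finite ℤ M] [DistribMulAction G M]
    (H N : Subgroup G) (hNH : N ≤ H) (hn : (N.subgroupOf H).Normal) (hN : Odd (Nat.card N))
    {n : ℕ} (hi : N.relIndex H = 2 ^ (n + 1)) :
    (finrank ℤ M : ZMod 2) = ∑ J ∈ halves H, (rkFix M J : ZMod 2) := by
  rw [finrank_rat, parity_sub (selfDual_rat (rat G M)) H N hNH hn hN hi]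
  refine Finset.sum_congr rfl fun J _ => ?_
  unfold rkFix
  rw [finrank_fixA]
  rfl

theorem fixA_invol {M : Type} [AddCommGroup M] [Module.Finite ℤ M] [DistribMulAction G M]
    {z : G} (hz : z * z = 1) (hsq : z ∈ Subgroup.closure (Set.range fun g : G => g ^ 2)) :
    (finrank ℤ M : ZMod 2) = (rkFix M (Subgroup.zpowers z) : ZMod 2) := by
  rw [finrank_rat, invol_parity (selfDual_rat (rat G M)) hz hsq]
  unfold rkFix
  rw [finrank_fixA]
  rfl

/-- signs and ranks -/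
theorem signs {V : Type} [AddCommGroup V] [Module ℂ V] [FiniteDimensional ℂ V]
    {σ : G →* (V →ₗ[ℂ] V)} (hσ : SelfDual σ) (ε : Subgroup G → ℤ)
    (hε : ∀ H, ε H = (-1) ^ (finrank ℂ (fixS σ H))) (M : Type) [AddCommGroup M]
    [Module.Finite ℤ M] [DistribMulAction G M] :
    (∀ H N : Subgroup G, N ≤ H → (N.subgroupOf H).Normal → Odd (Nat.card N) →
      ∀ n : ℕ, N.relIndex H = 2 ^ (n + 1) →
        ε ⊥ = ∏ J ∈ halves H, ε J ∧
        (-1 : ℤ) ^ (finrank ℤ M) = ∏ J ∈ halves H, (-1 : ℤ) ^ (rkFix M J) ∧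
        ((∀ J ∈ halves H, (-1 : ℤ) ^ (rkFix M J) = ε J) → (-1 : ℤ) ^ (finrank ℤ M) = ε ⊥)) ∧
    (∀ z : G, z * z = 1 → z ∈ Subgroup.closure (Set.range fun g : G => g ^ 2) →
        ε ⊥ = ε (Subgroup.zpowers z) ∧
        (-1 : ℤ) ^ (finrank ℤ M) = (-1 : ℤ) ^ (rkFix M (Subgroup.zpowers z))) := by
  constructor
  · intro H N h1 h2 h3 n h4
    have e1 : ε ⊥ = ∏ J ∈ halves H, ε J := by
      rw [hε, fixS_bot, Finset.prod_congr rfl fun J _ => hε J, Finset.prod_pow_eq_pow_sum]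
      apply neg_one_cast
      rw [parity_sub hσ H N h1 h2 h3 h4]
      push_cast
      rfl
    have e2 : (-1 : ℤ) ^ (finrank ℤ M) = ∏ J ∈ halves H, (-1 : ℤ) ^ (rkFix M J) := by
      rw [Finset.prod_pow_eq_pow_sum]
      apply neg_one_cast
      rw [fixA_sub H N h1 h2 h3 h4]
      push_cast
      rfl
    refine ⟨e1, e2, fun h => ?_⟩
    rw [e1, e2]
    exact Finset.prod_congr rfl h
  · intro z h1 h2
    constructor
    · rw [hε, fixS_bot, hε]
      exact neg_one_cast (invol_parity hσ h1 h2)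
    · exact neg_one_cast (fixA_invol h1 h2)

end

end Pool.Agent.X156.SD
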