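import Pool.Agent.X156.SD.IntOrd

/-!
# Orders of `L`-functions and dimensions of Selmer groups in layers of prime power degree
-/

set_option autoImplicit false
set_option linter.unusedSectionVars false
set_option maxHeartbeats 1000000

open IsDedekindDomain NumberField Module

namespace Pool.Agent.X156.SD

open Pool.Agent.X298.ST Pool.Agent.X298.EC Pool.Agent.X156.LD

/-- the power sums `∑ α_{v,i}^k` of the Satake parameters -/
noncomputable def satakePow {K : Type} [Field K] [NumberField K]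
    {S : Set (HeightOneSpectrum (𝓞 K))} {n : ℕ} (α : Places S → Fin n → ℂ) (v : Places S)
    (k : ℕ) : ℂ :=
  ∑ i, α v i ^ k

/-- the Satake parameters of a pure automorphic representation of weight `w`:
`|α_{v,i}| = q_v^{w/2}` -/
def IsSatake {K : Type} [Field K] [NumberField K] {S : Set (HeightOneSpectrum (𝓞 K))} {n : ℕ}
    (α : Places S → Fin n → ℂ) (w : ℤ) : Prop :=
  ∀ v i, ‖α v i‖ = (nrm v : ℝ) ^ ((w : ℝ) / 2)

theorem IsSatake.pure {K : Type} [Field K] [NumberField K] {S : Set (HeightOneSpectrum (𝓞 K))}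
    {n : ℕ} {α : Places S → Fin n → ℂ} {w : ℤ} (h : IsSatake α w) : IsPure (satakePow α) w := by
  refine ⟨n, fun v k => ?_⟩
  unfold satakePow
  refine (norm_sum_le _ _).trans ?_
  have h1 : ∀ i ∈ Finset.univ, ‖α v i ^ k‖ ≤ ((nrm v : ℝ) ^ ((w : ℝ) / 2)) ^ k := by
    intro i _
    rw [norm_pow, h v i]
  refine (Finset.sum_le_sum h1).trans ?_
  rw [Finset.sum_const, Finset.card_univ, Fintype.card_fin, nsmul_eq_mul]

/-- the layers: `N` is normal in `H` and `H / N` is a `q`-group -/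
def IsLayer {G : Type} [Group G] (q : ℕ) (H N : Subgroup G) : Prop :=
  q.Prime ∧ N ≤ H ∧ (N.subgroupOf H).Normal ∧ ∃ k : ℕ, N.relIndex H = q ^ k

theorem layer_consequences {G : Type} [Group G] [Finite G] {E : Type} [Field E] [CharZero E]
    [IsAlgClosed E] {R : Type} [AddCommGroup R] [Module E R] [FiniteDimensional E R]
    (r : G →* (R →ₗ[E] R)) (o : Subgroup G → ℤ) {q : ℕ} {H N : Subgroup G} (h : IsLayer q H N)
    (a : ℕ) (ho : o N ≡ o (N ⊔ der H a) [ZMOD q ^ a]) :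
    (sel r N ≡ sel r (N ⊔ der H a) [MOD q ^ a]) ∧ sel r (N ⊔ der H a) ≤ sel r N ∧
    (o (N ⊔ der H a) = sel r (N ⊔ der H a) → (q : ℤ) ^ a ∣ o N - sel r N) ∧
    (o (N ⊔ der H a) = sel r (N ⊔ der H a) → o (N ⊔ der H a) ≤ o N →
      (o N < o (N ⊔ der H a) + q ^ a → sel r N < sel r (N ⊔ der H a) + q ^ a →
        o N = sel r N)) := by
  obtain ⟨hq, hNH, hN, k, hk⟩ := h
  have hqf : Fact q.Prime := ⟨hq⟩
  have h1 : sel r N ≡ sel r (N ⊔ der H a) [MOD q ^ a] := layer_derived r hNH hN hk a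
  have h2 : sel r (N ⊔ der H a) ≤ sel r N :=
    Submodule.finrank_mono (fixS_anti (ρ := r) le_sup_left)
  have h3 : (sel r N : ℤ) ≡ (sel r (N ⊔ der H a) : ℤ) [ZMOD ((q ^ a : ℕ) : ℤ)] :=
    Int.natCast_modEq_iff.2 h1
  have h4 : ((q ^ a : ℕ) : ℤ) = (q : ℤ) ^ a := by push_cast; rfl
  rw [h4] at h3
  refine ⟨h1, h2, fun h5 => ?_, fun h5 h6 h7 h8 => ?_⟩
  · have h9 : (o N - sel r N : ℤ) ≡ o (N ⊔ der H a) - sel r (N ⊔ der H a) [ZMOD q ^ a] :=
      Int.ModEq.sub ho h3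
    rw [h5, sub_self] at h9
    exact Int.modEq_zero_iff_dvd.1 h9
  · have h9 : ∀ x y m : ℤ, 0 < m → x ≡ y [ZMOD m] → y ≤ x → x < y + m → x = y := by
      intro x y m hm hxy hyx hxm
      have h10 : m ∣ x - y := (Int.modEq_iff_dvd.1 hxy.symm)
      have h11 : x - y = 0 := Int.eq_zero_of_dvd_of_nonneg_of_lt (by omega) (by omega) h10
      omega
    have hm : (0 : ℤ) < (q : ℤ) ^ a := pow_pos (by exact_mod_cast hq.pos) a
    have h10 := h9 (o N) _ _ hm ho h6 h7
    have h11 := h9 (sel r N : ℤ) (sel r (N ⊔ der H a) : ℤ) _ hm h3 (by exact_mod_cast h2)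
      (by exact_mod_cast h8)
    rw [h10, h11, h5]

end Pool.Agent.X156.SD
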