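import Pool.Agent.X156.SD.TStar

/-!
# The sign of a conjugate self-dual motive over extensions
-/

set_option autoImplicit false
set_option linter.unusedSectionVars false
set_option maxHeartbeats 1000000

open Filter Topology Complex
open IsDedekindDomain NumberField

namespace Pool.Agent.X156.SD

open Pool.Agent.X298.ST Pool.Agent.X298.EC Pool.Agent.W189.ML Pool.Agent.X156.LD

/-- `σ` and `θ` are induced by an involution of `F` which preserves `K`: `σ` permutes the places of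
`K` outside of `S`, `θ` is the conjugation on the Galois group -/
structure IsConjugation {K F : Type} [Field K] [NumberField K] [Field F] [NumberField F]
    [Algebra K F] {S : Set (HeightOneSpectrum (𝓞 K))} (P : Places S → Ideal (𝓞 F))
    (σ : Places S ≃ Places S) (θ : (F ≃ₐ[K] F) ≃* (F ≃ₐ[K] F)) : Prop where
  /-- an involution -/
  invol : ∀ g, θ (θ g) = g
  /-- the norms -/
  norm : ∀ v, nrm (σ v) = nrm v
  /-- the Frobenius classes -/
  frob : ∀ f : (F ≃ₐ[K] F) → ℂ, (∀ g h, f (h * g * h⁻¹) = f g) → ∀ v k,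
    value P f (σ v) k = value P (fun g => f (θ g)) v k

variable {K F : Type} [Field K] [NumberField K] [Field F] [NumberField F] [Algebra K F]
  {S : Set (HeightOneSpectrum (𝓞 K))} {P : Places S → Ideal (𝓞 F)} {c : Places S → ℕ → ℂ} {w : ℤ}
  {ρ : ℝ} {σ : Places S ≃ Places S} {θ : (F ≃ₐ[K] F) ≃* (F ≃ₐ[K] F)}

theorem conj_twist (hσ : IsConjugation P σ θ)
    (hc : ∀ v k, c (σ v) k = (starRingEnd ℂ) (c v k)) {f : (F ≃ₐ[K] F) → ℂ}
    (hf : ∀ g h, f (h * g * h⁻¹) = f g) (s : ℂ) :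
    logTwist P c (fun g => (starRingEnd ℂ) (f (θ g))) ((starRingEnd ℂ) s) =
      (starRingEnd ℂ) (logTwist P c f s) := by
  unfold logTwist
  rw [Complex.conj_tsum, ← (σ.prodCongr (Equiv.refl ℕ)).tsum_eq]
  refine tsum_congr fun x => ?_
  have h1 : (nrm x.1 : ℂ) ^ (-(starRingEnd ℂ) s) = (starRingEnd ℂ) ((nrm x.1 : ℂ) ^ (-s)) := by
    have h2 := Complex.conj_cpow (nrm x.1 : ℂ) (-(starRingEnd ℂ) s)
      (by rw [Complex.natCast_arg]; exact Real.pi_pos.ne)
    rw [map_neg, Complex.conj_conj, map_natCast] at h2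
    exact h2
  have h3 : value P (fun g => (starRingEnd ℂ) (f (θ g))) (σ x.1) (x.2 + 1) =
      (starRingEnd ℂ) (value P f x.1 (x.2 + 1)) := by
    rw [hσ.frob _ (fun g h => by rw [map_mul, map_mul, map_inv, hf]), ← value_conj]
    congr 1
    funext g
    rw [hσ.invol]
  change c (σ x.1) (x.2 + 1) * value P (fun g => (starRingEnd ℂ) (f (θ g))) (σ x.1) (x.2 + 1) *
    ((nrm (σ x.1) : ℂ) ^ (-(starRingEnd ℂ) s)) ^ (x.2 + 1) / (x.2 + 1) = _
  rw [map_div₀, map_mul, map_mul, map_pow, hc, h3, hσ.norm, h1, map_add, map_natCast, map_one]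

theorem Continues.tconj (hσ : IsConjugation P σ θ)
    (hc : ∀ v k, c (σ v) k = (starRingEnd ℂ) (c v k)) {f : (F ≃ₐ[K] F) → ℂ}
    (hf : ∀ g h, f (h * g * h⁻¹) = f g)
    {Λ : ℂ → ℂ} (h : Continues P c w ρ f Λ) :
    Continues P c w ρ (fun g => (starRingEnd ℂ) (f (θ g))) (cj Λ) where
  eq s hs := by
    rw [cj_apply, h.eq _ (by rwa [Complex.conj_re]), ← Complex.exp_conj, ← conj_twist hσ hc hf,
      Complex.conj_conj]
  mero s hs := by
    have h1 := cj_mero (h.mero ((starRingEnd ℂ) s) (by rwa [Complex.conj_re]))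
    rwa [Complex.conj_conj] at h1

/-- **Signs over extensions.** -/
theorem exists_odd {x : ℝ} (hx : ρ < x) (hp : IsPure c w) (hσ : IsConjugation P σ θ)
    (hc : ∀ v k, c (σ v) k = (starRingEnd ℂ) (c v k))
    (hΛ : ∀ (n : ℕ) (τ : (F ≃ₐ[K] F) →* Matrix (Fin n) (Fin n) ℂ),
      ∃ Λ, Continues P c w ρ (fun g => (τ g).trace) Λ) :
    ∃ (D : Irr (F ≃ₐ[K] F)) (m : Fin D.r → ℤ),
      (∀ i, ∃ Λ, Continues P c w ρ (fun g => (D.mat i g).trace) Λ ∧
        meromorphicOrderAt Λ (x : ℂ) = (m i : WithTop ℤ)) ∧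
      (∀ H : Subgroup (F ≃ₐ[K] F), (∃ Λ, Continues P c w ρ (perm H) Λ) ∧
        (∀ Λ, Continues P c w ρ (perm H) Λ → meromorphicOrderAt Λ (x : ℂ) =
          ((∑ i, m i * (Module.finrank ℂ (fixS (D.rep i) H) : ℤ) : ℤ) : WithTop ℤ))) ∧
      ∀ H : Subgroup (F ≃ₐ[K] F), (∀ h ∈ H, θ h ∈ H) →
        Odd (∑ i, m i * (Module.finrank ℂ (fixS (D.rep i) H) : ℤ)) →
        ∃ i, (∀ g, D.chr i (θ g)⁻¹ = D.chr i g) ∧ Odd (m i) ∧
          Odd (Module.finrank ℂ (fixS (D.rep i) H)) := by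
  classical
  obtain ⟨D, m, hm, h⟩ := exists_order_int hx hp hΛ
  have hfin := fin_gal (K := K) (L := F)
  refine ⟨D, m, hm, h, fun H hH hodd => ?_⟩
  have hstar : ∀ i, m (D.tstar θ i) = m i := by
    intro i
    obtain ⟨Λ, hL, ho⟩ := hm i
    obtain ⟨Λ', hL', ho'⟩ := hm (D.tstar θ i)
    have hcl : ∀ g h : F ≃ₐ[K] F, (D.mat i (h * g * h⁻¹)).trace = (D.mat i g).trace := by
      intro g h
      rw [map_mul, map_mul, Matrix.trace_mul_comm, ← mul_assoc, ← map_mul, inv_mul_cancel, map_one,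
        one_mul]
    have h2 := hL.tconj hσ hc hcl
    have h1 : (fun g => (starRingEnd ℂ) ((D.mat i (θ g)).trace)) =
        fun g => (D.mat (D.tstar θ i) g).trace := by
      funext g
      have h3 := D.chr_tstar θ i g
      rw [D.chr_inv] at h3
      exact h3.symm
    rw [h1] at h2
    have h3 := gen_unique hx hL' h2
    have h4 := cj_order (hL.mero (x : ℂ) (by rw [Complex.ofReal_re]; exact hx)) ho
    rw [Complex.conj_ofReal] at h4
    rw [ho', h4] at h3
    exact_mod_cast h3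
  by_contra hcon
  push Not at hcon
  have hfix : ∀ i, D.tstar θ i = i →
      ((m i * (Module.finrank ℂ (fixS (D.rep i) H) : ℤ) : ℤ) : ZMod 2) = 0 := by
    intro i hi
    have h1 := hcon i (fun g => by rw [← D.chr_tstar, hi])
    have h2 : Even (m i * (Module.finrank ℂ (fixS (D.rep i) H) : ℤ)) := by
      by_cases h3 : Odd (m i)
      · have h4 := h1 h3
        rw [Nat.not_odd_iff_even] at h4
        exact Even.mul_left (by exact_mod_cast h4) _
      · exact Even.mul_right (Int.not_odd_iff_even.1 h3) _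
    obtain ⟨k, hk⟩ := h2
    rw [hk]
    push_cast
    exact CharTwo.add_self_eq_zero _
  have hsum : ∑ i, ((m i * (Module.finrank ℂ (fixS (D.rep i) H) : ℤ) : ℤ) : ZMod 2) = 0 := by
    refine Finset.sum_involution (fun i _ => D.tstar θ i) ?_ ?_ ?_ ?_
    · intro i _
      rw [hstar, D.dim_tstar θ hσ.invol i H hH]
      exact CharTwo.add_self_eq_zero _
    · intro i _ hi h1
      exact hi (hfix i h1)
    · intro i _
      exact Finset.mem_univ _
    · intro i _
      exact D.tstar_tstar θ hσ.invol i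
  rw [← Int.cast_sum] at hsum
  rw [ZMod.intCast_zmod_eq_zero_iff_dvd] at hsum
  rw [← Int.not_even_iff_odd] at hodd
  exact hodd (even_iff_two_dvd.2 (by exact_mod_cast hsum))

end Pool.Agent.X156.SD
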