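import Pool.Agent.X156.SD.CSign

/-!
# The sign of a conjugate self-dual motive over extensions: the irreducible twist
-/

set_option autoImplicit false
set_option linter.unusedSectionVars false
set_option maxHeartbeats 1000000

open IsDedekindDomain NumberField Module

namespace Pool.Agent.X156.SD

open Pool.Agent.X298.ST Pool.Agent.X298.EC Pool.Agent.X156.LD

/-- the linear representation given by matrices -/
noncomputable def matRep {G : Type} [Group G] {m : ℕ} (τ : G →* Matrix (Fin m) (Fin m) ℂ) :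
    G →* ((Fin m → ℂ) →ₗ[ℂ] (Fin m → ℂ)) :=
  ((Matrix.toLinAlgEquiv' : Matrix (Fin m) (Fin m) ℂ ≃ₐ[ℂ] _) :
    Matrix (Fin m) (Fin m) ℂ →* ((Fin m → ℂ) →ₗ[ℂ] (Fin m → ℂ))).comp τ

/-- irreducible matrix representations -/
def IsIrr {G : Type} [Group G] {m : ℕ} (τ : G →* Matrix (Fin m) (Fin m) ℂ) : Prop :=
  0 < m ∧ ∀ T : Submodule ℂ (Fin m → ℂ), (∀ g, ∀ v ∈ T, (τ g).mulVec v ∈ T) → T = ⊥ ∨ T = ⊤

section

variable {G : Type} [Group G] (D : Irr G)

theorem Irr.isIrr (i : Fin D.r) : IsIrr (D.mat i) := by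
  classical
  refine ⟨D.pos i, fun T hT => ?_⟩
  by_cases h0 : T = ⊥
  · exact Or.inl h0
  right
  obtain ⟨w, hw, hw0⟩ := Submodule.exists_mem_ne_zero_of_ne_bot h0
  obtain ⟨b, hb⟩ : ∃ b, w b ≠ 0 := by
    by_contra hcon
    push Not at hcon
    exact hw0 (funext hcon)
  have hall : ∀ A : Matrix (Fin (D.d i)) (Fin (D.d i)) ℂ, A.mulVec w ∈ T := by
    intro A
    refine D.span_mat i (fun A => A.mulVec w ∈ T) (fun g => hT g w hw) ?_ ?_ A
    · intro A B hA hB
      change (A + B).mulVec w ∈ T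
      rw [Matrix.add_mulVec]
      exact T.add_mem hA hB
    · intro c A hA
      change (c • A).mulVec w ∈ T
      rw [Matrix.smul_mulVec]
      exact T.smul_mem c hA
  rw [eq_top_iff]
  intro v _
  have h1 := hall (Matrix.vecMulVec v (Pi.single b (w b)⁻¹))
  have h2 : (Matrix.vecMulVec v (Pi.single b (w b)⁻¹)).mulVec w = v := by
    rw [Matrix.vecMulVec_mulVec, single_dotProduct, inv_mul_cancel₀ hb]
    simp
  rwa [h2] at h1

theorem Irr.dim_one [Finite G] (hG : IsPGroup 2 G) (i : Fin D.r) (hi : Odd (D.d i)) :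
    D.d i = 1 := by
  classical
  have h2 : Fact (Nat.Prime 2) := ⟨Nat.prime_two⟩
  have hirr : Irred (D.rep i : Representation ℂ G (Fin (D.d i) → ℂ)) := by
    refine ⟨?_, fun T hT => (D.isIrr i).2 T fun g v hv => hT g v hv⟩
    have h3 : Nonempty (Fin (D.d i)) := ⟨⟨0, D.pos i⟩⟩
    infer_instance
  have htriv : ∀ g ∈ commutator G, D.mat i g = 1 := by
    intro g hg
    by_contra hne
    have h4 : ∃ g ∈ derivedSeries G 1,
        (D.rep i : Representation ℂ G (Fin (D.d i) → ℂ)) g ≠ 1 := by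
      refine ⟨g, by rwa [derivedSeries_one], fun h5 => hne ?_⟩
      have h6 : Matrix.toLin' (D.mat i g) = Matrix.toLin' 1 := by
        rw [Matrix.toLin'_one]
        exact h5
      exact Matrix.toLin'.injective h6
    have h5 := tower (K := ℂ) 2 1 hG (D.rep i : Representation ℂ G (Fin (D.d i) → ℂ)) hirr h4
    rw [Module.finrank_fin_fun, pow_one] at h5
    rw [← Nat.not_even_iff_odd] at hi
    exact hi (even_iff_two_dvd.2 h5)
  have hcomm : ∀ g h, D.mat i g * D.mat i h = D.mat i h * D.mat i g := by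
    intro g h
    have h3 : g * h = (g * h * g⁻¹ * h⁻¹) * (h * g) := by group
    have h4 : g * h * g⁻¹ * h⁻¹ ∈ commutator G := by
      rw [commutator_def]
      exact Subgroup.commutator_mem_commutator (Subgroup.mem_top g) (Subgroup.mem_top h)
    rw [← map_mul, h3, map_mul, htriv _ h4, one_mul, map_mul]
  have hcomm2 : ∀ (A : Matrix (Fin (D.d i)) (Fin (D.d i)) ℂ) (h : G),
      A * D.mat i h = D.mat i h * A := by
    intro A h
    refine D.span_mat i (fun A => A * D.mat i h = D.mat i h * A) (fun g => hcomm g h) ?_ ?_ A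
    · intro A B hA hB
      change (A + B) * D.mat i h = D.mat i h * (A + B)
      rw [add_mul, mul_add, hA, hB]
    · intro c A hA
      change (c • A) * D.mat i h = D.mat i h * (c • A)
      rw [smul_mul_assoc, mul_smul_comm, hA]
  have hcomm3 : ∀ A B : Matrix (Fin (D.d i)) (Fin (D.d i)) ℂ, A * B = B * A := by
    intro A B
    refine D.span_mat i (fun B => A * B = B * A) (fun g => hcomm2 A g) ?_ ?_ B
    · intro B C hB hC
      change A * (B + C) = (B + C) * A
      rw [add_mul, mul_add, hB, hC]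
    · intro c B hB
      change A * (c • B) = (c • B) * A
      rw [smul_mul_assoc, mul_smul_comm, hB]
  by_contra hne
  have hpos := D.pos i
  have h3 : 2 ≤ D.d i := by omega
  have h4 := hcomm3 (Matrix.single ⟨0, by omega⟩ ⟨1, by omega⟩ 1)
    (Matrix.single ⟨1, by omega⟩ ⟨0, by omega⟩ 1)
  have h5 := congrFun (congrFun h4 ⟨0, by omega⟩) ⟨0, by omega⟩
  rw [Matrix.single_mul_single_same, Matrix.single_mul_single_same, Matrix.single_apply_same,
    Matrix.single_apply_of_ne] at h5
  · rw [mul_one] at h5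
    exact one_ne_zero h5
  · rintro ⟨h6, -⟩
    have h7 := congrArg Fin.val h6
    simp at h7

end

end Pool.Agent.X156.SD
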