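import Pool.Agent.X156.SD.Wed

/-!
# Duality and permutation characters
-/

set_option autoImplicit false
set_option linter.unusedSectionVars false

namespace Pool.Agent.X156.SD

open Module LinearMap

variable {G : Type} [Group G] (D : Irr G)

/-- the irreducible representations on the standard spaces -/
noncomputable def Irr.rep (i : Fin D.r) : G →* ((Fin (D.d i) → ℂ) →ₗ[ℂ] (Fin (D.d i) → ℂ)) :=
  ((Matrix.toLinAlgEquiv' : Matrix (Fin (D.d i)) (Fin (D.d i)) ℂ ≃ₐ[ℂ] _) :
    Matrix (Fin (D.d i)) (Fin (D.d i)) ℂ →* ((Fin (D.d i) → ℂ) →ₗ[ℂ] (Fin (D.d i) → ℂ))).comp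
    (D.mat i)

theorem Irr.rep_apply (i : Fin D.r) (g : G) (v : Fin (D.d i) → ℂ) :
    D.rep i g v = (D.mat i g).mulVec v := rfl

theorem Irr.trace_rep (i : Fin D.r) (g : G) :
    (LinearMap.trace ℂ _) (D.rep i g) = D.chr i g := by
  change (LinearMap.trace ℂ _) (Matrix.toLin' (D.mat i g)) = _
  rw [Matrix.trace_toLin'_eq]
  rfl

/-- the permutation character -/
noncomputable def permCh (H : Subgroup G) (g : G) : ℂ :=
  (Nat.card {x : G ⧸ H // g • x = x} : ℂ)

/-- the elements whose coset has a property -/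
theorem card_fibre [Finite G] (H : Subgroup G) (p : G ⧸ H → Prop) :
    Nat.card {x : G // p (x : G ⧸ H)} = Nat.card {q : G ⧸ H // p q} * Nat.card H := by
  rw [← Nat.card_prod]
  refine (Nat.card_congr ?_).symm
  exact
    { toFun := fun y => ⟨Quotient.out y.1.1 * (y.2 : G), by
        rw [QuotientGroup.mk_mul_of_mem _ y.2.2]
        have : ((Quotient.out y.1.1 : G) : G ⧸ H) = y.1.1 := Quotient.out_eq' _
        rw [this]
        exact y.1.2⟩
      invFun := fun x => (⟨(x.1 : G ⧸ H), x.2⟩, ⟨(Quotient.out (x.1 : G ⧸ H))⁻¹ * x.1, by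
        rw [← QuotientGroup.eq]
        exact Quotient.out_eq' _⟩)
      left_inv := by
        rintro ⟨⟨q, hq⟩, h⟩
        have h1 : ((Quotient.out q * (h : G) : G) : G ⧸ H) = q := by
          rw [QuotientGroup.mk_mul_of_mem _ h.2]
          exact Quotient.out_eq' _
        apply Prod.ext
        · exact Subtype.ext h1
        · apply Subtype.ext
          change (Quotient.out ((Quotient.out q * (h : G) : G) : G ⧸ H))⁻¹ *
            (Quotient.out q * (h : G)) = h
          rw [h1, inv_mul_cancel_left]
      right_inv := by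
        rintro ⟨x, hx⟩
        apply Subtype.ext
        change Quotient.out (x : G ⧸ H) * ((Quotient.out (x : G ⧸ H))⁻¹ * x) = x
        rw [mul_inv_cancel_left] }

/-- **Permutation characters in terms of the irreducible ones.** -/
theorem Irr.perm_eq [Finite G] (H : Subgroup G) (g : G) :
    ∑ i, (finrank ℂ (fixS (D.rep i) H) : ℂ) * D.chr i g = permCh H g := by
  classical
  have : Fintype G := Fintype.ofFinite G
  have : Fintype H := Fintype.ofFinite H
  have hc : (Nat.card H : ℂ) ≠ 0 := by exact_mod_cast Nat.card_pos.ne'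
  apply mul_left_cancel₀ hc
  rw [Finset.mul_sum]
  have h1 : ∀ i, (Nat.card H : ℂ) * ((finrank ℂ (fixS (D.rep i) H) : ℂ) * D.chr i g) =
      ∑ h : H, D.chr i g * D.chr i h := by
    intro i
    rw [← mul_assoc, card_mul_fix, Finset.sum_mul]
    refine Finset.sum_congr rfl fun h _ => ?_
    rw [D.trace_rep, mul_comm]
  rw [Finset.sum_congr rfl fun i _ => h1 i, Finset.sum_comm,
    Finset.sum_congr rfl fun (h : H) _ => D.sum_chr g h]
  have h2 : (∑ h : H, (Nat.card {x : G // g * x * h = x} : ℂ)) =
      (Nat.card {x : G // g • (x : G ⧸ H) = (x : G ⧸ H)} : ℂ) := by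
    rw [← Nat.cast_sum]
    congr 1
    rw [← Nat.card_sigma]
    refine Nat.card_congr ?_
    exact
      { toFun := fun y => ⟨y.2.1, by
          have h3 : ((g * y.2.1 : G) : G ⧸ H) = ((g * y.2.1 * (y.1 : G) : G) : G ⧸ H) :=
            (QuotientGroup.mk_mul_of_mem _ y.1.2).symm
          rw [y.2.2] at h3
          exact h3⟩
        invFun := fun x => ⟨⟨(g * x.1)⁻¹ * x.1, by
          rw [← QuotientGroup.eq]
          exact x.2⟩, ⟨x.1, mul_inv_cancel_left _ _⟩⟩
        left_inv := by
          rintro ⟨⟨h, hh⟩, ⟨x, hx⟩⟩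
          have h3 : (g * x)⁻¹ * x = h := by
            rw [inv_mul_eq_iff_eq_mul]
            exact hx.symm
          subst h3
          rfl
        right_inv := by
          rintro ⟨x, hx⟩
          rfl }
  rw [h2, card_fibre H (fun q => g • q = q), Nat.cast_mul, mul_comm]
  rfl

/-- the characters are distinct -/
theorem Irr.chr_inj {i j : Fin D.r} (h : ∀ g, D.chr i g = D.chr j g) : i = j := by
  classical
  by_contra hij
  have h1 : ∀ x : MonoidAlgebra ℂ G, (D.e x i).trace = (D.e x j).trace := by
    intro x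
    induction x using MonoidAlgebra.induction_on with
    | of g => exact h g
    | add x y hx hy =>
      rw [map_add, Pi.add_apply, Pi.add_apply, Matrix.trace_add, Matrix.trace_add, hx, hy]
    | smul c x hx =>
      rw [map_smul, Pi.smul_apply, Pi.smul_apply, Matrix.trace_smul, Matrix.trace_smul, hx]
  have h2 := h1 (D.e.symm (Pi.single i 1))
  rw [AlgEquiv.apply_symm_apply, Pi.single_eq_same, Pi.single_eq_of_ne (Ne.symm hij),
    Matrix.trace_one, Matrix.trace_zero, Fintype.card_fin] at h2
  have h3 := D.pos i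
  have h4 : D.d i = 0 := by exact_mod_cast h2
  omega

end Pool.Agent.X156.SD
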