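import Pool.Agent.X156.SD.Star

/-!
# Self-dual representations with prescribed multiplicities modulo two
-/

set_option autoImplicit false
set_option linter.unusedSectionVars false

namespace Pool.Agent.X156.SD

open Module LinearMap

section pi

variable {G : Type} [Group G] {F : Type} [Field F] [CharZero F] {ι : Type} [Fintype ι]
  {W : ι → Type} [∀ i, AddCommGroup (W i)] [∀ i, Module F (W i)]

/-- the product of a family of representations -/
def piRep (ρ : ∀ i, G →* (W i →ₗ[F] W i)) : G →* ((∀ i, W i) →ₗ[F] (∀ i, W i)) where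
  toFun g := LinearMap.pi fun i => (ρ i g) ∘ₗ LinearMap.proj i
  map_one' := by
    apply LinearMap.ext
    intro v
    funext i
    change ρ i 1 (v i) = v i
    rw [map_one]
    rfl
  map_mul' a b := by
    apply LinearMap.ext
    intro v
    funext i
    change ρ i (a * b) (v i) = ρ i a (ρ i b (v i))
    rw [map_mul]
    rfl

theorem piRep_apply (ρ : ∀ i, G →* (W i →ₗ[F] W i)) (g : G) (v : ∀ i, W i) (i : ι) :
    piRep ρ g v i = ρ i g (v i) := rfl

/-- fixed vectors of a product -/
def fixPi (ρ : ∀ i, G →* (W i →ₗ[F] W i)) (H : Subgroup G) :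
    fixS (piRep ρ) H ≃ₗ[F] (∀ i, fixS (ρ i) H) where
  toFun v i := ⟨v.1 i, fun h hh => congrFun (v.2 h hh) i⟩
  invFun w := ⟨fun i => (w i).1, fun h hh => funext fun i => (w i).2 h hh⟩
  map_add' _ _ := rfl
  map_smul' _ _ := rfl
  left_inv _ := rfl
  right_inv _ := rfl

theorem finrank_fixPi [∀ i, FiniteDimensional F (W i)] (ρ : ∀ i, G →* (W i →ₗ[F] W i))
    (H : Subgroup G) :
    finrank F (fixS (piRep ρ) H) = ∑ i, finrank F (fixS (ρ i) H) := by
  rw [(fixPi ρ H).finrank_eq, Module.finrank_pi_fintype]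

theorem selfDual_pi (ρ : ∀ i, G →* (W i →ₗ[F] W i)) (h : ∀ i, SelfDual (ρ i)) :
    SelfDual (piRep ρ) := by
  classical
  choose B hB1 hB2 using h
  have hval : ∀ v w : (∀ i, W i), (∑ i, ((B i) ∘ₗ (LinearMap.proj i : (∀ i, W i) →ₗ[F] W i)).compl₂
      (LinearMap.proj i : (∀ i, W i) →ₗ[F] W i)) v w = ∑ i, B i (v i) (w i) := by
    intro v w
    rw [LinearMap.sum_apply, LinearMap.sum_apply]
    rfl
  refine ⟨∑ i, ((B i) ∘ₗ (LinearMap.proj i : (∀ i, W i) →ₗ[F] W i)).compl₂
    (LinearMap.proj i : (∀ i, W i) →ₗ[F] W i), ?_, ?_⟩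
  · intro g v w
    rw [hval, hval]
    exact Finset.sum_congr rfl fun i _ => hB1 i g (v i) (w i)
  · intro v hv
    funext i
    apply hB2 i
    intro w
    have h1 := hv (Pi.single i w)
    rw [hval, Finset.sum_eq_single i] at h1
    · rw [Pi.single_eq_same] at h1
      exact h1
    · intro j _ hj
      rw [Pi.single_eq_of_ne hj, map_zero]
    · intro h
      exact absurd (Finset.mem_univ _) h

end pi

section gov

variable {G : Type} [Group G] [Finite G] (D : Irr G)

/-- **Self-dual representations with prescribed multiplicities.** -/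
theorem exists_gov (m : Fin D.r → ℤ) (hm : ∀ i, m (D.star i) = m i) :
    ∃ (V : Type) (_ : AddCommGroup V) (_ : Module ℂ V) (_ : FiniteDimensional ℂ V)
      (ρ : G →* (V →ₗ[ℂ] V)), SelfDual ρ ∧ ∀ H : Subgroup G,
        ((∑ i, m i * (finrank ℂ (fixS (D.rep i) H) : ℤ) : ℤ) : ZMod 2) =
          (finrank ℂ (fixS ρ H) : ZMod 2) := by
  classical
  set I := {i : Fin D.r // D.star i = i ∧ Odd (m i)} with hI
  refine ⟨∀ i : I, (Fin (D.d i.1) → ℂ), inferInstance, inferInstance, inferInstance,
    piRep fun i : I => D.rep i.1, selfDual_pi _ fun i => D.selfDual i.2.1, ?_⟩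
  intro H
  rw [finrank_fixPi]
  push_cast
  have h1 : ∀ i : Fin D.r, ((m i : ZMod 2)) * (finrank ℂ (fixS (D.rep i) H) : ZMod 2) =
      (if D.star i = i ∧ Odd (m i) then (finrank ℂ (fixS (D.rep i) H) : ZMod 2) else 0) +
      (if D.star i = i then 0 else (m i : ZMod 2) * (finrank ℂ (fixS (D.rep i) H) : ZMod 2)) := by
    intro i
    by_cases hi : D.star i = i
    · by_cases ho : Odd (m i)
      · rw [if_pos ⟨hi, ho⟩, if_pos hi, add_zero]
        have : (m i : ZMod 2) = 1 := by
          obtain ⟨t, ht⟩ := ho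
          rw [ht]
          push_cast
          have h2 : (2 : ZMod 2) = 0 := by decide
          rw [h2, zero_mul, zero_add]
        rw [this, one_mul]
      · rw [if_neg (fun h => ho h.2), if_pos hi, add_zero]
        have : (m i : ZMod 2) = 0 := by
          rw [Int.not_odd_iff_even] at ho
          obtain ⟨t, ht⟩ := ho
          rw [ht, Int.cast_add]
          exact CharTwo.add_self_eq_zero _
        rw [this, zero_mul]
    · rw [if_neg (fun h => hi h.1), if_neg hi, zero_add]
  rw [Finset.sum_congr rfl fun i _ => h1 i, Finset.sum_add_distrib]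
  have h2 : (∑ i, if D.star i = i then (0 : ZMod 2) else
      (m i : ZMod 2) * (finrank ℂ (fixS (D.rep i) H) : ZMod 2)) = 0 := by
    refine Finset.sum_involution (fun i _ => D.star i) ?_ ?_ ?_ ?_
    · intro i _
      rw [D.star_star]
      by_cases hi : D.star i = i
      · rw [if_pos hi, if_pos hi.symm, add_zero]
      · rw [if_neg hi, if_neg (fun h => hi h.symm), hm, D.dim_star]
        exact CharTwo.add_self_eq_zero _
    · intro i _ h3 h4
      rw [if_pos h4] at h3
      exact h3 rfl
    · intro i _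
      exact Finset.mem_univ _
    · intro i _
      exact D.star_star i
  rw [h2, add_zero, ← Finset.sum_filter]
  rw [Finset.sum_subtype (Finset.univ.filter fun i => D.star i = i ∧ Odd (m i))
    (p := fun i => D.star i = i ∧ Odd (m i)) (fun i => by simp)]

end gov

end Pool.Agent.X156.SD
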