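import Pool.Agent.X156.LD.Layer

/-!
# The orders of `L`-functions over the intermediate fields as integers
-/

set_option autoImplicit false
set_option linter.unusedSectionVars false
set_option maxHeartbeats 1000000

open Filter Topology Complex
open IsDedekindDomain NumberField

namespace Pool.Agent.X156.SD

open Pool.Agent.X298.ST Pool.Agent.X298.EC Pool.Agent.W189.ML Pool.Agent.X156.LD

variable {K F : Type} [Field K] [NumberField K] [Field F] [NumberField F] [Algebra K F]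
  {S : Set (HeightOneSpectrum (𝓞 K))} {P : Places S → Ideal (𝓞 F)} {c : Places S → ℕ → ℂ} {w : ℤ}
  {ρ : ℝ}

/-- **The orders are an integral combination of dimensions of invariants.** -/
theorem exists_order_int {x : ℝ} (hx : ρ < x) (hc : IsPure c w)
    (hΛ : ∀ (n : ℕ) (τ : (F ≃ₐ[K] F) →* Matrix (Fin n) (Fin n) ℂ),
      ∃ Λ, Continues P c w ρ (fun g => (τ g).trace) Λ) :
    ∃ (D : Irr (F ≃ₐ[K] F)) (m : Fin D.r → ℤ),
      (∀ i, ∃ Λ, Continues P c w ρ (fun g => (D.mat i g).trace) Λ ∧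
        meromorphicOrderAt Λ (x : ℂ) = (m i : WithTop ℤ)) ∧
      ∀ H : Subgroup (F ≃ₐ[K] F), (∃ Λ, Continues P c w ρ (perm H) Λ) ∧
        (∀ Λ, Continues P c w ρ (perm H) Λ → meromorphicOrderAt Λ (x : ℂ) =
          ((∑ i, m i * (Module.finrank ℂ (fixS (D.rep i) H) : ℤ) : ℤ) : WithTop ℤ)) := by
  classical
  have hfin := fin_gal (K := K) (L := F)
  obtain ⟨D⟩ := exists_irr (F ≃ₐ[K] F)
  choose Λ hL using fun i : Fin D.r => hΛ (D.d i) (D.mat i)
  have hL' : ∀ i, Continues P c w ρ (D.chr i) (Λ i) := hL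
  have hm0 : ∀ i, ∃ m : ℤ, meromorphicOrderAt (Λ i) (x : ℂ) = (m : WithTop ℤ) := by
    intro i
    obtain ⟨m, hm⟩ := WithTop.ne_top_iff_exists.1 (gen_ne_top hx (hL' i))
    exact ⟨m, hm.symm⟩
  choose m hm using hm0
  refine ⟨D, m, fun i => ⟨Λ i, hL i, hm i⟩, fun H => ?_⟩
  have hp : (∑ i, ((Module.finrank ℂ (fixS (D.rep i) H) : ℕ) : ℂ) • D.chr i) = perm H := by
    funext g
    rw [Finset.sum_apply]
    exact D.perm_eq H g
  have h5 := gen_prod hc hL' fun i => Module.finrank ℂ (fixS (D.rep i) H)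
  rw [hp] at h5
  refine ⟨⟨_, h5⟩, ?_⟩
  intro Λ' h6
  rw [gen_unique hx h6 h5]
  exact gen_order hx hL' _ m hm

/-- **Orders over the layers of prime power degree.** -/
theorem order_layers {x : ℝ} (hx : ρ < x) (hc : IsPure c w)
    (hΛ : ∀ (n : ℕ) (τ : (F ≃ₐ[K] F) →* Matrix (Fin n) (Fin n) ℂ),
      ∃ Λ, Continues P c w ρ (fun g => (τ g).trace) Λ) :
    ∃ o : Subgroup (F ≃ₐ[K] F) → ℤ,
      (∀ H : Subgroup (F ≃ₐ[K] F), (∃ Λ, Continues P c w ρ (perm H) Λ) ∧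
        ∀ Λ, Continues P c w ρ (perm H) Λ → meromorphicOrderAt Λ (x : ℂ) = (o H : WithTop ℤ)) ∧
      (∀ (q : ℕ) (H N : Subgroup (F ≃ₐ[K] F)), q.Prime → N ≤ H → (N.subgroupOf H).Normal →
        (∃ k : ℕ, N.relIndex H = q ^ k) → ∀ a : ℕ, o N ≡ o (N ⊔ der H a) [ZMOD q ^ a]) ∧
      ((∀ (n : ℕ) (τ : (F ≃ₐ[K] F) →* Matrix (Fin n) (Fin n) ℂ) (Λ : ℂ → ℂ),
        Continues P c w ρ (fun g => (τ g).trace) Λ → 0 ≤ meromorphicOrderAt Λ (x : ℂ)) →
        ∀ H N : Subgroup (F ≃ₐ[K] F), N ≤ H → o H ≤ o N) := by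
  obtain ⟨D, m, hm, h⟩ := exists_order_int hx hc hΛ
  have hfin := fin_gal (K := K) (L := F)
  refine ⟨fun H => ∑ i, m i * (Module.finrank ℂ (fixS (D.rep i) H) : ℤ), h, ?_, ?_⟩
  · rintro q H N hq hNH hN ⟨k, hk⟩ a
    have hqf : Fact q.Prime := ⟨hq⟩
    refine Int.ModEq.sum fun i _ => ?_
    refine Int.ModEq.mul_left _ ?_
    have h1 := layer_derived (D.rep i) hNH hN hk a
    exact_mod_cast (Int.natCast_modEq_iff.2 h1)
  · intro hpos H N hNH
    refine Finset.sum_le_sum fun i _ => ?_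
    refine mul_le_mul_of_nonneg_left ?_ ?_
    · have h1 := Submodule.finrank_mono (fixS_anti (ρ := D.rep i) hNH)
      exact_mod_cast h1
    · obtain ⟨Λ, h1, h2⟩ := hm i
      have h3 := hpos _ _ Λ h1
      rw [h2] at h3
      exact_mod_cast h3

end Pool.Agent.X156.SD
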