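import Pool.Agent.X156.SD.Two
import Pool.Agent.X156.PR.Fin

/-!
# The parity of the dimension, relative to a subgroup; root numbers
-/

set_option autoImplicit false
set_option linter.unusedSectionVars false

namespace Pool.Agent.X156.SD

open Module LinearMap

section sub

variable {G : Type} [Group G] [Finite G] {F : Type} [Field F] [CharZero F] {V : Type}
  [AddCommGroup V] [Module F V] [FiniteDimensional F V]

/-- the subgroups of index two of the subgroup `H` -/
noncomputable def halves (H : Subgroup G) : Finset (Subgroup G) :=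
  (Set.toFinite {K : Subgroup G | K ≤ H ∧ K.relIndex H = 2}).toFinset

theorem mem_halves {H K : Subgroup G} : K ∈ halves H ↔ K ≤ H ∧ K.relIndex H = 2 := by
  unfold halves
  rw [Set.Finite.mem_toFinset, Set.mem_ofPred_eq]

theorem map_sub {H : Subgroup G} (K : Subgroup H) : (K.map H.subtype).subgroupOf H = K :=
  Subgroup.comap_map_eq_self_of_injective H.subtype_injective K

/-- **The parity of the dimension, relative to a subgroup.** -/
theorem parity_sub {ρ : G →* (V →ₗ[F] V)} (hρ : SelfDual ρ) (H N : Subgroup G) (hNH : N ≤ H)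
    (hn : (N.subgroupOf H).Normal) (hN : Odd (Nat.card N)) {n : ℕ}
    (hi : N.relIndex H = 2 ^ (n + 1)) :
    (finrank F V : ZMod 2) = ∑ K ∈ halves H, (finrank F (fixS ρ K) : ZMod 2) := by
  have h1 : SelfDual (ρ.comp H.subtype) := by
    obtain ⟨B, h1, h2⟩ := hρ
    exact ⟨B, fun g v w => h1 g v w, h2⟩
  have hc : Nat.card (N.subgroupOf H) = Nat.card N :=
    Nat.card_congr (Subgroup.subgroupOfEquivOfLe hNH).toEquiv
  have h2 := parity h1 (N.subgroupOf H) (by rw [hc]; exact hN) hi
  rw [h2]
  refine Finset.sum_bij' (fun K _ => K.map H.subtype) (fun K _ => K.subgroupOf H) ?_ ?_ ?_ ?_ ?_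
  · intro K hK
    rw [Set.Finite.mem_toFinset, Set.mem_ofPred_eq] at hK
    rw [mem_halves]
    refine ⟨Subgroup.map_subtype_le K, ?_⟩
    rw [Subgroup.relIndex, map_sub, hK]
  · intro K hK
    rw [mem_halves] at hK
    rw [Set.Finite.mem_toFinset, Set.mem_ofPred_eq]
    exact hK.2
  · intro K _
    exact map_sub K
  · intro K hK
    rw [mem_halves] at hK
    exact Subgroup.map_subgroupOf_eq_of_le hK.1
  · intro K _
    have h3 : fixS (ρ.comp H.subtype) K = fixS ρ (K.map H.subtype) := by
      ext v
      constructor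
      · rintro hv _ ⟨h, hh, rfl⟩
        exact hv h hh
      · intro hv h hh
        exact hv (h : G) ⟨h, hh, rfl⟩
    rw [h3]

/-- involutions which are products of squares -/
theorem invol_parity {ρ : G →* (V →ₗ[F] V)} (hρ : SelfDual ρ) {z : G} (hz : z * z = 1)
    (hsq : z ∈ Subgroup.closure (Set.range fun g : G => g ^ 2)) :
    (finrank F V : ZMod 2) = (finrank F (fixS ρ (Subgroup.zpowers z)) : ZMod 2) := by
  have hd : LinearMap.det (ρ z) = 1 := by
    set D : G →* F := (LinearMap.det : (V →ₗ[F] V) →* F).comp ρ with hDd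
    have h : Subgroup.closure (Set.range fun g : G => g ^ 2) ≤ D.ker := by
      rw [Subgroup.closure_le]
      rintro _ ⟨g, rfl⟩
      exact det_sq hρ g
    exact h hsq
  have h2 : ∀ v, ρ z (ρ z v) = v := by
    intro v
    have h3 : ρ (z * z) = 1 := by rw [hz, map_one]
    rw [map_mul] at h3
    exact congrArg (fun f : V →ₗ[F] V => f v) h3
  rw [invol_step (ρ z) h2 hd]
  have h4 : fx (ρ z) = fixS ρ (Subgroup.zpowers z) := by
    ext v
    rw [mem_fx]
    constructor
    · intro hv h hh
      obtain ⟨n, rfl⟩ := Subgroup.mem_zpowers_iff.1 hh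
      rcases Int.even_or_odd n with ⟨m, hm⟩ | ⟨m, hm⟩
      · rw [hm, zpow_add, ← (Commute.refl z).mul_zpow, hz, one_zpow, map_one]
        rfl
      · rw [hm, two_mul, zpow_add, zpow_add, ← (Commute.refl z).mul_zpow, hz, one_zpow, one_mul,
          zpow_one]
        exact hv
    · intro hv
      exact hv z (Subgroup.mem_zpowers z)
  rw [h4]

/-- the permutation representation is self-dual -/
theorem perm_selfDual (X : Type) [Finite X] [MulAction G X] : SelfDual (PR.perm G X) := by
  classical
  have : Fintype X := Fintype.ofFinite X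
  refine ⟨dotProductBilin ℚ ℚ, ?_, ?_⟩
  · intro g v w
    change ∑ x, v (g⁻¹ • x) * w (g⁻¹ • x) = ∑ x, v x * w x
    exact Fintype.sum_equiv (MulAction.toPerm g⁻¹) _ _ fun x => rfl
  · intro v hv
    funext x
    have h := hv (Pi.single x 1)
    change v ⬝ᵥ Pi.single x 1 = 0 at h
    rw [dotProduct_single, mul_one] at h
    exact h

theorem fixS_eq {U : Type} [AddCommGroup U] [Module ℚ U] (ρ : G →* (U →ₗ[ℚ] U))
    (K : Subgroup G) : fixS ρ K = PR.fixS ρ K := rfl

theorem perm_sub (X : Type) [Finite X] [MulAction G X] (H N : Subgroup G) (hNH : N ≤ H)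
    (hn : (N.subgroupOf H).Normal) (hN : Odd (Nat.card N)) {n : ℕ}
    (hi : N.relIndex H = 2 ^ (n + 1)) :
    (Nat.card X : ZMod 2) =
      ∑ K ∈ halves H, (Nat.card (MulAction.orbitRel.Quotient K X) : ZMod 2) := by
  have : Fintype X := Fintype.ofFinite X
  have h := parity_sub (perm_selfDual (G := G) X) H N hNH hn hN hi
  rw [Module.finrank_pi, ← Nat.card_eq_fintype_card] at h
  rw [h]
  exact Finset.sum_congr rfl fun K _ => by rw [fixS_eq, PR.finrank_fix_perm]

theorem perm_invol (X : Type) [Finite X] [MulAction G X] {z : G} (hz : z * z = 1)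
    (hsq : z ∈ Subgroup.closure (Set.range fun g : G => g ^ 2)) :
    (Nat.card X : ZMod 2) =
      (Nat.card (MulAction.orbitRel.Quotient (Subgroup.zpowers z) X) : ZMod 2) := by
  have : Fintype X := Fintype.ofFinite X
  have h := invol_parity (perm_selfDual (G := G) X) hz hsq
  rw [Module.finrank_pi, ← Nat.card_eq_fintype_card] at h
  rw [h, fixS_eq, PR.finrank_fix_perm]

end sub

section root

open WeierstrassCurve NumberField PR

variable {k L : Type} [Field k] [NumberField k] [Field L] [NumberField L] [Algebra k L]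
  [IsGalois k L]

/-- the exponent of the root number -/
noncomputable def rexp {F : Type} [Field F] [NumberField F] (W : WeierstrassCurve F) : ℕ :=
  splits W + Nat.card (InfinitePlace F)

theorem root_sub (W : WeierstrassCurve k) (hW : W.Δ ≠ 0) (hs : Semistable W)
    (H N : Subgroup (L ≃ₐ[k] L)) (hNH : N ≤ H)
    (hn : (N.subgroupOf H).Normal) (hN : Odd (Nat.card N)) {n : ℕ}
    (hi : N.relIndex H = 2 ^ (n + 1)) :
    (rexp (W.baseChange L) : ZMod 2) =
      ∑ K ∈ halves H, (rexp (W.baseChange (IntermediateField.fixedField K)) : ZMod 2) := by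
  have hfd : FiniteDimensional k L := Module.Finite.of_restrictScalars_finite ℚ k L
  obtain ⟨Mod, hS⟩ := exists_system hs
  have hf := finite_XS (F := L) hS hW
  have hf' := finite_YS (Mod := Mod) (B := 𝓞 L)
  have h2 := perm_sub (InfinitePlace L) H N hNH hn hN hi
  have h3 := perm_sub (XS Mod (𝓞 L)) H N hNH hn hN hi
  have h4 := perm_sub (YS Mod (𝓞 L)) H N hNH hn hN hi
  have h5 : (splits (W.baseChange L) : ZMod 2) =
      ∑ K ∈ halves H,
        (splits (W.baseChange (IntermediateField.fixedField K)) : ZMod 2) := by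
    have h6 : (Nat.card (YS Mod (𝓞 L)) : ZMod 2) = 0 := by
      rw [card_YS, Nat.cast_mul]
      have : ((2 : ℕ) : ZMod 2) = 0 := by decide
      rw [this, zero_mul]
    rw [splits_eq hS, ← zero_add (Nat.card (XS Mod (𝓞 L)) : ZMod 2), ← h6, h3, h4,
      ← Finset.sum_add_distrib]
    refine Finset.sum_congr rfl fun K _ => ?_
    rw [splits_eq (F := IntermediateField.fixedField K) hS,
      card_split (A := 𝓞 (IntermediateField.fixedField K)) K hmax hbot hover]
    push_cast
    have h7 : ∀ a b : ZMod 2, a + b + a = b := by decide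
    exact h7 _ _
  unfold rexp
  push_cast
  rw [h5, h2, ← Finset.sum_add_distrib]
  refine Finset.sum_congr rfl fun K _ => ?_
  rw [card_inf]

theorem root_invol (W : WeierstrassCurve k) (hW : W.Δ ≠ 0) (hs : Semistable W)
    {z : L ≃ₐ[k] L} (hz : z * z = 1)
    (hsq : z ∈ Subgroup.closure (Set.range fun g : L ≃ₐ[k] L => g ^ 2)) :
    (rexp (W.baseChange L) : ZMod 2) =
      (rexp (W.baseChange (IntermediateField.fixedField (Subgroup.zpowers z))) : ZMod 2) := by
  have hfd : FiniteDimensional k L := Module.Finite.of_restrictScalars_finite ℚ k L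
  obtain ⟨Mod, hS⟩ := exists_system hs
  have hf := finite_XS (F := L) hS hW
  have hf' := finite_YS (Mod := Mod) (B := 𝓞 L)
  have h2 := perm_invol (InfinitePlace L) hz hsq
  have h3 := perm_invol (XS Mod (𝓞 L)) hz hsq
  have h4 := perm_invol (YS Mod (𝓞 L)) hz hsq
  have h6 : (Nat.card (YS Mod (𝓞 L)) : ZMod 2) = 0 := by
    rw [card_YS, Nat.cast_mul]
    have : ((2 : ℕ) : ZMod 2) = 0 := by decide
    rw [this, zero_mul]
  unfold rexp
  push_cast
  rw [h2, card_inf, splits_eq hS, ← zero_add (Nat.card (XS Mod (𝓞 L)) : ZMod 2), ← h6, h3, h4,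
    splits_eq (F := IntermediateField.fixedField (Subgroup.zpowers z)) hS,
    card_split (A := 𝓞 (IntermediateField.fixedField (Subgroup.zpowers z)))
      (Subgroup.zpowers z) hmax hbot hover]
  push_cast
  have h7 : ∀ a b : ZMod 2, a + b + a = b := by decide
  rw [h7]

end root

end Pool.Agent.X156.SD
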