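import Pool.Agent.X156.SD.Rep

/-!
# Normal subgroups of odd order
-/

set_option autoImplicit false
set_option linter.unusedSectionVars false

namespace Pool.Agent.X156.SD

open Module LinearMap

variable {G : Type} [Group G] [Finite G] {F : Type} [Field F] [CharZero F] {V : Type}
  [AddCommGroup V] [Module F V]

/-- the vectors fixed by a subgroup -/
def fixS (ρ : G →* (V →ₗ[F] V)) (H : Subgroup G) : Submodule F V where
  carrier := {v | ∀ h ∈ H, ρ h v = v}
  add_mem' := fun {a b} ha hb h hh => by rw [map_add, ha h hh, hb h hh]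
  zero_mem' := fun h _ => map_zero _
  smul_mem' := fun c v hv h hh => by rw [map_smul, hv h hh]

theorem mem_fixS {ρ : G →* (V →ₗ[F] V)} {H : Subgroup G} {v : V} :
    v ∈ fixS ρ H ↔ ∀ h ∈ H, ρ h v = v := Iff.rfl

theorem fixS_anti {ρ : G →* (V →ₗ[F] V)} {H H' : Subgroup G} (h : H ≤ H') :
    fixS ρ H' ≤ fixS ρ H := fun _ hv g hg => hv g (h hg)

variable [FiniteDimensional F V]

/-- the number of invariants as an average of traces -/
theorem card_mul_fix (ρ : G →* (V →ₗ[F] V)) (N : Subgroup G) [Fintype N] :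
    (Nat.card N : F) * finrank F (fixS ρ N) = ∑ n : N, (LinearMap.trace F V) (ρ n) := by
  classical
  have hc : (Nat.card N : F) ≠ 0 := by
    exact_mod_cast Nat.card_pos.ne'
  have hp : LinearMap.IsProj (fixS ρ N) ((Nat.card N : F)⁻¹ • ∑ n : N, ρ n) := by
    constructor
    · intro v h hh
      rw [LinearMap.smul_apply, map_smul, LinearMap.sum_apply, map_sum]
      congr 1
      have : ∀ n : N, ρ h (ρ n v) = ρ ((⟨h, hh⟩ : N) * n : N) v := by
        intro n
        rw [Subgroup.coe_mul, map_mul]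
        rfl
      rw [Finset.sum_congr rfl fun n _ => this n]
      exact Fintype.sum_equiv (Equiv.mulLeft (⟨h, hh⟩ : N)) _ _ fun n => rfl
    · intro v hv
      rw [LinearMap.smul_apply, LinearMap.sum_apply,
        Finset.sum_congr rfl fun (n : N) _ => hv n n.2, Finset.sum_const, Finset.card_univ,
        ← Nat.card_eq_fintype_card, ← Nat.cast_smul_eq_nsmul F, smul_smul, inv_mul_cancel₀ hc,
        one_smul]
  have h := hp.trace
  rw [map_smul, map_sum, smul_eq_mul] at h
  rw [← h, ← mul_assoc, mul_inv_cancel₀ hc, one_mul]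

/-- a rational algebraic integer -/
theorem int_of_integral {a : ℤ} {s : F} (hs : IsIntegral ℤ s) (h : (a : F) = 2 * s) :
    (2 : ℤ) ∣ a := by
  have h2 : algebraMap ℚ F ((a : ℚ) / 2) = s := by
    rw [map_div₀, map_intCast, map_ofNat, h]
    have : (2 : F) ≠ 0 := two_ne_zero
    field_simp
  rw [← h2] at hs
  have h3 : IsIntegral ℤ ((a : ℚ) / 2) :=
    (isIntegral_algebraMap_iff (algebraMap ℚ F).injective).1 hs
  obtain ⟨z, hz⟩ := IsIntegrallyClosed.isIntegral_iff.1 h3
  refine ⟨z, ?_⟩
  have h4 : (z : ℚ) = (a : ℚ) / 2 := hz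
  have h5 : (a : ℚ) = 2 * z := by rw [h4]; ring
  exact_mod_cast h5

/-- **Groups of odd order.** -/
theorem odd_step {ρ : G →* (V →ₗ[F] V)} (hρ : SelfDual ρ) (N : Subgroup G)
    (hN : Odd (Nat.card N)) :
    (finrank F V : ZMod 2) = (finrank F (fixS ρ N) : ZMod 2) := by
  classical
  have : Fintype N := Fintype.ofFinite N
  have hint : ∀ n : N, IsIntegral ℤ ((LinearMap.trace F V) (ρ n)) := by
    intro n
    refine trace_integral (ρ n) (orderOf_pos (n : G)) ?_
    rw [← map_pow, pow_orderOf_eq_one, map_one]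
  set R := integralClosure ℤ F with hR
  set c : N → R := fun n => ⟨(LinearMap.trace F V) (ρ n), hint n⟩ with hc
  have hsym : ∀ n : N, c n⁻¹ = c n := by
    intro n
    apply Subtype.ext
    change (LinearMap.trace F V) (ρ ((n⁻¹ : N) : G)) = (LinearMap.trace F V) (ρ n)
    rw [Subgroup.coe_inv]
    exact trace_inv hρ (n : G)
  set I : Ideal R := Ideal.span {2} with hI
  have hzero : ∀ x : R ⧸ I, x + x = 0 := by
    intro x
    obtain ⟨y, rfl⟩ := Ideal.Quotient.mk_surjective x
    rw [← map_add, Ideal.Quotient.eq_zero_iff_mem, hI, Ideal.mem_span_singleton, ← two_mul]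
    exact dvd_mul_right _ _
  have h4 : ∑ n ∈ Finset.univ.erase (1 : N), Ideal.Quotient.mk I (c n) = 0 := by
    refine Finset.sum_involution (fun n _ => n⁻¹) ?_ ?_ ?_ ?_
    · intro n _
      rw [hsym]
      exact hzero _
    · intro n hn _ heq
      have hn1 : n ≠ 1 := (Finset.mem_erase.1 hn).1
      have h5 : n ^ 2 = 1 := by
        rw [pow_two]
        nth_rewrite 1 [← heq]
        exact inv_mul_cancel n
      have h6 : orderOf n ∣ 2 := orderOf_dvd_of_pow_eq_one h5
      have h7 : orderOf n ∣ Nat.card N := orderOf_dvd_natCard n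
      rcases (Nat.dvd_prime Nat.prime_two).1 h6 with h8 | h8
      · exact hn1 (orderOf_eq_one_iff.1 h8)
      · rw [h8] at h7
        rw [Nat.odd_iff] at hN
        omega
    · intro n hn
      rw [Finset.mem_erase] at hn ⊢
      exact ⟨fun h => hn.1 (inv_eq_one.1 h), Finset.mem_univ _⟩
    · intro n _
      exact inv_inv n
  rw [← map_sum, Ideal.Quotient.eq_zero_iff_mem, hI, Ideal.mem_span_singleton] at h4
  obtain ⟨s, hs⟩ := h4
  have h5 : ∑ n : N, (LinearMap.trace F V) (ρ n) = finrank F V + 2 * (s : F) := by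
    have h6 := congrArg (fun x : R => (x : F)) hs
    have h7 : ((∑ n ∈ Finset.univ.erase (1 : N), c n : R) : F) =
        ∑ n ∈ Finset.univ.erase (1 : N), (LinearMap.trace F V) (ρ n) := by
      rw [AddSubmonoidClass.coe_finset_sum]
    have h8 : ((2 * s : R) : F) = 2 * (s : F) := rfl
    rw [← Finset.add_sum_erase _ _ (Finset.mem_univ (1 : N)), ← h7, Subgroup.coe_one, map_one,
      LinearMap.trace_one]
    congr 1
  have h1 := card_mul_fix ρ N
  rw [h5] at h1
  have h9 : (((Nat.card N : ℤ) * (finrank F (fixS ρ N) : ℤ) - finrank F V : ℤ) : F) =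
      2 * (s : F) := by
    push_cast
    linear_combination h1
  have h10 := int_of_integral s.2 h9
  have h11 : (((Nat.card N : ℤ) * (finrank F (fixS ρ N) : ℤ) - finrank F V : ℤ) : ZMod 2) = 0 :=
    (ZMod.intCast_zmod_eq_zero_iff_dvd _ 2).2 h10
  push_cast at h11
  have hodd : ((Nat.card N : ℕ) : ZMod 2) = 1 := (ZMod.natCast_eq_one_iff_odd).2 hN
  rw [hodd, one_mul, sub_eq_zero] at h11
  exact h11.symm

end Pool.Agent.X156.SD
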