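import Pool.Agent.X156.SD.Gov
import Pool.Agent.X298.EC.Main

/-!
# Orders of vanishing of twisted `L`-functions of an elliptic curve
-/

set_option autoImplicit false
set_option linter.unusedSectionVars false

open Filter Topology Complex
open scoped ComplexOrder
open IsDedekindDomain NumberField

namespace Pool.Agent.X156.SD

open Pool.Agent.X298.ST Pool.Agent.X298.EC Pool.Agent.W189.ML

section conj

/-- the conjugate of a function -/
noncomputable def cj (f : ℂ → ℂ) : ℂ → ℂ := (starRingEnd ℂ) ∘ f ∘ (starRingEnd ℂ)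

theorem cj_apply (f : ℂ → ℂ) (z : ℂ) : cj f z = (starRingEnd ℂ) (f ((starRingEnd ℂ) z)) := rfl

theorem conj_tendsto (x : ℂ) : Tendsto (starRingEnd ℂ) (𝓝 x) (𝓝 ((starRingEnd ℂ) x)) :=
  Complex.continuous_conj.tendsto x

theorem conj_tendsto' (x : ℂ) :
    Tendsto (starRingEnd ℂ) (𝓝[≠] ((starRingEnd ℂ) x)) (𝓝[≠] x) := by
  rw [tendsto_nhdsWithin_iff]
  constructor
  · have h := conj_tendsto ((starRingEnd ℂ) x)
    rw [Complex.conj_conj] at h
    exact h.mono_left nhdsWithin_le_nhds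
  · filter_upwards [self_mem_nhdsWithin] with z hz h
    apply hz
    change z = _
    rw [← Complex.conj_conj z]
    exact congrArg _ h

theorem cj_analytic {f : ℂ → ℂ} {x : ℂ} (hf : AnalyticAt ℂ f x) :
    AnalyticAt ℂ (cj f) ((starRingEnd ℂ) x) := by
  rw [Complex.analyticAt_iff_eventually_differentiableAt] at hf ⊢
  have h := conj_tendsto ((starRingEnd ℂ) x)
  rw [Complex.conj_conj] at h
  filter_upwards [h.eventually hf] with z hz
  exact differentiableAt_conj_conj_iff.2 hz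

theorem cj_mero {f : ℂ → ℂ} {x : ℂ} (hf : MeromorphicAt f x) :
    MeromorphicAt (cj f) ((starRingEnd ℂ) x) := by
  obtain ⟨n, hn⟩ := hf
  refine ⟨n, ?_⟩
  have h := cj_analytic hn
  refine h.congr (Eventually.of_forall fun z => ?_)
  change (starRingEnd ℂ) (((starRingEnd ℂ) z - x) ^ n * f ((starRingEnd ℂ) z)) =
    (z - (starRingEnd ℂ) x) ^ n * (starRingEnd ℂ) (f ((starRingEnd ℂ) z))
  rw [map_mul, map_pow, _root_.map_sub, Complex.conj_conj]

theorem cj_order {f : ℂ → ℂ} {x : ℂ} (hf : MeromorphicAt f x) {n : ℤ}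
    (hn : meromorphicOrderAt f x = n) :
    meromorphicOrderAt (cj f) ((starRingEnd ℂ) x) = n := by
  rw [meromorphicOrderAt_eq_int_iff hf] at hn
  obtain ⟨g, h1, h2, h3⟩ := hn
  rw [meromorphicOrderAt_eq_int_iff (cj_mero hf)]
  refine ⟨cj g, cj_analytic h1, ?_, ?_⟩
  · rw [cj_apply, Complex.conj_conj]
    exact (map_ne_zero _).2 h2
  · filter_upwards [(conj_tendsto' x).eventually h3] with z hz
    rw [cj_apply, hz, smul_eq_mul, smul_eq_mul, map_mul, map_zpow₀, _root_.map_sub, Complex.conj_conj,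
      cj_apply]

end conj

section unit

variable {G : Type} [Group G] [Finite G]

/-- the trace at the inverse is the complex conjugate -/
theorem trace_star {n : ℕ} (τ : G →* Matrix (Fin n) (Fin n) ℂ) (h : G) :
    (τ h⁻¹).trace = (starRingEnd ℂ) (τ h).trace := by
  classical
  have : Fintype G := Fintype.ofFinite G
  set P : Matrix (Fin n) (Fin n) ℂ := ∑ g : G, (τ g).conjTranspose * τ g with hP
  have hinv : (τ h).conjTranspose * P * τ h = P := by
    rw [hP, Finset.mul_sum, Finset.sum_mul]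
    have : ∀ g : G, (τ h).conjTranspose * ((τ g).conjTranspose * τ g) * τ h =
        (τ (g * h)).conjTranspose * τ (g * h) := by
      intro g
      rw [map_mul, Matrix.conjTranspose_mul]
      simp only [Matrix.mul_assoc]
    rw [Finset.sum_congr rfl fun g _ => this g]
    exact Fintype.sum_equiv (Equiv.mulRight h) _ _ fun g => rfl
  have hpos : P.PosDef := by
    rw [hP, ← Finset.add_sum_erase _ _ (Finset.mem_univ (1 : G)), map_one,
      Matrix.conjTranspose_one, Matrix.one_mul]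
    exact Matrix.PosDef.one.add_posSemidef
      (Matrix.posSemidef_sum _ fun g _ => Matrix.posSemidef_conjTranspose_mul_self _)
  have hdet : IsUnit P.det := (Matrix.isUnit_iff_isUnit_det P).1 hpos.isUnit
  have h5 : τ h * τ h⁻¹ = 1 := by rw [← map_mul, mul_inv_cancel, map_one]
  have h6 : (τ h).conjTranspose = P * τ h⁻¹ * P⁻¹ := by
    calc (τ h).conjTranspose = (τ h).conjTranspose * (P * (τ h * τ h⁻¹)) * P⁻¹ := by
          rw [h5, Matrix.mul_one, Matrix.mul_assoc, Matrix.mul_nonsing_inv _ hdet, Matrix.mul_one]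
      _ = ((τ h).conjTranspose * P * τ h) * τ h⁻¹ * P⁻¹ := by simp only [Matrix.mul_assoc]
      _ = P * τ h⁻¹ * P⁻¹ := by rw [hinv]
  have h7 : (starRingEnd ℂ) (τ h).trace = (τ h).conjTranspose.trace := by
    rw [Matrix.trace_conjTranspose]
    rfl
  rw [h7, h6, Matrix.trace_mul_comm, ← Matrix.mul_assoc, Matrix.nonsing_inv_mul _ hdet,
    Matrix.one_mul]

theorem Irr.chr_inv (D : Irr G) (i : Fin D.r) (g : G) :
    D.chr i g⁻¹ = (starRingEnd ℂ) (D.chr i g) := trace_star (D.mat i) g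

end unit

section lfun

variable {K F : Type} [Field K] [NumberField K] [Field F] [NumberField F] [Algebra K F]
  {S : Set (HeightOneSpectrum (𝓞 K))} {P : Places S → Ideal (𝓞 F)} {A B : 𝓞 K}
  {α β : Places S → ℂ} {ρ : ℝ}

theorem tw_summable (hc : IsPure (tr α β) 1) (f : (F ≃ₐ[K] F) → ℂ) {s : ℂ} (hs : 3 / 2 < s.re) :
    Summable fun x : Places S × ℕ => tr α β x.1 (x.2 + 1) * value P f x.1 (x.2 + 1) *
      ((nrm x.1 : ℂ) ^ (-s)) ^ (x.2 + 1) / (x.2 + 1) := by
  have h := (gsys (P := P) hc f).sum s.re hs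
  refine Summable.of_norm (h.congr fun x => ?_)
  have h1 : tr α β x.1 (x.2 + 1) * value P f x.1 (x.2 + 1) *
      ((nrm x.1 : ℂ) ^ (-s)) ^ (x.2 + 1) / (x.2 + 1) =
      cE P α β f x * exp (-(s * Pool.Agent.X287.CR.lam nrm x)) := by
    rw [exp_lam]
    unfold cE
    ring
  rw [h1, norm_mul, Complex.norm_exp, Complex.neg_re, Complex.re_mul_ofReal]

theorem log_add (hc : IsPure (tr α β) 1) (f g : (F ≃ₐ[K] F) → ℂ) {s : ℂ} (hs : 3 / 2 < s.re) :
    logTwist P (tr α β) (f + g) s = logTwist P (tr α β) f s + logTwist P (tr α β) g s := by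
  unfold logTwist
  rw [← (tw_summable hc f hs).tsum_add (tw_summable hc g hs)]
  refine tsum_congr fun x => ?_
  rw [value_add]
  ring

theorem log_smul (c : ℂ) (f : (F ≃ₐ[K] F) → ℂ) (s : ℂ) :
    logTwist P (tr α β) (c • f) s = c * logTwist P (tr α β) f s := by
  unfold logTwist
  rw [← tsum_mul_left]
  refine tsum_congr fun x => ?_
  rw [value_smul]
  ring

theorem log_sum (hc : IsPure (tr α β) 1) {ι : Type} (t : Finset ι) (a : ι → ℂ)
    (f : ι → (F ≃ₐ[K] F) → ℂ) {s : ℂ} (hs : 3 / 2 < s.re) :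
    logTwist P (tr α β) (∑ i ∈ t, a i • f i) s = ∑ i ∈ t, a i * logTwist P (tr α β) (f i) s := by
  classical
  induction t using Finset.induction_on with
  | empty =>
    rw [Finset.sum_empty, Finset.sum_empty]
    have h := log_smul (P := P) (α := α) (β := β) 0 (0 : (F ≃ₐ[K] F) → ℂ) s
    rw [zero_smul, zero_mul] at h
    exact h
  | insert i t hi ih =>
    rw [Finset.sum_insert hi, Finset.sum_insert hi, log_add hc _ _ hs, log_smul, ih]

theorem tr_conj (hE : IsFrobenius A B α β) (v : Places S) (k : ℕ) :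
    (starRingEnd ℂ) (tr α β v k) = tr α β v k := by
  have hq := nrm_pos v
  have h1 : (starRingEnd ℂ) (α v) = β v := by
    have h2 : α v * (starRingEnd ℂ) (α v) = (nrm v : ℂ) := by
      rw [Complex.mul_conj, Complex.normSq_eq_norm_sq, hE.norm_left, Real.sq_sqrt hq.le]
      norm_cast
    have h3 : α v ≠ 0 := by
      intro h0
      rw [h0, zero_mul] at h2
      exact nrm_ne v h2.symm
    apply mul_left_cancel₀ h3
    rw [h2, hE.mul]
  have h4 : (starRingEnd ℂ) (β v) = α v := by rw [← h1, Complex.conj_conj]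
  unfold tr
  rw [map_add, map_pow, map_pow, h1, h4, add_comm]

theorem value_conj (f : (F ≃ₐ[K] F) → ℂ) (v : Places S) (k : ℕ) :
    value P (fun g => (starRingEnd ℂ) (f g)) v k = (starRingEnd ℂ) (value P f v k) := by
  have := fin_gal (K := K) (L := F)
  have hfin : (frob P v k).Finite := Set.toFinite _
  unfold value
  rw [map_div₀, map_natCast, finsum_mem_eq_finite_toFinset_sum _ hfin,
    finsum_mem_eq_finite_toFinset_sum _ hfin, map_sum]

theorem log_conj (hE : IsFrobenius A B α β) (f : (F ≃ₐ[K] F) → ℂ) (s : ℂ) :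
    logTwist P (tr α β) (fun g => (starRingEnd ℂ) (f g)) ((starRingEnd ℂ) s) =
      (starRingEnd ℂ) (logTwist P (tr α β) f s) := by
  unfold logTwist
  rw [Complex.conj_tsum]
  refine tsum_congr fun x => ?_
  have h1 : (nrm x.1 : ℂ) ^ (-(starRingEnd ℂ) s) = (starRingEnd ℂ) ((nrm x.1 : ℂ) ^ (-s)) := by
    have h2 := Complex.conj_cpow (nrm x.1 : ℂ) (-(starRingEnd ℂ) s)
      (by rw [Complex.natCast_arg]; exact Real.pi_pos.ne)
    rw [map_neg, Complex.conj_conj, map_natCast] at h2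
    exact h2
  rw [map_div₀, map_mul, map_mul, map_pow, tr_conj hE, value_conj, h1, map_add, map_natCast,
    map_one]

theorem isL_conj (hE : IsFrobenius A B α β) {f : (F ≃ₐ[K] F) → ℂ} {Λ : ℂ → ℂ}
    (h : IsL P α β ρ f Λ) : IsL P α β ρ (fun g => (starRingEnd ℂ) (f g)) (cj Λ) where
  eq s hs := by
    rw [cj_apply, h.eq _ (by rwa [Complex.conj_re]), ← Complex.exp_conj, ← log_conj hE,
      Complex.conj_conj]
  mero s hs := by
    have h1 := cj_mero (h.mero ((starRingEnd ℂ) s) (by rwa [Complex.conj_re]))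
    rwa [Complex.conj_conj] at h1

theorem ord_ne_top (hρ : ρ < 1) {f : (F ≃ₐ[K] F) → ℂ} {Λ : ℂ → ℂ} (h : IsL P α β ρ f Λ) :
    meromorphicOrderAt Λ 1 ≠ ⊤ := by
  have hU : IsPreconnected {z : ℂ | ρ < z.re} := (convex_halfSpace_re_gt ρ).isPreconnected
  have hf : MeromorphicOn Λ {z : ℂ | ρ < z.re} := fun z hz => h.mero z hz
  have h2 : (2 : ℂ) ∈ {z : ℂ | ρ < z.re} := by
    change ρ < (2 : ℂ).re
    norm_num
    linarith
  have h1 : (1 : ℂ) ∈ {z : ℂ | ρ < z.re} := by
    change ρ < (1 : ℂ).re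
    norm_num
    exact hρ
  refine hf.meromorphicOrderAt_ne_top_of_isPreconnected hU h2 h1 ?_
  rw [meromorphicOrderAt_ne_top_iff_eventually_ne_zero (h.mero 2 h2)]
  have hopen : {z : ℂ | 3 / 2 < z.re} ∈ 𝓝 (2 : ℂ) :=
    (isOpen_lt continuous_const Complex.continuous_re).mem_nhds (by
      change (3 : ℝ) / 2 < (2 : ℂ).re
      norm_num)
  filter_upwards [mem_nhdsWithin_of_mem_nhds hopen] with z hz
  rw [h.eq z hz]
  exact Complex.exp_ne_zero _

theorem ord_unique (hρ : ρ < 1) {f : (F ≃ₐ[K] F) → ℂ} {Λ Λ' : ℂ → ℂ} (h : IsL P α β ρ f Λ)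
    (h' : IsL P α β ρ f Λ') : meromorphicOrderAt Λ 1 = meromorphicOrderAt Λ' 1 := by
  have hU : IsPreconnected {z : ℂ | ρ < z.re} := (convex_halfSpace_re_gt ρ).isPreconnected
  have hf : MeromorphicOn (Λ - Λ') {z : ℂ | ρ < z.re} := fun z hz => (h.mero z hz).sub (h'.mero z hz)
  have h2 : (2 : ℂ) ∈ {z : ℂ | ρ < z.re} := by
    change ρ < (2 : ℂ).re
    norm_num
    linarith
  have h1 : (1 : ℂ) ∈ {z : ℂ | ρ < z.re} := by
    change ρ < (1 : ℂ).re
    norm_num
    exact hρ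
  have hopen : {z : ℂ | 3 / 2 < z.re} ∈ 𝓝 (2 : ℂ) :=
    (isOpen_lt continuous_const Complex.continuous_re).mem_nhds (by
      change (3 : ℝ) / 2 < (2 : ℂ).re
      norm_num)
  have h3 : meromorphicOrderAt (Λ - Λ') 2 = ⊤ := by
    rw [meromorphicOrderAt_eq_top_iff]
    filter_upwards [mem_nhdsWithin_of_mem_nhds hopen] with z hz
    rw [Pi.sub_apply, h.eq z hz, h'.eq z hz, sub_self]
  have h4 : meromorphicOrderAt (Λ - Λ') 1 = ⊤ := by
    by_contra hcon
    exact hf.meromorphicOrderAt_ne_top_of_isPreconnected hU h1 h2 hcon h3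
  rw [meromorphicOrderAt_eq_top_iff] at h4
  apply meromorphicOrderAt_congr
  filter_upwards [h4] with z hz
  rw [Pi.sub_apply, sub_eq_zero] at hz
  exact hz

theorem isL_prod (hc : IsPure (tr α β) 1) {r : ℕ} {f : Fin r → (F ≃ₐ[K] F) → ℂ}
    {Λ : Fin r → ℂ → ℂ} (h : ∀ i, IsL P α β ρ (f i) (Λ i)) (d : Fin r → ℕ) :
    IsL P α β ρ (∑ i, (d i : ℂ) • f i) (∏ i, Λ i ^ d i) where
  eq s hs := by
    rw [log_sum hc _ _ _ hs, Complex.exp_sum, Finset.prod_apply]
    refine Finset.prod_congr rfl fun i _ => ?_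
    rw [Pi.pow_apply, (h i).eq s hs, ← Complex.exp_nat_mul]
  mero s hs := MeromorphicAt.prod fun i _ => ((h i).mero s hs).pow _

theorem ord_prod (hρ : ρ < 1) {r : ℕ} {f : Fin r → (F ≃ₐ[K] F) → ℂ}
    {Λ : Fin r → ℂ → ℂ} (h : ∀ i, IsL P α β ρ (f i) (Λ i)) (d : Fin r → ℕ) (m : Fin r → ℤ)
    (hm : ∀ i, meromorphicOrderAt (Λ i) 1 = m i) :
    meromorphicOrderAt (∏ i, Λ i ^ d i) 1 = ((∑ i, m i * (d i : ℤ) : ℤ) : WithTop ℤ) := by
  have h1 : ∀ i, MeromorphicAt (Λ i) 1 := fun i => (h i).mero 1 (by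
    rw [Complex.one_re]
    exact hρ)
  rw [meromorphicOrderAt_prod fun i _ => (h1 i).pow _]
  have h2 : ∀ i, meromorphicOrderAt (Λ i ^ d i) 1 = ((m i * (d i : ℤ) : ℤ) : WithTop ℤ) := by
    intro i
    rw [meromorphicOrderAt_pow (h1 i), hm, mul_comm (m i)]
    rfl
  rw [Finset.sum_congr rfl fun i _ => h2 i]
  push_cast
  rfl

end lfun

section main

variable {K F : Type} [Field K] [NumberField K] [Field F] [NumberField F] [Algebra K F]
  {S : Set (HeightOneSpectrum (𝓞 K))} {P : Places S → Ideal (𝓞 F)} {A B : 𝓞 K}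
  {α β : Places S → ℂ} {ρ : ℝ}

/-- **The orders of vanishing over the intermediate fields are given modulo two by a self-dual
representation.** -/
theorem exists_order (hρ : ρ < 1) (hE : IsFrobenius A B α β)
    (hΛ : ∀ (n : ℕ) (τ : (F ≃ₐ[K] F) →* Matrix (Fin n) (Fin n) ℂ),
      ∃ Λ, IsL P α β ρ (fun g => (τ g).trace) Λ) :
    ∃ (V : Type) (_ : AddCommGroup V) (_ : Module ℂ V) (_ : FiniteDimensional ℂ V)
      (σ : (F ≃ₐ[K] F) →* (V →ₗ[ℂ] V)) (o : Subgroup (F ≃ₐ[K] F) → ℤ), SelfDual σ ∧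
      ∀ H : Subgroup (F ≃ₐ[K] F), (∃ Λ, IsL P α β ρ (perm H) Λ) ∧
        (∀ Λ, IsL P α β ρ (perm H) Λ → meromorphicOrderAt Λ 1 = (o H : WithTop ℤ)) ∧
        (o H : ZMod 2) = (Module.finrank ℂ (fixS σ H) : ZMod 2) := by
  classical
  have hfin := fin_gal (K := K) (L := F)
  obtain ⟨D⟩ := exists_irr (F ≃ₐ[K] F)
  choose Λ hL using fun i : Fin D.r => hΛ (D.d i) (D.mat i)
  have hL' : ∀ i, IsL P α β ρ (D.chr i) (Λ i) := hL
  have hm0 : ∀ i, ∃ m : ℤ, meromorphicOrderAt (Λ i) 1 = (m : WithTop ℤ) := by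
    intro i
    obtain ⟨m, hm⟩ := WithTop.ne_top_iff_exists.1 (ord_ne_top hρ (hL' i))
    exact ⟨m, hm.symm⟩
  choose m hm using hm0
  have hstar : ∀ i, m (D.star i) = m i := by
    intro i
    have h1 : (D.chr (D.star i)) = fun g => (starRingEnd ℂ) (D.chr i g) := by
      funext g
      rw [D.chr_star, D.chr_inv]
    have h2 := isL_conj hE (hL' i)
    rw [← h1] at h2
    have h3 := ord_unique hρ (hL' (D.star i)) h2
    have h4 := cj_order ((hL' i).mero 1 (by rw [Complex.one_re]; exact hρ)) (hm i)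
    rw [map_one] at h4
    rw [hm, h4] at h3
    exact_mod_cast h3
  obtain ⟨V, i1, i2, i3, σ, hσ, hdim⟩ := exists_gov D m hstar
  refine ⟨V, i1, i2, i3, σ, fun H => ∑ i, m i * (Module.finrank ℂ (fixS (D.rep i) H) : ℤ), hσ,
    fun H => ?_⟩
  have hp : (∑ i, ((Module.finrank ℂ (fixS (D.rep i) H) : ℕ) : ℂ) • D.chr i) = perm H := by
    funext g
    rw [Finset.sum_apply]
    exact D.perm_eq H g
  have h5 := isL_prod (pure hE) hL' fun i => Module.finrank ℂ (fixS (D.rep i) H)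
  rw [hp] at h5
  refine ⟨⟨_, h5⟩, ?_, hdim H⟩
  intro Λ' h6
  rw [ord_unique hρ h6 h5]
  exact ord_prod hρ hL' _ m hm

end main

end Pool.Agent.X156.SD
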