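import Pool.Agent.X156.SD.Ord

/-!
# Orders of twisted `L`-functions of a motive with real traces of Frobenius
-/

set_option autoImplicit false
set_option linter.unusedSectionVars false

open Filter Topology Complex
open IsDedekindDomain NumberField

namespace Pool.Agent.X156.SD

open Pool.Agent.X298.ST Pool.Agent.X298.EC Pool.Agent.W189.ML

/-- `Λ` is `L_S(M ⊗ f, s) = exp ∑_{v ∉ S} ∑_{k ≥ 1} c_v(k) f(v^k) q_v^{-ks} / k` (`Re s > w/2 + 1`),
continued to a function meromorphic for `Re s > ρ`. -/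
structure Continues {K F : Type} [Field K] [NumberField K] [Field F] [NumberField F] [Algebra K F]
    {S : Set (HeightOneSpectrum (𝓞 K))} (P : Places S → Ideal (𝓞 F)) (c : Places S → ℕ → ℂ) (w : ℤ)
    (ρ : ℝ) (f : (F ≃ₐ[K] F) → ℂ) (Λ : ℂ → ℂ) : Prop where
  /-- the value -/
  eq : ∀ s : ℂ, (w : ℝ) / 2 + 1 < s.re → Λ s = Complex.exp (logTwist P c f s)
  /-- the continuation -/
  mero : ∀ s : ℂ, ρ < s.re → MeromorphicAt Λ s

variable {K F : Type} [Field K] [NumberField K] [Field F] [NumberField F] [Algebra K F]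
  {S : Set (HeightOneSpectrum (𝓞 K))} {P : Places S → Ideal (𝓞 F)} {c : Places S → ℕ → ℂ} {w : ℤ}
  {ρ : ℝ}

theorem gen_summable (hc : IsPure c w) (f : (F ≃ₐ[K] F) → ℂ) {s : ℂ}
    (hs : (w : ℝ) / 2 + 1 < s.re) :
    Summable fun x : Places S × ℕ => c x.1 (x.2 + 1) * value P f x.1 (x.2 + 1) *
      ((nrm x.1 : ℂ) ^ (-s)) ^ (x.2 + 1) / (x.2 + 1) := by
  obtain ⟨b, hb⟩ := coef_le (P := P) hc f (σ := (w : ℝ) / 2) le_rfl
  have h1 := co_summable (qsys S) hb (σ := s.re - (w : ℝ) / 2) (by linarith)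
  refine Summable.of_norm (h1.congr fun x => ?_)
  have e0 : c x.1 (x.2 + 1) * value P f x.1 (x.2 + 1) *
      ((nrm x.1 : ℂ) ^ (-s)) ^ (x.2 + 1) / (x.2 + 1) =
      (c x.1 (x.2 + 1) * value P f x.1 (x.2 + 1) / (x.2 + 1)) *
        exp (-(s * Pool.Agent.X287.CR.lam nrm x)) := by
    rw [exp_lam]
    ring
  have e1 : co (fun x : Places S × ℕ => c x.1 (x.2 + 1) * value P f x.1 (x.2 + 1) *
      ((nrm x.1 : ℂ) ^ (-(((w : ℝ) / 2 : ℝ) : ℂ))) ^ (x.2 + 1)) x =
      (c x.1 (x.2 + 1) * value P f x.1 (x.2 + 1) / (x.2 + 1)) *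
        exp (-((((w : ℝ) / 2 : ℝ) : ℂ) * Pool.Agent.X287.CR.lam nrm x)) := by
    rw [exp_lam]
    unfold co
    ring
  rw [e0, e1, norm_mul, Complex.norm_exp, norm_mul, Complex.norm_exp, mul_assoc, ← Real.exp_add]
  congr 2
  have e2 : (-((((w : ℝ) / 2 : ℝ) : ℂ) * Pool.Agent.X287.CR.lam nrm x)).re =
      -((w : ℝ) / 2 * Pool.Agent.X287.CR.lam nrm x) := by
    rw [Complex.neg_re, Complex.re_ofReal_mul, Complex.ofReal_re]
  rw [e2, Complex.neg_re, Complex.re_mul_ofReal]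
  ring

theorem gen_add (hc : IsPure c w) (f g : (F ≃ₐ[K] F) → ℂ) {s : ℂ} (hs : (w : ℝ) / 2 + 1 < s.re) :
    logTwist P c (f + g) s = logTwist P c f s + logTwist P c g s := by
  unfold logTwist
  rw [← (gen_summable hc f hs).tsum_add (gen_summable hc g hs)]
  refine tsum_congr fun x => ?_
  rw [value_add]
  ring

theorem gen_smul (a : ℂ) (f : (F ≃ₐ[K] F) → ℂ) (s : ℂ) :
    logTwist P c (a • f) s = a * logTwist P c f s := by
  unfold logTwist
  rw [← tsum_mul_left]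
  refine tsum_congr fun x => ?_
  rw [value_smul]
  ring

theorem gen_sum (hc : IsPure c w) {ι : Type} (t : Finset ι) (a : ι → ℂ)
    (f : ι → (F ≃ₐ[K] F) → ℂ) {s : ℂ} (hs : (w : ℝ) / 2 + 1 < s.re) :
    logTwist P c (∑ i ∈ t, a i • f i) s = ∑ i ∈ t, a i * logTwist P c (f i) s := by
  classical
  induction t using Finset.induction_on with
  | empty =>
    rw [Finset.sum_empty, Finset.sum_empty]
    have h := gen_smul (P := P) (c := c) 0 (0 : (F ≃ₐ[K] F) → ℂ) s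
    rw [zero_smul, zero_mul] at h
    exact h
  | insert i t hi ih =>
    rw [Finset.sum_insert hi, Finset.sum_insert hi, gen_add hc _ _ hs, gen_smul, ih]

theorem gen_conj (hr : ∀ v k, (starRingEnd ℂ) (c v k) = c v k) (f : (F ≃ₐ[K] F) → ℂ) (s : ℂ) :
    logTwist P c (fun g => (starRingEnd ℂ) (f g)) ((starRingEnd ℂ) s) =
      (starRingEnd ℂ) (logTwist P c f s) := by
  unfold logTwist
  rw [Complex.conj_tsum]
  refine tsum_congr fun x => ?_
  have h1 : (nrm x.1 : ℂ) ^ (-(starRingEnd ℂ) s) = (starRingEnd ℂ) ((nrm x.1 : ℂ) ^ (-s)) := by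
    have h2 := Complex.conj_cpow (nrm x.1 : ℂ) (-(starRingEnd ℂ) s)
      (by rw [Complex.natCast_arg]; exact Real.pi_pos.ne)
    rw [map_neg, Complex.conj_conj, map_natCast] at h2
    exact h2
  rw [map_div₀, map_mul, map_mul, map_pow, hr, value_conj, h1, map_add, map_natCast, map_one]

theorem Continues.conj (hr : ∀ v k, (starRingEnd ℂ) (c v k) = c v k) {f : (F ≃ₐ[K] F) → ℂ}
    {Λ : ℂ → ℂ} (h : Continues P c w ρ f Λ) :
    Continues P c w ρ (fun g => (starRingEnd ℂ) (f g)) (cj Λ) where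
  eq s hs := by
    rw [cj_apply, h.eq _ (by rwa [Complex.conj_re]), ← Complex.exp_conj, ← gen_conj hr,
      Complex.conj_conj]
  mero s hs := by
    have h1 := cj_mero (h.mero ((starRingEnd ℂ) s) (by rwa [Complex.conj_re]))
    rwa [Complex.conj_conj] at h1

/-- a real point far to the right -/
theorem far (w : ℤ) (ρ : ℝ) : ∃ y : ℝ, ρ < y ∧ (w : ℝ) / 2 + 1 < y :=
  ⟨max ρ ((w : ℝ) / 2 + 1) + 1, by
    have := le_max_left ρ ((w : ℝ) / 2 + 1)
    linarith, by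
    have := le_max_right ρ ((w : ℝ) / 2 + 1)
    linarith⟩

theorem gen_ne_top {x : ℝ} (hx : ρ < x) {f : (F ≃ₐ[K] F) → ℂ} {Λ : ℂ → ℂ}
    (h : Continues P c w ρ f Λ) : meromorphicOrderAt Λ (x : ℂ) ≠ ⊤ := by
  have hU : IsPreconnected {z : ℂ | ρ < z.re} := (convex_halfSpace_re_gt ρ).isPreconnected
  have hf : MeromorphicOn Λ {z : ℂ | ρ < z.re} := fun z hz => h.mero z hz
  obtain ⟨y, hy1, hy2⟩ := far w ρ
  have h2 : (y : ℂ) ∈ {z : ℂ | ρ < z.re} := by
    change ρ < (y : ℂ).re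
    rwa [Complex.ofReal_re]
  have h1 : (x : ℂ) ∈ {z : ℂ | ρ < z.re} := by
    change ρ < (x : ℂ).re
    rwa [Complex.ofReal_re]
  refine hf.meromorphicOrderAt_ne_top_of_isPreconnected hU h2 h1 ?_
  rw [meromorphicOrderAt_ne_top_iff_eventually_ne_zero (h.mero _ h2)]
  have hopen : {z : ℂ | (w : ℝ) / 2 + 1 < z.re} ∈ 𝓝 (y : ℂ) :=
    (isOpen_lt continuous_const Complex.continuous_re).mem_nhds (by
      change (w : ℝ) / 2 + 1 < (y : ℂ).re
      rwa [Complex.ofReal_re])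
  filter_upwards [mem_nhdsWithin_of_mem_nhds hopen] with z hz
  rw [h.eq z hz]
  exact Complex.exp_ne_zero _

theorem gen_unique {x : ℝ} (hx : ρ < x) {f : (F ≃ₐ[K] F) → ℂ} {Λ Λ' : ℂ → ℂ}
    (h : Continues P c w ρ f Λ) (h' : Continues P c w ρ f Λ') :
    meromorphicOrderAt Λ (x : ℂ) = meromorphicOrderAt Λ' (x : ℂ) := by
  have hU : IsPreconnected {z : ℂ | ρ < z.re} := (convex_halfSpace_re_gt ρ).isPreconnected
  have hf : MeromorphicOn (Λ - Λ') {z : ℂ | ρ < z.re} :=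
    fun z hz => (h.mero z hz).sub (h'.mero z hz)
  obtain ⟨y, hy1, hy2⟩ := far w ρ
  have h2 : (y : ℂ) ∈ {z : ℂ | ρ < z.re} := by
    change ρ < (y : ℂ).re
    rwa [Complex.ofReal_re]
  have h1 : (x : ℂ) ∈ {z : ℂ | ρ < z.re} := by
    change ρ < (x : ℂ).re
    rwa [Complex.ofReal_re]
  have hopen : {z : ℂ | (w : ℝ) / 2 + 1 < z.re} ∈ 𝓝 (y : ℂ) :=
    (isOpen_lt continuous_const Complex.continuous_re).mem_nhds (by
      change (w : ℝ) / 2 + 1 < (y : ℂ).re
      rwa [Complex.ofReal_re])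
  have h3 : meromorphicOrderAt (Λ - Λ') (y : ℂ) = ⊤ := by
    rw [meromorphicOrderAt_eq_top_iff]
    filter_upwards [mem_nhdsWithin_of_mem_nhds hopen] with z hz
    rw [Pi.sub_apply, h.eq z hz, h'.eq z hz, sub_self]
  have h4 : meromorphicOrderAt (Λ - Λ') (x : ℂ) = ⊤ := by
    by_contra hcon
    exact hf.meromorphicOrderAt_ne_top_of_isPreconnected hU h1 h2 hcon h3
  rw [meromorphicOrderAt_eq_top_iff] at h4
  apply meromorphicOrderAt_congr
  filter_upwards [h4] with z hz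
  rw [Pi.sub_apply, sub_eq_zero] at hz
  exact hz

theorem gen_prod (hc : IsPure c w) {r : ℕ} {f : Fin r → (F ≃ₐ[K] F) → ℂ}
    {Λ : Fin r → ℂ → ℂ} (h : ∀ i, Continues P c w ρ (f i) (Λ i)) (d : Fin r → ℕ) :
    Continues P c w ρ (∑ i, (d i : ℂ) • f i) (∏ i, Λ i ^ d i) where
  eq s hs := by
    rw [gen_sum hc _ _ _ hs, Complex.exp_sum, Finset.prod_apply]
    refine Finset.prod_congr rfl fun i _ => ?_
    rw [Pi.pow_apply, (h i).eq s hs, ← Complex.exp_nat_mul]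
  mero s hs := MeromorphicAt.prod fun i _ => ((h i).mero s hs).pow _

theorem gen_order {x : ℝ} (hx : ρ < x) {r : ℕ} {f : Fin r → (F ≃ₐ[K] F) → ℂ}
    {Λ : Fin r → ℂ → ℂ} (h : ∀ i, Continues P c w ρ (f i) (Λ i)) (d : Fin r → ℕ) (m : Fin r → ℤ)
    (hm : ∀ i, meromorphicOrderAt (Λ i) (x : ℂ) = m i) :
    meromorphicOrderAt (∏ i, Λ i ^ d i) (x : ℂ) =
      ((∑ i, m i * (d i : ℤ) : ℤ) : WithTop ℤ) := by
  have h1 : ∀ i, MeromorphicAt (Λ i) (x : ℂ) := fun i => (h i).mero _ (by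
    rw [Complex.ofReal_re]
    exact hx)
  rw [meromorphicOrderAt_prod fun i _ => (h1 i).pow _]
  have h2 : ∀ i, meromorphicOrderAt (Λ i ^ d i) (x : ℂ) =
      ((m i * (d i : ℤ) : ℤ) : WithTop ℤ) := by
    intro i
    rw [meromorphicOrderAt_pow (h1 i), hm, mul_comm (m i)]
    rfl
  rw [Finset.sum_congr rfl fun i _ => h2 i]
  push_cast
  rfl

/-- **The orders over the intermediate fields at a real point are given modulo two by a self-dual
representation.** -/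
theorem exists_order_gen {x : ℝ} (hx : ρ < x) (hc : IsPure c w)
    (hr : ∀ v k, (starRingEnd ℂ) (c v k) = c v k)
    (hΛ : ∀ (n : ℕ) (τ : (F ≃ₐ[K] F) →* Matrix (Fin n) (Fin n) ℂ),
      ∃ Λ, Continues P c w ρ (fun g => (τ g).trace) Λ) :
    ∃ (V : Type) (_ : AddCommGroup V) (_ : Module ℂ V) (_ : FiniteDimensional ℂ V)
      (σ : (F ≃ₐ[K] F) →* (V →ₗ[ℂ] V)) (o : Subgroup (F ≃ₐ[K] F) → ℤ), SelfDual σ ∧
      ∀ H : Subgroup (F ≃ₐ[K] F), (∃ Λ, Continues P c w ρ (perm H) Λ) ∧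
        (∀ Λ, Continues P c w ρ (perm H) Λ →
          meromorphicOrderAt Λ (x : ℂ) = (o H : WithTop ℤ)) ∧
        (o H : ZMod 2) = (Module.finrank ℂ (fixS σ H) : ZMod 2) := by
  classical
  have hfin := fin_gal (K := K) (L := F)
  obtain ⟨D⟩ := exists_irr (F ≃ₐ[K] F)
  choose Λ hL using fun i : Fin D.r => hΛ (D.d i) (D.mat i)
  have hL' : ∀ i, Continues P c w ρ (D.chr i) (Λ i) := hL
  have hm0 : ∀ i, ∃ m : ℤ, meromorphicOrderAt (Λ i) (x : ℂ) = (m : WithTop ℤ) := by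
    intro i
    obtain ⟨m, hm⟩ := WithTop.ne_top_iff_exists.1 (gen_ne_top hx (hL' i))
    exact ⟨m, hm.symm⟩
  choose m hm using hm0
  have hstar : ∀ i, m (D.star i) = m i := by
    intro i
    have h1 : (D.chr (D.star i)) = fun g => (starRingEnd ℂ) (D.chr i g) := by
      funext g
      rw [D.chr_star, D.chr_inv]
    have h2 := (hL' i).conj hr
    rw [← h1] at h2
    have h3 := gen_unique hx (hL' (D.star i)) h2
    have h4 := cj_order ((hL' i).mero (x : ℂ) (by rw [Complex.ofReal_re]; exact hx)) (hm i)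
    rw [Complex.conj_ofReal] at h4
    rw [hm, h4] at h3
    exact_mod_cast h3
  obtain ⟨V, i1, i2, i3, σ, hσ, hdim⟩ := exists_gov D m hstar
  refine ⟨V, i1, i2, i3, σ, fun H => ∑ i, m i * (Module.finrank ℂ (fixS (D.rep i) H) : ℤ), hσ,
    fun H => ?_⟩
  have hp : (∑ i, ((Module.finrank ℂ (fixS (D.rep i) H) : ℕ) : ℂ) • D.chr i) = perm H := by
    funext g
    rw [Finset.sum_apply]
    exact D.perm_eq H g
  have h5 := gen_prod hc hL' fun i => Module.finrank ℂ (fixS (D.rep i) H)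
  rw [hp] at h5
  refine ⟨⟨_, h5⟩, ?_, hdim H⟩
  intro Λ' h6
  rw [gen_unique hx h6 h5]
  exact gen_order hx hL' _ m hm

end Pool.Agent.X156.SD
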