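import Pool.Agent.X156.SD.Ord

/-!
# Ranks over the intermediate fields of a Galois extension, modulo two
-/

set_option autoImplicit false
set_option linter.unusedSectionVars false

namespace Pool.Agent.X156.SD

open Module LinearMap

section rat

variable {G : Type} [Group G] [Finite G] {V : Type} [AddCommGroup V] [Module ℚ V]
  [FiniteDimensional ℚ V]

/-- rational representations are self-dual -/
theorem selfDual_rat (ρ : G →* (V →ₗ[ℚ] V)) : SelfDual ρ := by
  classical
  have : Fintype G := Fintype.ofFinite G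
  set e : V ≃ₗ[ℚ] (Fin (finrank ℚ V) → ℚ) := (Module.finBasis ℚ V).equivFun with he
  have hval : ∀ v w : V, (∑ g : G, (dotProductBilin ℚ ℚ).compl₁₂
      ((e : V →ₗ[ℚ] (Fin (finrank ℚ V) → ℚ)) ∘ₗ ρ g)
      ((e : V →ₗ[ℚ] (Fin (finrank ℚ V) → ℚ)) ∘ₗ ρ g)) v w =
      ∑ g : G, (e (ρ g v)) ⬝ᵥ (e (ρ g w)) := by
    intro v w
    rw [LinearMap.sum_apply, LinearMap.sum_apply]
    rfl
  refine ⟨∑ g : G, (dotProductBilin ℚ ℚ).compl₁₂
      ((e : V →ₗ[ℚ] (Fin (finrank ℚ V) → ℚ)) ∘ₗ ρ g)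
      ((e : V →ₗ[ℚ] (Fin (finrank ℚ V) → ℚ)) ∘ₗ ρ g), ?_, ?_⟩
  · intro h v w
    rw [hval, hval]
    refine Fintype.sum_equiv (Equiv.mulRight h) _ _ fun g => ?_
    change e (ρ g (ρ h v)) ⬝ᵥ e (ρ g (ρ h w)) = e (ρ (g * h) v) ⬝ᵥ e (ρ (g * h) w)
    rw [map_mul]
    rfl
  · intro v hv
    have h1 := hv v
    rw [hval] at h1
    have h2 : ∀ g ∈ Finset.univ, (0 : ℚ) ≤ (e (ρ g v)) ⬝ᵥ (e (ρ g v)) := fun g _ =>
      Finset.sum_nonneg fun i _ => mul_self_nonneg _
    have h3 := (Finset.sum_eq_zero_iff_of_nonneg h2).1 h1 1 (Finset.mem_univ _)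
    rw [map_one] at h3
    have h4 : e v = 0 := dotProduct_self_eq_zero.1 h3
    exact (map_eq_zero_iff e e.injective).1 h4

end rat

section rank

open WeierstrassCurve NumberField PR

variable {k L : Type} [Field k] [NumberField k] [Field L] [NumberField L] [Algebra k L]
  [IsGalois k L]

theorem rank_sub (W : WeierstrassCurve k) (hW : W.Δ ≠ 0)
    (H N : Subgroup (L ≃ₐ[k] L)) (hNH : N ≤ H)
    (hn : (N.subgroupOf H).Normal) (hN : Odd (Nat.card N)) {n : ℕ}
    (hi : N.relIndex H = 2 ^ (n + 1)) :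
    (rank (W.baseChange L) : ZMod 2) =
      ∑ K ∈ halves H, (rank (W.baseChange (IntermediateField.fixedField K)) : ZMod 2) := by
  have hfd : FiniteDimensional k L := Module.Finite.of_restrictScalars_finite ℚ k L
  have hfg := Grp_finite (W.baseChange L) (base_ne hW)
  rw [rank_eq, finrank_rat,
    parity_sub (selfDual_rat (rat (L ≃ₐ[k] L) (Grp (W.baseChange L)))) H N hNH hn hN hi]
  refine Finset.sum_congr rfl fun K _ => ?_
  rw [rank_fix, finrank_fixA]
  rfl

theorem rank_odd (W : WeierstrassCurve k) (hW : W.Δ ≠ 0)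
    (N : Subgroup (L ≃ₐ[k] L)) (hN : Odd (Nat.card N)) :
    (rank (W.baseChange L) : ZMod 2) =
      (rank (W.baseChange (IntermediateField.fixedField N)) : ZMod 2) := by
  have hfd : FiniteDimensional k L := Module.Finite.of_restrictScalars_finite ℚ k L
  have hfg := Grp_finite (W.baseChange L) (base_ne hW)
  rw [rank_eq, finrank_rat,
    odd_step (selfDual_rat (rat (L ≃ₐ[k] L) (Grp (W.baseChange L)))) N hN]
  rw [rank_fix, finrank_fixA]
  rfl

theorem rank_invol (W : WeierstrassCurve k) (hW : W.Δ ≠ 0)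
    {z : L ≃ₐ[k] L} (hz : z * z = 1)
    (hsq : z ∈ Subgroup.closure (Set.range fun g : L ≃ₐ[k] L => g ^ 2)) :
    (rank (W.baseChange L) : ZMod 2) =
      (rank (W.baseChange (IntermediateField.fixedField (Subgroup.zpowers z))) : ZMod 2) := by
  have hfd : FiniteDimensional k L := Module.Finite.of_restrictScalars_finite ℚ k L
  have hfg := Grp_finite (W.baseChange L) (base_ne hW)
  rw [rank_eq, finrank_rat,
    invol_parity (selfDual_rat (rat (L ≃ₐ[k] L) (Grp (W.baseChange L)))) hz hsq]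
  rw [rank_fix, finrank_fixA]
  rfl

end rank

end Pool.Agent.X156.SD
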