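import Pool.Agent.X156.PR.Par

/-!
# Self-dual representations over a field of characteristic zero: dimensions modulo two
-/

set_option autoImplicit false
set_option linter.unusedSectionVars false

namespace Pool.Agent.X156.SD

open Module LinearMap

variable {F : Type} [Field F] [CharZero F] {V : Type} [AddCommGroup V] [Module F V]

/-- the fixed vectors of an endomorphism -/
def fx (T : V →ₗ[F] V) : Submodule F V := LinearMap.ker (T - LinearMap.id)

theorem mem_fx {T : V →ₗ[F] V} {v : V} : v ∈ fx T ↔ T v = v := by
  unfold fx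
  rw [LinearMap.mem_ker, LinearMap.sub_apply, LinearMap.id_apply, sub_eq_zero]

section

variable [FiniteDimensional F V]

/-- the determinant of an involution -/
theorem det_invol (T : V →ₗ[F] V) (h2 : ∀ v, T (T v) = v) :
    LinearMap.det T = (-1) ^ (finrank F (V ⧸ fx T)) := by
  have he : fx T ≤ (fx T).comap T := by
    intro v hv
    rw [mem_fx] at hv
    rw [Submodule.mem_comap, mem_fx, hv, hv]
  rw [LinearMap.det_eq_det_mul_det (fx T) T he]
  have h1 : T.restrict he = LinearMap.id := by
    apply LinearMap.ext
    intro v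
    apply Subtype.ext
    exact mem_fx.1 v.2
  have h3 : (fx T).mapQ (fx T) T he = (-1 : F) • LinearMap.id := by
    apply LinearMap.ext
    intro x
    obtain ⟨v, rfl⟩ := Submodule.Quotient.mk_surjective _ x
    rw [Submodule.mapQ_apply, LinearMap.smul_apply, LinearMap.id_apply, neg_smul, one_smul,
      ← Submodule.Quotient.mk_neg, Submodule.Quotient.eq, mem_fx, sub_neg_eq_add, map_add, h2]
    exact add_comm _ _
  rw [h1, h3, LinearMap.det_id, one_mul, LinearMap.det_smul, LinearMap.det_id, mul_one]

/-- **Step of index two.** -/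
theorem invol_step (T : V →ₗ[F] V) (h2 : ∀ v, T (T v) = v) (hd : LinearMap.det T = 1) :
    (finrank F V : ZMod 2) = (finrank F (fx T) : ZMod 2) := by
  have h := det_invol T h2
  rw [hd] at h
  have he : Even (finrank F (V ⧸ fx T)) := by
    by_contra ho
    rw [Nat.not_even_iff_odd] at ho
    rw [ho.neg_one_pow] at h
    norm_num at h
  have h3 := Submodule.finrank_quotient_add_finrank (fx T)
  rw [← h3, Nat.cast_add, (ZMod.natCast_eq_zero_iff_even).2 he, zero_add]

theorem trace_invol (T : V →ₗ[F] V) (h2 : ∀ v, T (T v) = v) :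
    (LinearMap.trace F V) T = 2 * (finrank F (fx T) : F) - finrank F V := by
  have hp : LinearMap.IsProj (fx T) ((1 / 2 : F) • (LinearMap.id + T)) := by
    constructor
    · intro v
      rw [mem_fx]
      simp only [LinearMap.smul_apply, LinearMap.add_apply, LinearMap.id_apply, map_smul, map_add,
        h2]
      rw [add_comm]
    · intro v hv
      rw [mem_fx] at hv
      simp only [LinearMap.smul_apply, LinearMap.add_apply, LinearMap.id_apply, hv]
      rw [← two_smul F v, smul_smul]
      norm_num
  have h := hp.trace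
  rw [map_smul, map_add, LinearMap.trace_id, smul_eq_mul] at h
  have h3 : (2 : F) ≠ 0 := two_ne_zero
  field_simp at h
  linear_combination h

/-- two commuting involutions -/
theorem klein (A B : V →ₗ[F] V) (hA : ∀ v, A (A v) = v) (hB : ∀ v, B (B v) = v)
    (hAB : ∀ v, A (B v) = B (A v)) :
    (finrank F V : ZMod 2) = (finrank F (fx A) : ZMod 2) + (finrank F (fx B) : ZMod 2) +
      (finrank F (fx (A ∘ₗ B)) : ZMod 2) := by
  have hC : ∀ v, (A ∘ₗ B) ((A ∘ₗ B) v) = v := by
    intro v
    simp only [LinearMap.comp_apply]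
    rw [← hAB (B v), hB, hA]
  have h1 := trace_invol A hA
  have h2 := trace_invol B hB
  have h3 := trace_invol (A ∘ₗ B) hC
  have hp : LinearMap.IsProj (fx A ⊓ fx B)
      ((1 / 4 : F) • (LinearMap.id + A + B + A ∘ₗ B)) := by
    constructor
    · intro v
      rw [Submodule.mem_inf, mem_fx, mem_fx]
      constructor
      · simp only [LinearMap.smul_apply, LinearMap.add_apply, LinearMap.id_apply, map_smul, map_add,
          LinearMap.comp_apply, hA]
        congr 1
        abel
      · simp only [LinearMap.smul_apply, LinearMap.add_apply, LinearMap.id_apply, map_smul, map_add,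
          LinearMap.comp_apply, hB, ← hAB]
        congr 1
        abel
    · intro v hv
      rw [Submodule.mem_inf, mem_fx, mem_fx] at hv
      simp only [LinearMap.smul_apply, LinearMap.add_apply, LinearMap.id_apply,
        LinearMap.comp_apply, hv.1, hv.2]
      have : v + v + v + v = (4 : F) • v := by
        have h4 : (4 : F) = 1 + 1 + 1 + 1 := by norm_num
        rw [h4, add_smul, add_smul, add_smul, one_smul]
      rw [this, smul_smul]
      norm_num
  have h := hp.trace
  rw [map_smul, map_add, map_add, map_add, LinearMap.trace_id, smul_eq_mul, h1, h2, h3] at h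
  have key : (finrank F V : F) + 2 * (finrank F ↥(fx A ⊓ fx B) : F) =
      finrank F (fx A) + finrank F (fx B) + finrank F (fx (A ∘ₗ B)) := by
    have h4 : (4 : F) ≠ 0 := by norm_num
    have h5 : (2 : F) ≠ 0 := two_ne_zero
    have h6 : (1 / 4 : F) * 4 = 1 := by norm_num
    linear_combination (-2 : F) * h + ((finrank F (fx A) : F) + finrank F (fx B) + finrank F (fx (A ∘ₗ B)) - finrank F V) * h6
  have key2 : finrank F V + 2 * finrank F ↥(fx A ⊓ fx B) =
      finrank F (fx A) + finrank F (fx B) + finrank F (fx (A ∘ₗ B)) := by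
    exact_mod_cast key
  have h5 := congrArg (fun n : ℕ => (n : ZMod 2)) key2
  simp only [Nat.cast_add, Nat.cast_mul] at h5
  rw [← h5]
  have : ((2 : ℕ) : ZMod 2) = 0 := by decide
  rw [this, zero_mul, add_zero]

/-- the trace of an endomorphism of finite order is an algebraic integer -/
theorem trace_integral (T : V →ₗ[F] V) {m : ℕ} (hm : 0 < m) (hT : T ^ m = 1) :
    IsIntegral ℤ ((LinearMap.trace F V) T) := by
  classical
  set b := Module.finBasis F V
  set M := LinearMap.toMatrix b b T with hM
  have hMm : M ^ m = 1 := by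
    rw [hM, LinearMap.toMatrix_pow, hT, LinearMap.toMatrix_one]
  set Ω := AlgebraicClosure F
  set M' := M.map (algebraMap F Ω) with hM'
  have hM'm : M' ^ m = 1 := by
    have h := congrArg (fun X : Matrix _ _ F => X.map (algebraMap F Ω)) hMm
    simp only [Matrix.map_pow] at h
    rw [hM', h]
    exact Matrix.map_one _ (map_zero _) (map_one _)
  have htr : algebraMap F Ω ((LinearMap.trace F V) T) = (M'.charpoly.roots).sum := by
    rw [← Matrix.trace_eq_sum_roots_charpoly, LinearMap.trace_eq_matrix_trace F b T, hM',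
      ← hM]
    simp only [Matrix.trace, Matrix.diag, Matrix.map_apply, map_sum]
  have hint : IsIntegral ℤ (M'.charpoly.roots).sum := by
    apply IsIntegral.multiset_sum
    intro μ hμ
    have hμ2 : M'.charpoly.IsRoot μ := Polynomial.isRoot_of_mem_roots hμ
    have hμ3 : Module.End.HasEigenvalue (Matrix.toLin' M') μ := by
      rw [Module.End.hasEigenvalue_iff_isRoot_charpoly, Matrix.charpoly_toLin']
      exact hμ2
    obtain ⟨v, hv⟩ := hμ3.exists_hasEigenvector
    have h4 : (Matrix.toLin' M') ^ m = 1 := by
      rw [← Matrix.toLin'_pow, hM'm]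
      exact Matrix.toLin'_one
    have h5 := hv.pow_apply m
    rw [h4] at h5
    have h6 : μ ^ m = 1 := by
      have h7 : (μ ^ m - 1) • v = 0 := by
        rw [sub_smul, one_smul, ← h5]
        simp
      rcases smul_eq_zero.1 h7 with h8 | h8
      · exact sub_eq_zero.1 h8
      · exact absurd h8 hv.2
    exact IsIntegral.of_pow hm (by rw [h6]; exact isIntegral_one)
  rw [← htr] at hint
  exact (isIntegral_algebraMap_iff (algebraMap F Ω).injective).1 hint

end

section sd

variable {G : Type} [Group G]

/-- a representation with a nondegenerate invariant bilinear form -/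
def SelfDual (ρ : G →* (V →ₗ[F] V)) : Prop :=
  ∃ B : V →ₗ[F] V →ₗ[F] F, (∀ g v w, B (ρ g v) (ρ g w) = B v w) ∧
    ∀ v, (∀ w, B v w = 0) → v = 0

variable [FiniteDimensional F V]

theorem form_matrix {ρ : G →* (V →ₗ[F] V)} (h : SelfDual ρ) :
    ∃ P : Matrix (Fin (finrank F V)) (Fin (finrank F V)) F, IsUnit P.det ∧
      ∀ g, (LinearMap.toMatrix (Module.finBasis F V) (Module.finBasis F V) (ρ g)).transpose * P *
        LinearMap.toMatrix (Module.finBasis F V) (Module.finBasis F V) (ρ g) = P := by
  classical
  obtain ⟨B, h1, h2⟩ := h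
  set b := Module.finBasis F V
  refine ⟨LinearMap.BilinForm.toMatrix b B, ?_, ?_⟩
  · rw [isUnit_iff_ne_zero, ← LinearMap.BilinForm.nondegenerate_iff_det_ne_zero]
    refine LinearMap.BilinForm.Nondegenerate.ofSeparatingLeft ?_
    intro v hv
    exact h2 v hv
  · intro g
    have h3 := LinearMap.BilinForm.toMatrix_comp b b B (ρ g) (ρ g)
    rw [← h3]
    congr 1
    apply LinearMap.ext
    intro v
    apply LinearMap.ext
    intro w
    exact h1 g v w

theorem det_sq {ρ : G →* (V →ₗ[F] V)} (h : SelfDual ρ) (g : G) :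
    LinearMap.det (ρ (g ^ 2)) = 1 := by
  classical
  obtain ⟨P, hP, hg⟩ := form_matrix h
  have h1 := congrArg Matrix.det (hg g)
  rw [Matrix.det_mul, Matrix.det_mul, Matrix.det_transpose, LinearMap.det_toMatrix] at h1
  have h2 : LinearMap.det (ρ g) * LinearMap.det (ρ g) = 1 := by
    apply hP.mul_right_cancel
    rw [one_mul]
    linear_combination h1
  rw [pow_two, map_mul, map_mul, h2]

theorem trace_inv {ρ : G →* (V →ₗ[F] V)} (hs : SelfDual ρ) (h : G) :
    (LinearMap.trace F V) (ρ h⁻¹) = (LinearMap.trace F V) (ρ h) := by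
  classical
  obtain ⟨P, hdet, hinv⟩ := form_matrix hs
  set b := Module.finBasis F V
  set M : G → Matrix (Fin (finrank F V)) (Fin (finrank F V)) F :=
    fun g => LinearMap.toMatrix b b (ρ g) with hM
  have hmul : ∀ g k, M (g * k) = M g * M k := by
    intro g k
    simp only [hM, map_mul]
    rw [LinearMap.toMatrix_mul]
  have hone : M 1 = 1 := by
    simp only [hM, map_one]
    exact LinearMap.toMatrix_one b
  have hinv' : (M h).transpose * P * M h = P := hinv h
  have h5 : M h * M h⁻¹ = 1 := by rw [← hmul, mul_inv_cancel, hone]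
  have h6 : (M h).transpose = P * M h⁻¹ * P⁻¹ := by
    calc (M h).transpose = (M h).transpose * (P * (M h * M h⁻¹)) * P⁻¹ := by
          rw [h5, Matrix.mul_one, Matrix.mul_assoc, Matrix.mul_nonsing_inv _ hdet, Matrix.mul_one]
      _ = ((M h).transpose * P * M h) * M h⁻¹ * P⁻¹ := by simp only [Matrix.mul_assoc]
      _ = P * M h⁻¹ * P⁻¹ := by rw [hinv']
  rw [LinearMap.trace_eq_matrix_trace F b, LinearMap.trace_eq_matrix_trace F b]
  change Matrix.trace (M h⁻¹) = Matrix.trace (M h)
  rw [← Matrix.trace_transpose (M h), h6, Matrix.trace_mul_comm, ← Matrix.mul_assoc,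
    Matrix.nonsing_inv_mul _ hdet, Matrix.one_mul]

end sd

end Pool.Agent.X156.SD
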