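import Pool.Agent.X156.SD.Dual

/-!
# The dual of an irreducible representation
-/

set_option autoImplicit false
set_option linter.unusedSectionVars false

namespace Pool.Agent.X156.SD

open Module LinearMap Matrix

variable {G : Type} [Group G] (D : Irr G)

/-- the dual representation on the group algebra -/
noncomputable def Irr.dualAlg (i : Fin D.r) :
    MonoidAlgebra ℂ G →ₐ[ℂ] Matrix (Fin (D.d i)) (Fin (D.d i)) ℂ :=
  MonoidAlgebra.lift ℂ _ G
    { toFun := fun g => (D.mat i g⁻¹).transpose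
      map_one' := by rw [inv_one, map_one, Matrix.transpose_one]
      map_mul' := fun a b => by
        rw [_root_.mul_inv_rev, map_mul, Matrix.transpose_mul] }

theorem Irr.dualAlg_of (i : Fin D.r) (g : G) :
    D.dualAlg i (MonoidAlgebra.of ℂ G g) = (D.mat i g⁻¹).transpose := by
  unfold Irr.dualAlg
  rw [MonoidAlgebra.lift_of]
  rfl

theorem Irr.dualAlg_surj (i : Fin D.r) : Function.Surjective (D.dualAlg i) := by
  classical
  have h1 : ∀ y : MonoidAlgebra ℂ G, ∃ x, D.dualAlg i x = (D.e y i).transpose := by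
    intro y
    induction y using MonoidAlgebra.induction_on with
    | of g =>
      refine ⟨MonoidAlgebra.of ℂ G g⁻¹, ?_⟩
      rw [D.dualAlg_of, inv_inv]
      rfl
    | add x y hx hy =>
      obtain ⟨a, ha⟩ := hx
      obtain ⟨b, hb⟩ := hy
      exact ⟨a + b, by rw [map_add, ha, hb, map_add, Pi.add_apply, Matrix.transpose_add]⟩
    | smul c x hx =>
      obtain ⟨a, ha⟩ := hx
      exact ⟨c • a, by rw [map_smul, ha, map_smul, Pi.smul_apply, Matrix.transpose_smul]⟩
  intro M
  obtain ⟨x, hx⟩ := h1 (D.e.symm (Pi.single i M.transpose))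
  refine ⟨x, ?_⟩
  rw [hx, AlgEquiv.apply_symm_apply, Pi.single_eq_same, Matrix.transpose_transpose]

/-- **The dual of an irreducible representation is irreducible.** -/
theorem Irr.exists_dual (i : Fin D.r) : ∃ (j : Fin D.r)
    (X : (Fin (D.d j) → ℂ) ≃ₗ[ℂ] (Fin (D.d i) → ℂ)), ∀ (g : G) (v : Fin (D.d j) → ℂ),
      X ((D.mat j g).mulVec v) = (D.mat i g⁻¹).transpose.mulVec (X v) := by
  classical
  set ψ : ((j : Fin D.r) → Matrix (Fin (D.d j)) (Fin (D.d j)) ℂ) →ₐ[ℂ]
      Matrix (Fin (D.d i)) (Fin (D.d i)) ℂ :=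
    (D.dualAlg i).comp (D.e.symm : _ →ₐ[ℂ] MonoidAlgebra ℂ G) with hψ
  have hψs : Function.Surjective ψ := (D.dualAlg_surj i).comp D.e.symm.surjective
  have hψg : ∀ g, ψ (D.e (MonoidAlgebra.of ℂ G g)) = (D.mat i g⁻¹).transpose := by
    intro g
    change D.dualAlg i (D.e.symm (D.e (MonoidAlgebra.of ℂ G g))) = _
    rw [AlgEquiv.symm_apply_apply, D.dualAlg_of]
  -- a nonzero matrix unit
  have h1 : ∃ (j : Fin D.r) (a : Fin (D.d j)),
      ψ (Pi.single j (Matrix.single a a (1 : ℂ))) ≠ 0 := by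
    by_contra hcon
    push Not at hcon
    have h2 : (1 : (j : Fin D.r) → Matrix (Fin (D.d j)) (Fin (D.d j)) ℂ) =
        ∑ j, ∑ a, Pi.single j (Matrix.single a a (1 : ℂ)) := by
      funext l
      rw [Finset.sum_apply, Finset.sum_eq_single l]
      · rw [Finset.sum_apply]
        simp only [Pi.single_eq_same]
        rw [Matrix.sum_single_one]
        rfl
      · intro j _ hj
        rw [Finset.sum_apply]
        exact Finset.sum_eq_zero fun a _ => Pi.single_eq_of_ne hj.symm _
      · intro h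
        exact absurd (Finset.mem_univ _) h
    have h3 : ψ 1 = 0 := by
      rw [h2, map_sum]
      refine Finset.sum_eq_zero fun j _ => ?_
      rw [map_sum]
      exact Finset.sum_eq_zero fun a _ => hcon j a
    rw [map_one] at h3
    have h4 := D.pos i
    have h5 := congrFun (congrFun h3 ⟨0, h4⟩) ⟨0, h4⟩
    rw [Matrix.one_apply_eq, Matrix.zero_apply] at h5
    exact one_ne_zero h5
  obtain ⟨j, a, hja⟩ := h1
  obtain ⟨u, hu⟩ : ∃ u, (ψ (Pi.single j (Matrix.single a a (1 : ℂ)))).mulVec u ≠ 0 := by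
    by_contra hcon
    push Not at hcon
    apply hja
    exact Matrix.ext_of_mulVec_single fun b => by rw [hcon, Matrix.zero_mulVec]
  -- the map
  set X : (Fin (D.d j) → ℂ) →ₗ[ℂ] (Fin (D.d i) → ℂ) :=
    { toFun := fun v => (ψ (Pi.single j (Matrix.vecMulVec v (Pi.single a 1)))).mulVec u
      map_add' := fun v w => by
        rw [Matrix.add_vecMulVec, Pi.single_add, map_add, Matrix.add_mulVec]
      map_smul' := fun c v => by
        rw [Matrix.smul_vecMulVec, Pi.single_smul, map_smul, Matrix.smul_mulVec]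
        rfl } with hX
  have hXv : ∀ v, X v = (ψ (Pi.single j (Matrix.vecMulVec v (Pi.single a 1)))).mulVec u :=
    fun _ => rfl
  have key : ∀ (A : (j : Fin D.r) → Matrix (Fin (D.d j)) (Fin (D.d j)) ℂ) (v : Fin (D.d j) → ℂ),
      X ((A j).mulVec v) = (ψ A).mulVec (X v) := by
    intro A v
    rw [hXv, hXv, Matrix.mulVec_mulVec, ← map_mul]
    congr 2
    funext l
    by_cases hl : l = j
    · subst hl
      rw [Pi.mul_apply, Pi.single_eq_same, Pi.single_eq_same, Matrix.mul_vecMulVec]
    · rw [Pi.mul_apply, Pi.single_eq_of_ne hl, Pi.single_eq_of_ne hl, mul_zero]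
  have hXa : X (Pi.single a 1) ≠ 0 := by
    rw [hXv]
    rw [← Matrix.single_eq_single_vecMulVec_single]
    exact hu
  have hinj : Function.Injective X := by
    rw [injective_iff_map_eq_zero]
    intro v hv
    by_contra hv0
    obtain ⟨b, hb⟩ : ∃ b, v b ≠ 0 := by
      by_contra hcon
      push Not at hcon
      exact hv0 (funext hcon)
    apply hXa
    have h6 := key (Pi.single j (Matrix.single a b (v b)⁻¹)) v
    rw [Pi.single_eq_same, hv, Matrix.mulVec_zero, Matrix.single_mulVec, inv_mul_cancel₀ hb] at h6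
    exact h6
  have hsurj : Function.Surjective X := by
    intro w
    obtain ⟨b, hb⟩ : ∃ b, X (Pi.single a 1) b ≠ 0 := by
      by_contra hcon
      push Not at hcon
      exact hXa (funext hcon)
    obtain ⟨A, hA⟩ := hψs (Matrix.vecMulVec w (Pi.single b (X (Pi.single a 1) b)⁻¹))
    refine ⟨(A j).mulVec (Pi.single a 1), ?_⟩
    rw [key, hA, Matrix.vecMulVec_mulVec]
    rw [single_dotProduct, inv_mul_cancel₀ hb]
    simp
  refine ⟨j, LinearEquiv.ofBijective X ⟨hinj, hsurj⟩, ?_⟩
  intro g v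
  have h7 := key (D.e (MonoidAlgebra.of ℂ G g)) v
  rw [hψg] at h7
  exact h7

/-- the index of the dual representation -/
noncomputable def Irr.star (i : Fin D.r) : Fin D.r := (D.exists_dual i).choose

theorem Irr.star_spec (i : Fin D.r) :
    ∃ X : (Fin (D.d (D.star i)) → ℂ) ≃ₗ[ℂ] (Fin (D.d i) → ℂ),
      ∀ (g : G) (v : Fin (D.d (D.star i)) → ℂ),
        X ((D.mat (D.star i) g).mulVec v) = (D.mat i g⁻¹).transpose.mulVec (X v) :=
  (D.exists_dual i).choose_spec

theorem Irr.chr_star (i : Fin D.r) (g : G) : D.chr (D.star i) g = D.chr i g⁻¹ := by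
  classical
  obtain ⟨X, hX⟩ := D.star_spec i
  have h1 : X.conj (Matrix.toLin' (D.mat (D.star i) g)) =
      Matrix.toLin' (D.mat i g⁻¹).transpose := by
    apply LinearMap.ext
    intro v
    rw [LinearEquiv.conj_apply_apply]
    change X ((D.mat (D.star i) g).mulVec (X.symm v)) = (D.mat i g⁻¹).transpose.mulVec v
    rw [hX, LinearEquiv.apply_symm_apply]
  have h2 := congrArg (LinearMap.trace ℂ _) h1
  rw [LinearMap.trace_conj', Matrix.trace_toLin'_eq, Matrix.trace_toLin'_eq,
    Matrix.trace_transpose] at h2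
  exact h2

theorem Irr.star_star (i : Fin D.r) : D.star (D.star i) = i := by
  apply D.chr_inj
  intro g
  rw [D.chr_star, D.chr_star, inv_inv]

theorem Irr.selfDual {i : Fin D.r} (h : D.star i = i) : SelfDual (D.rep i) := by
  classical
  have h0 := D.star_spec i
  rw [h] at h0
  obtain ⟨X, hX⟩ := h0
  refine ⟨(dotProductBilin ℂ ℂ) ∘ₗ (X : (Fin (D.d i) → ℂ) →ₗ[ℂ] (Fin (D.d i) → ℂ)), ?_, ?_⟩
  · intro g v w
    change X ((D.mat i g).mulVec v) ⬝ᵥ ((D.mat i g).mulVec w) = X v ⬝ᵥ w
    rw [hX, Matrix.mulVec_transpose, ← Matrix.dotProduct_mulVec, Matrix.mulVec_mulVec, ← map_mul,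
      inv_mul_cancel, map_one, Matrix.one_mulVec]
  · intro v hv
    have h1 : X v = 0 := by
      funext a
      have h2 := hv (Pi.single a 1)
      change X v ⬝ᵥ Pi.single a 1 = 0 at h2
      rw [dotProduct_single, mul_one] at h2
      exact h2
    exact (map_eq_zero_iff X X.injective).1 h1

theorem Irr.dim_star [Finite G] (i : Fin D.r) (H : Subgroup G) :
    finrank ℂ (fixS (D.rep (D.star i)) H) = finrank ℂ (fixS (D.rep i) H) := by
  classical
  have : Fintype G := Fintype.ofFinite G
  have : Fintype H := Fintype.ofFinite H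
  have hc : (Nat.card H : ℂ) ≠ 0 := by exact_mod_cast Nat.card_pos.ne'
  have h1 := card_mul_fix (D.rep (D.star i)) H
  have h2 := card_mul_fix (D.rep i) H
  have h3 : ∑ n : H, (LinearMap.trace ℂ _) (D.rep (D.star i) n) =
      ∑ n : H, (LinearMap.trace ℂ _) (D.rep i n) := by
    refine Fintype.sum_equiv (Equiv.inv H) _ _ fun n => ?_
    rw [D.trace_rep, D.trace_rep, D.chr_star]
    rfl
  rw [h3, ← h2] at h1
  exact_mod_cast mul_left_cancel₀ hc h1

end Pool.Agent.X156.SD
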