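import Pool.Agent.X156.SD.Bk

/-!
# Complex conjugation on the irreducible representations
-/

set_option autoImplicit false
set_option linter.unusedSectionVars false
set_option maxHeartbeats 1000000

namespace Pool.Agent.X156.SD

open Module LinearMap Matrix

section irr

variable {G : Type} [Group G] (D : Irr G)

/-- every irreducible matrix representation occurs -/
theorem Irr.exists_iso {n : ℕ} (hn : 0 < n)
    (φ : MonoidAlgebra ℂ G →ₐ[ℂ] Matrix (Fin n) (Fin n) ℂ) (hφ : Function.Surjective φ) :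
    ∃ (j : Fin D.r) (X : (Fin (D.d j) → ℂ) ≃ₗ[ℂ] (Fin n → ℂ)), ∀ (g : G)
      (v : Fin (D.d j) → ℂ),
      X ((D.mat j g).mulVec v) = (φ (MonoidAlgebra.of ℂ G g)).mulVec (X v) := by
  classical
  set ψ : ((j : Fin D.r) → Matrix (Fin (D.d j)) (Fin (D.d j)) ℂ) →ₐ[ℂ]
      Matrix (Fin n) (Fin n) ℂ :=
    φ.comp (D.e.symm : _ →ₐ[ℂ] MonoidAlgebra ℂ G) with hψ
  have hψs : Function.Surjective ψ := hφ.comp D.e.symm.surjective
  have hψg : ∀ g, ψ (D.e (MonoidAlgebra.of ℂ G g)) = φ (MonoidAlgebra.of ℂ G g) := by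
    intro g
    change φ (D.e.symm (D.e (MonoidAlgebra.of ℂ G g))) = _
    rw [AlgEquiv.symm_apply_apply]
  -- a nonzero matrix unit
  have h1 : ∃ (j : Fin D.r) (a : Fin (D.d j)),
      ψ (Pi.single j (Matrix.single a a (1 : ℂ))) ≠ 0 := by
    by_contra hcon
    push Not at hcon
    have h2 : (1 : (j : Fin D.r) → Matrix (Fin (D.d j)) (Fin (D.d j)) ℂ) =
        ∑ j, ∑ a, Pi.single j (Matrix.single a a (1 : ℂ)) := by
      funext l
      rw [Finset.sum_apply, Finset.sum_eq_single l]
      · rw [Finset.sum_apply]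
        simp only [Pi.single_eq_same]
        rw [Matrix.sum_single_one]
        rfl
      · intro j _ hj
        rw [Finset.sum_apply]
        exact Finset.sum_eq_zero fun a _ => Pi.single_eq_of_ne hj.symm _
      · intro h
        exact absurd (Finset.mem_univ _) h
    have h3 : ψ 1 = 0 := by
      rw [h2, map_sum]
      refine Finset.sum_eq_zero fun j _ => ?_
      rw [map_sum]
      exact Finset.sum_eq_zero fun a _ => hcon j a
    rw [map_one] at h3
    have h4 := hn
    have h5 := congrFun (congrFun h3 ⟨0, h4⟩) ⟨0, h4⟩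
    rw [Matrix.one_apply_eq, Matrix.zero_apply] at h5
    exact one_ne_zero h5
  obtain ⟨j, a, hja⟩ := h1
  obtain ⟨u, hu⟩ : ∃ u, (ψ (Pi.single j (Matrix.single a a (1 : ℂ)))).mulVec u ≠ 0 := by
    by_contra hcon
    push Not at hcon
    apply hja
    exact Matrix.ext_of_mulVec_single fun b => by rw [hcon, Matrix.zero_mulVec]
  -- the map
  set X : (Fin (D.d j) → ℂ) →ₗ[ℂ] (Fin n → ℂ) :=
    { toFun := fun v => (ψ (Pi.single j (Matrix.vecMulVec v (Pi.single a 1)))).mulVec u
      map_add' := fun v w => by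
        rw [Matrix.add_vecMulVec, Pi.single_add, map_add, Matrix.add_mulVec]
      map_smul' := fun c v => by
        rw [Matrix.smul_vecMulVec, Pi.single_smul, map_smul, Matrix.smul_mulVec]
        rfl } with hX
  have hXv : ∀ v, X v = (ψ (Pi.single j (Matrix.vecMulVec v (Pi.single a 1)))).mulVec u :=
    fun _ => rfl
  have key : ∀ (A : (j : Fin D.r) → Matrix (Fin (D.d j)) (Fin (D.d j)) ℂ) (v : Fin (D.d j) → ℂ),
      X ((A j).mulVec v) = (ψ A).mulVec (X v) := by
    intro A v
    rw [hXv, hXv, Matrix.mulVec_mulVec, ← map_mul]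
    congr 2
    funext l
    by_cases hl : l = j
    · subst hl
      rw [Pi.mul_apply, Pi.single_eq_same, Pi.single_eq_same, Matrix.mul_vecMulVec]
    · rw [Pi.mul_apply, Pi.single_eq_of_ne hl, Pi.single_eq_of_ne hl, mul_zero]
  have hXa : X (Pi.single a 1) ≠ 0 := by
    rw [hXv]
    rw [← Matrix.single_eq_single_vecMulVec_single]
    exact hu
  have hinj : Function.Injective X := by
    rw [injective_iff_map_eq_zero]
    intro v hv
    by_contra hv0
    obtain ⟨b, hb⟩ : ∃ b, v b ≠ 0 := by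
      by_contra hcon
      push Not at hcon
      exact hv0 (funext hcon)
    apply hXa
    have h6 := key (Pi.single j (Matrix.single a b (v b)⁻¹)) v
    rw [Pi.single_eq_same, hv, Matrix.mulVec_zero, Matrix.single_mulVec, inv_mul_cancel₀ hb] at h6
    exact h6
  have hsurj : Function.Surjective X := by
    intro w
    obtain ⟨b, hb⟩ : ∃ b, X (Pi.single a 1) b ≠ 0 := by
      by_contra hcon
      push Not at hcon
      exact hXa (funext hcon)
    obtain ⟨A, hA⟩ := hψs (Matrix.vecMulVec w (Pi.single b (X (Pi.single a 1) b)⁻¹))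
    refine ⟨(A j).mulVec (Pi.single a 1), ?_⟩
    rw [key, hA, Matrix.vecMulVec_mulVec]
    rw [single_dotProduct, inv_mul_cancel₀ hb]
    simp
  refine ⟨j, LinearEquiv.ofBijective X ⟨hinj, hsurj⟩, ?_⟩
  intro g v
  have h7 := key (D.e (MonoidAlgebra.of ℂ G g)) v
  rw [hψg] at h7
  exact h7

/-- the conjugate of the dual representation on the group algebra -/
noncomputable def Irr.tAlg (θ : G ≃* G) (i : Fin D.r) :
    MonoidAlgebra ℂ G →ₐ[ℂ] Matrix (Fin (D.d i)) (Fin (D.d i)) ℂ :=
  MonoidAlgebra.lift ℂ _ G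
    { toFun := fun g => (D.mat i (θ g)⁻¹).transpose
      map_one' := by rw [map_one, inv_one, map_one, Matrix.transpose_one]
      map_mul' := fun a b => by
        rw [map_mul, _root_.mul_inv_rev, map_mul, Matrix.transpose_mul] }

theorem Irr.tAlg_of (θ : G ≃* G) (i : Fin D.r) (g : G) :
    D.tAlg θ i (MonoidAlgebra.of ℂ G g) = (D.mat i (θ g)⁻¹).transpose := by
  unfold Irr.tAlg
  rw [MonoidAlgebra.lift_of]
  rfl

theorem Irr.tAlg_surj (θ : G ≃* G) (i : Fin D.r) : Function.Surjective (D.tAlg θ i) := by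
  classical
  have h1 : ∀ y : MonoidAlgebra ℂ G, ∃ x, D.tAlg θ i x = (D.e y i).transpose := by
    intro y
    induction y using MonoidAlgebra.induction_on with
    | of g =>
      refine ⟨MonoidAlgebra.of ℂ G (θ.symm g⁻¹), ?_⟩
      rw [D.tAlg_of, MulEquiv.apply_symm_apply, inv_inv]
      rfl
    | add x y hx hy =>
      obtain ⟨a, ha⟩ := hx
      obtain ⟨b, hb⟩ := hy
      exact ⟨a + b, by rw [map_add, ha, hb, map_add, Pi.add_apply, Matrix.transpose_add]⟩
    | smul c x hx =>
      obtain ⟨a, ha⟩ := hx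
      exact ⟨c • a, by rw [map_smul, ha, map_smul, Pi.smul_apply, Matrix.transpose_smul]⟩
  intro M
  obtain ⟨x, hx⟩ := h1 (D.e.symm (Pi.single i M.transpose))
  refine ⟨x, ?_⟩
  rw [hx, AlgEquiv.apply_symm_apply, Pi.single_eq_same, Matrix.transpose_transpose]

theorem Irr.exists_tstar (θ : G ≃* G) (i : Fin D.r) :
    ∃ j : Fin D.r, ∀ g, D.chr j g = D.chr i (θ g)⁻¹ := by
  classical
  obtain ⟨j, X, hX⟩ := D.exists_iso (D.pos i) (D.tAlg θ i) (D.tAlg_surj θ i)
  refine ⟨j, fun g => ?_⟩
  have h1 : X.conj (Matrix.toLin' (D.mat j g)) =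
      Matrix.toLin' (D.mat i (θ g)⁻¹).transpose := by
    apply LinearMap.ext
    intro v
    rw [LinearEquiv.conj_apply_apply]
    change X ((D.mat j g).mulVec (X.symm v)) = (D.mat i (θ g)⁻¹).transpose.mulVec v
    rw [hX, LinearEquiv.apply_symm_apply, D.tAlg_of]
  have h2 := congrArg (LinearMap.trace ℂ _) h1
  rw [LinearMap.trace_conj', Matrix.trace_toLin'_eq, Matrix.trace_toLin'_eq,
    Matrix.trace_transpose] at h2
  exact h2

/-- the index of the conjugate of the dual representation -/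
noncomputable def Irr.tstar (θ : G ≃* G) (i : Fin D.r) : Fin D.r := (D.exists_tstar θ i).choose

theorem Irr.chr_tstar (θ : G ≃* G) (i : Fin D.r) (g : G) :
    D.chr (D.tstar θ i) g = D.chr i (θ g)⁻¹ := (D.exists_tstar θ i).choose_spec g

theorem Irr.tstar_tstar (θ : G ≃* G) (hθ : ∀ g, θ (θ g) = g) (i : Fin D.r) :
    D.tstar θ (D.tstar θ i) = i := by
  apply D.chr_inj
  intro g
  rw [D.chr_tstar, D.chr_tstar, map_inv, inv_inv, hθ]

theorem Irr.dim_tstar [Finite G] (θ : G ≃* G) (hθ : ∀ g, θ (θ g) = g) (i : Fin D.r)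
    (H : Subgroup G) (hH : ∀ h ∈ H, θ h ∈ H) :
    finrank ℂ (fixS (D.rep (D.tstar θ i)) H) = finrank ℂ (fixS (D.rep i) H) := by
  classical
  have : Fintype G := Fintype.ofFinite G
  have : Fintype H := Fintype.ofFinite H
  have hc : (Nat.card H : ℂ) ≠ 0 := by exact_mod_cast Nat.card_pos.ne'
  have h1 := card_mul_fix (D.rep (D.tstar θ i)) H
  have h2 := card_mul_fix (D.rep i) H
  have h3 : ∑ n : H, (LinearMap.trace ℂ _) (D.rep (D.tstar θ i) n) =
      ∑ n : H, (LinearMap.trace ℂ _) (D.rep i n) := by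
    let e : H ≃ H :=
      { toFun := fun n => ⟨(θ n)⁻¹, H.inv_mem (hH n n.2)⟩
        invFun := fun n => ⟨(θ n)⁻¹, H.inv_mem (hH n n.2)⟩
        left_inv := fun n => Subtype.ext (by
          change (θ (θ (n : G))⁻¹)⁻¹ = n
          rw [map_inv, inv_inv, hθ])
        right_inv := fun n => Subtype.ext (by
          change (θ (θ (n : G))⁻¹)⁻¹ = n
          rw [map_inv, inv_inv, hθ]) }
    refine Fintype.sum_equiv e _ _ fun n => ?_
    rw [D.trace_rep, D.trace_rep, D.chr_tstar]
    rfl
  rw [h3, ← h2] at h1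
  exact_mod_cast mul_left_cancel₀ hc h1

/-- the matrices span -/
theorem Irr.span_mat (i : Fin D.r) (p : Matrix (Fin (D.d i)) (Fin (D.d i)) ℂ → Prop)
    (h1 : ∀ g, p (D.mat i g)) (h2 : ∀ A B, p A → p B → p (A + B)) (h3 : ∀ (c : ℂ) A, p A → p (c • A))
    (A : Matrix (Fin (D.d i)) (Fin (D.d i)) ℂ) : p A := by
  classical
  have h4 : ∀ x : MonoidAlgebra ℂ G, p (D.e x i) := by
    intro x
    induction x using MonoidAlgebra.induction_on with
    | of g => exact h1 g
    | add x y hx hy =>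
      rw [map_add]
      exact h2 _ _ hx hy
    | smul c x hx =>
      rw [map_smul]
      exact h3 _ _ hx
  have h5 := h4 (D.e.symm (Pi.single i A))
  rwa [AlgEquiv.apply_symm_apply, Pi.single_eq_same] at h5

end irr

/-- `R ⊗ τ` has a nonzero invariant vector -/
def HasInvariant {G : Type} [Group G] {R : Type} [AddCommGroup R] [Module ℂ R]
    (r : G →* (R →ₗ[ℂ] R)) {m : ℕ} (τ : G →* Matrix (Fin m) (Fin m) ℂ) : Prop :=
  ∃ f : Fin m → R, f ≠ 0 ∧ ∀ g a, ∑ b, τ g a b • r g (f b) = f a

section inv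

variable {G : Type} [Group G] [Finite G] (D : Irr G) {R : Type} [AddCommGroup R] [Module ℂ R]
  [FiniteDimensional ℂ R] (r : G →* (R →ₗ[ℂ] R))

theorem no_invariant (i : Fin D.r) (H : Subgroup G) (h1 : finrank ℂ (fixS (D.rep i) H) ≠ 0)
    (h2 : finrank ℂ (fixS r H) = 0) : ¬ HasInvariant r (D.mat i) := by
  classical
  rintro ⟨f, hf0, hf⟩
  rw [← D.dim_star] at h1
  have h3 : fixS (D.rep (D.star i)) H ≠ ⊥ := by
    intro h4
    rw [h4, finrank_bot] at h1
    exact h1 rfl
  obtain ⟨u, hu, hu0⟩ := Submodule.exists_mem_ne_zero_of_ne_bot h3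
  obtain ⟨X, hX⟩ := D.star_spec i
  set w := X u with hw
  have hw0 : w ≠ 0 := (map_ne_zero_iff X X.injective).2 hu0
  have hwH : ∀ h ∈ H, (D.mat i h⁻¹).transpose.mulVec w = w := by
    intro h hh
    rw [hw, ← hX]
    congr 1
    exact hu h hh
  have hrf : ∀ g b, r g (f b) = ∑ a, D.mat i g⁻¹ b a • f a := by
    intro g b
    have h4 := hf g⁻¹ b
    have h5 := congrArg (r g) h4
    rw [map_sum] at h5
    rw [← h5]
    refine Finset.sum_congr rfl fun a _ => ?_
    rw [map_smul]
    congr 1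
    change (r g * r g⁻¹) (f a) = f a
    rw [← map_mul, mul_inv_cancel, map_one]
    rfl
  have key : ∀ (g : G) (w' : Fin (D.d i) → ℂ), r g (∑ b, w' b • f b) =
      ∑ a, ((D.mat i g⁻¹).transpose.mulVec w') a • f a := by
    intro g w'
    rw [map_sum]
    have h4 : ∀ b, r g (w' b • f b) = ∑ a, (w' b * D.mat i g⁻¹ b a) • f a := by
      intro b
      rw [map_smul, hrf, Finset.smul_sum]
      exact Finset.sum_congr rfl fun a _ => by rw [smul_smul]
    rw [Finset.sum_congr rfl fun b _ => h4 b, Finset.sum_comm]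
    refine Finset.sum_congr rfl fun a _ => ?_
    rw [← Finset.sum_smul]
    congr 1
    rw [Matrix.mulVec, dotProduct]
    exact Finset.sum_congr rfl fun b _ => by rw [Matrix.transpose_apply, mul_comm]
  set y := ∑ b, w b • f b with hy
  have hyH : y ∈ fixS r H := by
    intro h hh
    rw [hy, key, hwH h hh]
  have hy0 : y = 0 := by
    have h4 : fixS r H = ⊥ := Submodule.finrank_eq_zero.1 h2
    rw [h4] at hyH
    exact hyH
  have hall : ∀ A : Matrix (Fin (D.d i)) (Fin (D.d i)) ℂ,
      ∑ a, (A.transpose.mulVec w) a • f a = 0 := by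
    intro A
    refine D.span_mat i (fun A => ∑ a, (A.transpose.mulVec w) a • f a = 0) ?_ ?_ ?_ A
    · intro g
      have h4 := key g⁻¹ w
      rw [← hy, hy0, map_zero, inv_inv] at h4
      exact h4.symm
    · intro A B hA hB
      change ∑ a, ((A + B).transpose.mulVec w) a • f a = 0
      rw [Matrix.transpose_add, Matrix.add_mulVec]
      have h4 : ∀ a, (A.transpose.mulVec w + B.transpose.mulVec w) a • f a =
          (A.transpose.mulVec w) a • f a + (B.transpose.mulVec w) a • f a := fun a => by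
        rw [Pi.add_apply, add_smul]
      rw [Finset.sum_congr rfl fun a _ => h4 a, Finset.sum_add_distrib, hA, hB, add_zero]
    · intro c A hA
      change ∑ a, ((c • A).transpose.mulVec w) a • f a = 0
      rw [Matrix.transpose_smul, Matrix.smul_mulVec]
      have h4 : ∀ a, (c • A.transpose.mulVec w) a • f a =
          c • ((A.transpose.mulVec w) a • f a) := fun a => by
        rw [Pi.smul_apply, smul_eq_mul, smul_smul]
      rw [Finset.sum_congr rfl fun a _ => h4 a, ← Finset.smul_sum, hA, smul_zero]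
  obtain ⟨b, hb⟩ : ∃ b, w b ≠ 0 := by
    by_contra hcon
    push Not at hcon
    exact hw0 (funext hcon)
  apply hf0
  funext a
  have h5 := hall (Matrix.single b a (w b)⁻¹)
  rw [Matrix.transpose_single, Matrix.single_mulVec, inv_mul_cancel₀ hb] at h5
  rw [Finset.sum_eq_single a] at h5
  · simpa using h5
  · intro c _ hca
    simp [hca]
  · intro h
    exact absurd (Finset.mem_univ a) h

end inv

end Pool.Agent.X156.SD
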