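import Pool.Agent.X156.SD.Odd

/-!
# Groups with a normal subgroup of index a power of two
-/

set_option autoImplicit false
set_option linter.unusedSectionVars false

namespace Pool.Agent.X156.SD

open Module LinearMap

open Pool.Agent.X156.PR (ext le_ext self_mem_ext mem_ext ext_normal ext_index ext_le_iff
  sq_mem_of_index sq_le exists_z odd_le)

variable {G : Type} [Group G] [Finite G] {F : Type} [Field F] [CharZero F] {V : Type}
  [AddCommGroup V] [Module F V]

section rep

variable (ρ : G →* (V →ₗ[F] V)) (M : Subgroup G) [hMn : M.Normal]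

theorem stable (g : G) : ∀ v ∈ fixS ρ M, ρ g v ∈ fixS ρ M := by
  intro v hv m hm
  have h1 : ρ m (ρ g v) = ρ (m * g) v := by rw [map_mul]; rfl
  have h2 : m * g = g * (g⁻¹ * m * g) := by group
  have h3 : g⁻¹ * m * g ∈ M := by
    have := hMn.conj_mem m hm g⁻¹
    rwa [inv_inv] at this
  rw [h1, h2, map_mul]
  change ρ g (ρ (g⁻¹ * m * g) v) = ρ g v
  rw [hv _ h3]

/-- the action on the vectors fixed by a normal subgroup -/
def sub : G →* (fixS ρ M →ₗ[F] fixS ρ M) where
  toFun g := (ρ g).restrict (stable ρ M g)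
  map_one' := by
    apply LinearMap.ext
    intro v
    apply Subtype.ext
    rw [LinearMap.coe_restrict_apply, map_one]
    rfl
  map_mul' a b := by
    apply LinearMap.ext
    intro v
    apply Subtype.ext
    rw [LinearMap.coe_restrict_apply, map_mul]
    rfl

theorem sub_apply (g : G) (v : fixS ρ M) : ((sub ρ M g v : fixS ρ M) : V) = ρ g v := rfl

theorem sub_eq_one {m : G} (hm : m ∈ M) : sub ρ M m = 1 := by
  apply LinearMap.ext
  intro v
  apply Subtype.ext
  exact v.2 m hm

theorem sub_eq {g h : G} (hm : g⁻¹ * h ∈ M) : sub ρ M h = sub ρ M g := by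
  have : h = g * (g⁻¹ * h) := by group
  rw [this, map_mul, sub_eq_one ρ M hm, mul_one]

theorem sub_invol {z : G} (hz : z * z ∈ M) (v : fixS ρ M) : sub ρ M z (sub ρ M z v) = v := by
  have h := sub_eq_one ρ M hz
  rw [map_mul] at h
  exact congrArg (fun f : fixS ρ M →ₗ[F] fixS ρ M => f v) h

theorem fix_ext {z : G} (hz : z * z ∈ M) :
    fixS ρ (ext M z) = (fx (sub ρ M z)).map (fixS ρ M).subtype := by
  ext v
  rw [Submodule.mem_map]
  constructor
  · intro hv
    have h1 : v ∈ fixS ρ M := fixS_anti (le_ext M z) hv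
    refine ⟨⟨v, h1⟩, ?_, rfl⟩
    rw [mem_fx]
    apply Subtype.ext
    exact hv z (self_mem_ext M z)
  · rintro ⟨w, hw, rfl⟩ g hg
    rw [mem_fx] at hw
    have hw2 : ρ z (w : V) = w := congrArg Subtype.val hw
    rcases mem_ext M hz hg with h | h
    · exact w.2 g h
    · have h2 : g = z * (z⁻¹ * g) := by group
      rw [h2, map_mul]
      change ρ z (ρ (z⁻¹ * g) (w : V)) = (w : V)
      rw [w.2 _ h, hw2]

variable [FiniteDimensional F V]

theorem finrank_ext {z : G} (hz : z * z ∈ M) :
    finrank F (fixS ρ (ext M z)) = finrank F (fx (sub ρ M z)) := by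
  rw [fix_ext ρ M hz, Submodule.finrank_map_subtype_eq]

theorem SelfDual.sub {ρ : G →* (V →ₗ[F] V)} (h : SelfDual ρ) (M : Subgroup G) [M.Normal] :
    SelfDual (SD.sub ρ M) := by
  classical
  obtain ⟨B, h1, h2⟩ := h
  have : Fintype M := Fintype.ofFinite M
  refine ⟨(B.domRestrict (fixS ρ M)).compl₂ (fixS ρ M).subtype, ?_, ?_⟩
  · intro g v w
    exact h1 g v w
  · intro v hv
    apply Subtype.ext
    apply h2
    intro w
    set u : V := ∑ m : M, ρ m w with hu
    have hmem : u ∈ fixS ρ M := by
      intro h hh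
      rw [hu, map_sum]
      have : ∀ m : M, ρ h (ρ m w) = ρ ((⟨h, hh⟩ : M) * m : M) w := by
        intro m
        rw [Subgroup.coe_mul, map_mul]
        rfl
      rw [Finset.sum_congr rfl fun m _ => this m]
      exact Fintype.sum_equiv (Equiv.mulLeft (⟨h, hh⟩ : M)) _ _ fun m => rfl
    have h3 : B v u = 0 := hv ⟨u, hmem⟩
    rw [hu, map_sum] at h3
    have h4 : ∀ m : M, B v (ρ m w) = B v w := by
      intro m
      have h5 := h1 (m : G) v w
      rw [v.2 m m.2] at h5
      exact h5
    rw [Finset.sum_congr rfl fun m _ => h4 m, Finset.sum_const, Finset.card_univ,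
      ← Nat.card_eq_fintype_card, nsmul_eq_mul] at h3
    have hc : (Nat.card M : F) ≠ 0 := by exact_mod_cast Nat.card_pos.ne'
    exact (mul_eq_zero.1 h3).resolve_left hc

theorem det_one {ρ : G →* (V →ₗ[F] V)} (h : SelfDual ρ) (M : Subgroup G) [M.Normal] {z : G}
    (hz : z ∈ PR.sq M) : LinearMap.det (SD.sub ρ M z) = 1 := by
  set D : G →* F := (LinearMap.det : (fixS ρ M →ₗ[F] fixS ρ M) →* F).comp (SD.sub ρ M) with hD
  have h : PR.sq M ≤ D.ker := by
    unfold PR.sq
    rw [sup_le_iff, Subgroup.closure_le]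
    constructor
    · rintro _ ⟨g, rfl⟩
      exact det_sq (h.sub M) g
    · intro m hm
      rw [MonoidHom.mem_ker, hD, MonoidHom.comp_apply, sub_eq_one ρ M hm, map_one]
  exact h hz

end rep

variable [FiniteDimensional F V]

open scoped Classical in
/-- the sum over the subgroups of index two which contain `M` -/
noncomputable def sm (ρ : G →* (V →ₗ[F] V)) (M : Subgroup G) : ZMod 2 :=
  ∑ K ∈ (Set.toFinite {K : Subgroup G | K.index = 2 ∧ M ≤ K}).toFinset,
    (finrank F (fixS ρ K) : ZMod 2)

theorem two_part {ρ : G →* (V →ₗ[F] V)} (hρ : SelfDual ρ) (k : ℕ) : ∀ (M : Subgroup G) [M.Normal],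
    M.index = 2 ^ (k + 1) → (finrank F (fixS ρ M) : ZMod 2) = sm ρ M := by
  classical
  induction k with
  | zero =>
    intro M _ hM
    rw [zero_add, pow_one] at hM
    have : (Set.toFinite {K : Subgroup G | K.index = 2 ∧ M ≤ K}).toFinset = {M} := by
      ext K
      rw [Set.Finite.mem_toFinset, Set.mem_ofPred_eq, Finset.mem_singleton]
      constructor
      · rintro ⟨h1, h2⟩
        have h3 := Subgroup.relIndex_mul_index h2
        rw [h1, hM] at h3
        have h4 : M.relIndex K = 1 := by omega
        exact le_antisymm (Subgroup.relIndex_eq_one.1 h4) h2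
      · rintro rfl
        exact ⟨hM, le_rfl⟩
    rw [sm, this, Finset.sum_singleton]
  | succ k ih =>
    intro M _ hM
    by_cases hsq : PR.sq M ≤ M
    · -- the quotient is elementary abelian
      have hsq2 : ∀ g : G, g * g ∈ M := by
        intro g
        rw [← pow_two]
        exact hsq ((le_sup_left : _ ≤ PR.sq M) (Subgroup.subset_closure ⟨g, rfl⟩))
      have hcomm : ∀ g h : G, g * h * g⁻¹ * h⁻¹ ∈ M := by
        intro g h
        have e : g * h * g⁻¹ * h⁻¹ = (g * h) * (g * h) * (h⁻¹ * (g⁻¹ * g⁻¹) * h) *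
          (h⁻¹ * h⁻¹) := by group
        rw [e]
        refine M.mul_mem (M.mul_mem (hsq2 _) ?_) (hsq2 _)
        have := (inferInstance : M.Normal).conj_mem _ (hsq2 g⁻¹) h⁻¹
        rwa [inv_inv] at this
      have hidx : M.index = 2 * 2 ^ (k + 1) := by rw [hM]; ring
      obtain ⟨a, ha⟩ : ∃ a, a ∉ M := by
        by_contra hcon
        push Not at hcon
        have : M = ⊤ := (Subgroup.eq_top_iff' M).2 hcon
        rw [this, Subgroup.index_top] at hM
        have : 1 < 2 ^ (k + 1 + 1) := Nat.one_lt_two_pow (by omega)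
        omega
      have hia := ext_index M (hsq2 a) ha hidx
      obtain ⟨b, hb⟩ : ∃ b, b ∉ ext M a := by
        by_contra hcon
        push Not at hcon
        have : ext M a = ⊤ := (Subgroup.eq_top_iff' _).2 hcon
        rw [this, Subgroup.index_top] at hia
        have : 1 < 2 ^ (k + 1) := Nat.one_lt_two_pow (by omega)
        omega
      have hbM : b ∉ M := fun h => hb (le_ext M a h)
      have habM : a * b ∉ M := by
        intro h
        apply hb
        have h1 : a⁻¹ * (a * b) ∈ ext M a :=
          (ext M a).mul_mem ((ext M a).inv_mem (self_mem_ext M a)) (le_ext M a h)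
        rwa [inv_mul_cancel_left] at h1
      have hna := ext_normal M (z := a) (fun g => hcomm g a)
      have hnb := ext_normal M (z := b) (fun g => hcomm g b)
      have hnab := ext_normal M (z := a * b) (fun g => hcomm g (a * b))
      have hib := ext_index M (hsq2 b) hbM hidx
      have hiab := ext_index M (hsq2 (a * b)) habM hidx
      have e1 := ih (ext M a) hia
      have e2 := ih (ext M b) hib
      have e3 := ih (ext M (a * b)) hiab
      have hab : ∀ v, SD.sub ρ M a (SD.sub ρ M b v) = SD.sub ρ M b (SD.sub ρ M a v) := by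
        intro v
        have h1 : SD.sub ρ M (a * b) = SD.sub ρ M (b * a) := by
          refine sub_eq ρ M ?_
          have := hcomm a⁻¹ b⁻¹
          have e : (b * a)⁻¹ * (a * b) = a⁻¹ * b⁻¹ * a⁻¹⁻¹ * b⁻¹⁻¹ := by group
          rwa [e]
        rw [map_mul, map_mul] at h1
        exact congrArg (fun f : fixS ρ M →ₗ[F] fixS ρ M => f v) h1
      have hk := klein (SD.sub ρ M a) (SD.sub ρ M b) (sub_invol ρ M (hsq2 a)) (sub_invol ρ M (hsq2 b))
        hab
      have hcomp : SD.sub ρ M a ∘ₗ SD.sub ρ M b = SD.sub ρ M (a * b) := by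
        rw [map_mul]
        rfl
      rw [hcomp, ← finrank_ext ρ M (hsq2 a), ← finrank_ext ρ M (hsq2 b),
        ← finrank_ext ρ M (hsq2 (a * b)), e1, e2, e3] at hk
      rw [hk]
      have hfil : ∀ x : G, sm ρ (ext M x) =
          ∑ K ∈ (Set.toFinite {K : Subgroup G | K.index = 2 ∧ M ≤ K}).toFinset,
            if x ∈ K then (finrank F (fixS ρ K) : ZMod 2) else 0 := by
        intro x
        rw [← Finset.sum_filter, sm]
        refine Finset.sum_congr ?_ fun _ _ => rfl
        ext K
        rw [Finset.mem_filter, Set.Finite.mem_toFinset, Set.Finite.mem_toFinset,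
          Set.mem_ofPred_eq, Set.mem_ofPred_eq, ext_le_iff M (hsq2 x), and_assoc]
      rw [hfil a, hfil b, hfil (a * b), ← Finset.sum_add_distrib, ← Finset.sum_add_distrib, sm]
      refine Finset.sum_congr rfl fun K hK => ?_
      rw [Set.Finite.mem_toFinset, Set.mem_ofPred_eq] at hK
      have hmul := Subgroup.mul_mem_iff_of_index_two hK.1 (a := a) (b := b)
      have h2 : ∀ t : ZMod 2, t + t + t = t := by decide
      by_cases h3 : a ∈ K <;> by_cases h4 : b ∈ K <;> simp [h3, h4, hmul, h2]
    · -- there is a central involution which is a product of squares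
      obtain ⟨z, hz, hzM, hz2, hzc⟩ := exists_z M hM hsq
      have hn := ext_normal M hzc
      have hi : (ext M z).index = 2 ^ (k + 1) :=
        ext_index M hz2 hzM (by rw [hM]; ring)
      have e1 := ih (ext M z) hi
      have e2 := invol_step (SD.sub ρ M z) (sub_invol ρ M hz2) (det_one hρ M hz)
      rw [e2, ← finrank_ext ρ M hz2, e1]
      unfold sm
      refine Finset.sum_congr ?_ fun _ _ => rfl
      ext K
      rw [Set.Finite.mem_toFinset, Set.Finite.mem_toFinset, Set.mem_ofPred_eq, Set.mem_ofPred_eq,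
        ext_le_iff M hz2]
      constructor
      · rintro ⟨h1, h2, -⟩
        exact ⟨h1, h2⟩
      · rintro ⟨h1, h2⟩
        exact ⟨h1, h2, sq_le h1 h2 hz⟩

/-- **The parity of the dimension.** -/
theorem parity {ρ : G →* (V →ₗ[F] V)} (hρ : SelfDual ρ) (N : Subgroup G) [N.Normal] (hN : Odd (Nat.card N)) {k : ℕ}
    (hk : N.index = 2 ^ (k + 1)) :
    (finrank F V : ZMod 2) = ∑ K ∈ (Set.toFinite {K : Subgroup G | K.index = 2}).toFinset,
      (finrank F (fixS ρ K) : ZMod 2) := by
  rw [odd_step hρ N hN, two_part hρ k N hk, sm]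
  refine Finset.sum_congr ?_ fun _ _ => rfl
  ext K
  rw [Set.Finite.mem_toFinset, Set.Finite.mem_toFinset, Set.mem_ofPred_eq, Set.mem_ofPred_eq]
  exact ⟨fun h => h.1, fun h => ⟨h, odd_le hN h⟩⟩

end Pool.Agent.X156.SD
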