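import Pool.Agent.X156.SD.Layers

/-!
# Irreducible characters of a finite group
-/

set_option autoImplicit false
set_option linter.unusedSectionVars false

namespace Pool.Agent.X156.SD

open Module LinearMap

/-- a decomposition of the group algebra into matrix algebras -/
structure Irr (G : Type) [Group G] : Type where
  /-- the number of the factors -/
  r : ℕ
  /-- the degrees -/
  d : Fin r → ℕ
  /-- the degrees are positive -/
  pos : ∀ i, 0 < d i
  /-- the isomorphism -/
  e : MonoidAlgebra ℂ G ≃ₐ[ℂ] ((i : Fin r) → Matrix (Fin (d i)) (Fin (d i)) ℂ)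

theorem exists_irr (G : Type) [Group G] [Finite G] : Nonempty (Irr G) := by
  have : Fintype G := Fintype.ofFinite G
  have : NeZero ((Nat.card G : ℕ) : ℂ) := ⟨by exact_mod_cast Nat.card_pos.ne'⟩
  obtain ⟨n, d, h1, ⟨e⟩⟩ :=
    IsSemisimpleRing.exists_algEquiv_pi_matrix_of_isAlgClosed ℂ (MonoidAlgebra ℂ G)
  exact ⟨⟨n, d, fun i => Nat.pos_of_ne_zero (h1 i).out, e⟩⟩

variable {G : Type} [Group G] (D : Irr G)

/-- the irreducible representations -/
noncomputable def Irr.mat (i : Fin D.r) : G →* Matrix (Fin (D.d i)) (Fin (D.d i)) ℂ where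
  toFun g := D.e (MonoidAlgebra.of ℂ G g) i
  map_one' := by rw [map_one, map_one]; rfl
  map_mul' a b := by rw [map_mul, map_mul]; rfl

/-- the irreducible characters -/
noncomputable def Irr.chr (i : Fin D.r) (g : G) : ℂ := (D.mat i g).trace

theorem std_repr {n : ℕ} (M : Matrix (Fin n) (Fin n) ℂ) (p : Fin n × Fin n) :
    (Matrix.stdBasis ℂ (Fin n) (Fin n)).repr M p = M p.1 p.2 := by
  rcases p with ⟨a, b⟩
  simp [Matrix.stdBasis]

theorem entry {n : ℕ} (M N : Matrix (Fin n) (Fin n) ℂ) (a b : Fin n) :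
    (M * (Matrix.single a b (1 : ℂ) * N) : Matrix (Fin n) (Fin n) ℂ) a b = M a a * N b b := by
  rw [Matrix.mul_apply, Finset.sum_eq_single a]
  · rw [Matrix.mul_apply, Finset.sum_eq_single b]
    · simp
    · intro c _ hc
      simp [Matrix.single_apply, hc.symm]
    · simp
  · intro c _ hc
    rw [Matrix.mul_apply]
    rw [Finset.sum_eq_zero, mul_zero]
    intro x _
    simp [Matrix.single_apply, hc.symm]
  · simp

/-- **Orthogonality.** -/
theorem Irr.sum_chr [Finite G] (g h : G) :
    ∑ i, D.chr i g * D.chr i h = (Nat.card {x : G // g * x * h = x} : ℂ) := by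
  classical
  have : Fintype G := Fintype.ofFinite G
  set T : MonoidAlgebra ℂ G →ₗ[ℂ] MonoidAlgebra ℂ G :=
    (LinearMap.mulLeft ℂ (MonoidAlgebra.of ℂ G g)) ∘ₗ
      (LinearMap.mulRight ℂ (MonoidAlgebra.of ℂ G h)) with hT
  set T' : ((i : Fin D.r) → Matrix (Fin (D.d i)) (Fin (D.d i)) ℂ) →ₗ[ℂ]
      ((i : Fin D.r) → Matrix (Fin (D.d i)) (Fin (D.d i)) ℂ) :=
    (LinearMap.mulLeft ℂ (D.e (MonoidAlgebra.of ℂ G g))) ∘ₗ
      (LinearMap.mulRight ℂ (D.e (MonoidAlgebra.of ℂ G h))) with hT'
  have h1 : D.e.toLinearEquiv.conj T = T' := by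
    apply LinearMap.ext
    intro A
    rw [LinearEquiv.conj_apply_apply]
    change D.e (MonoidAlgebra.of ℂ G g * (D.e.symm A * MonoidAlgebra.of ℂ G h)) = _
    rw [map_mul, map_mul, AlgEquiv.apply_symm_apply]
    rfl
  have h2 : LinearMap.trace ℂ _ T' = LinearMap.trace ℂ _ T := by
    rw [← h1, LinearMap.trace_conj']
  have h3 : LinearMap.trace ℂ _ T = (Nat.card {x : G // g * x * h = x} : ℂ) := by
    rw [LinearMap.trace_eq_matrix_trace ℂ (MonoidAlgebra.basis G ℂ), Matrix.trace]
    have : ∀ x : G, (LinearMap.toMatrix (MonoidAlgebra.basis G ℂ) (MonoidAlgebra.basis G ℂ) T).diag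
        x = if g * x * h = x then 1 else 0 := by
      intro x
      rw [Matrix.diag_apply, LinearMap.toMatrix_apply, MonoidAlgebra.basis_apply]
      have h4 : T (MonoidAlgebra.single x 1) = MonoidAlgebra.single (g * x * h) 1 := by
        change MonoidAlgebra.of ℂ G g * (MonoidAlgebra.single x 1 * MonoidAlgebra.of ℂ G h) = _
        rw [MonoidAlgebra.of_apply, MonoidAlgebra.of_apply, MonoidAlgebra.single_mul_single,
          MonoidAlgebra.single_mul_single, mul_one, mul_one, mul_assoc]
      rw [h4]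
      change (Finsupp.single (g * x * h) (1 : ℂ)) x = _
      rw [Finsupp.single_apply]
    rw [Finset.sum_congr rfl fun x _ => this x, Finset.sum_boole, Nat.card_eq_fintype_card,
      Fintype.card_subtype]
  have h5 : LinearMap.trace ℂ _ T' = ∑ i, D.chr i g * D.chr i h := by
    rw [LinearMap.trace_eq_matrix_trace ℂ (Pi.basis fun i : Fin D.r =>
      Matrix.stdBasis ℂ (Fin (D.d i)) (Fin (D.d i))), Matrix.trace, Fintype.sum_sigma]
    refine Finset.sum_congr rfl fun i _ => ?_
    rw [Fintype.sum_prod_type]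
    unfold Irr.chr Matrix.trace
    rw [Finset.sum_mul_sum]
    refine Finset.sum_congr rfl fun a _ => Finset.sum_congr rfl fun b _ => ?_
    rw [Matrix.diag_apply, LinearMap.toMatrix_apply, Pi.basis_repr, Pi.basis_apply, std_repr,
      Matrix.stdBasis_eq_single]
    change (D.e (MonoidAlgebra.of ℂ G g) i * ((Pi.single i (Matrix.single a b (1 : ℂ)) :
      (i : Fin D.r) → Matrix (Fin (D.d i)) (Fin (D.d i)) ℂ) i * D.e (MonoidAlgebra.of ℂ G h) i))
        a b = _
    rw [Pi.single_eq_same, entry]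
    rfl
  rw [← h5, h2, h3]

end Pool.Agent.X156.SD
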